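import Mathlib
import Pool.Agent.Lib.Pf72953b.Defs
import Pool.Agent.Lib.Pf72953b.FinBad
import Pool.Agent.Lib.Pf72953.Estimate

/-!
The one-sided product formula: definitions.  `Y = k(M)`, `B` an arbitrary function field, `Z = Y·B`, `R/Z` finite.
-/

set_option autoImplicit false
set_option linter.style.haveILetI false

open scoped WithZero
open Pf72953 Pf72953.Mov Pf72953.Up

namespace Pf72953.Osp

/-- The valuation `w` of `R` is Gauss over its restriction to `B`: residually independent families of `B`, together with a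
transcendence basis of `Y`, are residually independent.  (So `w` is trivial on `Y`, and the restriction of `w` to `Y·B` is the
Gauss extension of its restriction to `B`.) -/
def RG (k Y B : Type*) {R : Type*} [Field k] [Field Y] [Field B] [Field R] [Algebra k Y]
    [Algebra k B] [Algebra k R] [Algebra Y R] [Algebra B R] (w : Valuation R ℤᵐ⁰) : Prop :=
  ∀ (r : ℕ) (β : Fin r → B), ResIndep k (w.comap (algebraMap B R)) β →
    ∀ x : Fin (dimension k Y) → Y, IsTranscendenceBasis k x →
      ResIndep k w (Sum.elim (fun i => algebraMap B R (β i)) (fun j => algebraMap Y R (x j)))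

/-- A divisor of a section `∑ a_l s_l` on `M × Spec B`, `a_l ∈ B`, `s_l` sections of the line bundle `S` on `M`. -/
structure WDiv {k Y : Type*} [Field k] [Field Y] [Algebra k Y] (M : SmoothModel k Y) (B : Type*)
    [Field B] [Algebra k B] where
  S : LineBundle M
  r : ℕ
  s : Fin (r + 1) → Y
  a : Fin (r + 1) → B
  s_mem : ∀ l, s l ∈ S.sections
  s_indep : LinearIndependent k s
  a_indep : LinearIndependent k a

/-- the section `∑ a_l s_l` -/
def WDiv.sec {k Y : Type*} [Field k] [Field Y] [Algebra k Y] {M : SmoothModel k Y} {B : Type*}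
    [Field B] [Algebra k B] (D : WDiv M B) (R : Type*) [Field R] [Algebra B R] [Algebra Y R] : R :=
  ∑ l, algebraMap B R (D.a l) * algebraMap Y R (D.s l)

/-- as a moving divisor -/
def WDiv.toMov {k Y : Type*} [Field k] [Field Y] [Algebra k Y] {M : SmoothModel k Y} {B : Type*}
    [Field B] [Algebra k B] (D : WDiv M B) (R : Type*) [Field R] [Algebra B R] [Algebra Y R] :
    MovingDivisor M B R where
  S := D.S
  r := D.r
  s := D.s
  a := fun l => algebraMap B R (D.a l)
  s_mem := D.s_mem
  s_indep := D.s_indep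
  a_alg := fun l => isAlgebraic_algebraMap _
  a_ne := ⟨0, by
    have h0 := D.a_indep.ne_zero (0 : Fin (D.r + 1))
    simpa using h0⟩

/-- Every prime divisor of `M` over `B` over which `Q` is ramified is the support of the divisor of a section `∑ a_l s_l` with
`a_l ∈ B`. -/
def WMoves (k : Type*) {Y : Type*} [Field k] [Field Y] [Algebra k Y] (M : SmoothModel k Y)
    (B Z Q : Type*) [Field B] [Field Z] [Field Q] [Algebra k B] [Algebra k Q] [Algebra B Q]
    [Algebra B Z] [Algebra Y Z] [Algebra Z Q] [Algebra Y Q] : Prop :=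
  ∀ (i : M.I) (w : Valuation Q ℤᵐ⁰), Br.Bad k M B Z i w →
    ∃ D : WDiv M B, w (D.toMov Q).sec < w (algebraMap Y Q (D.S.gen i)) ∧
      Br.SuppOn k Z (D.toMov Q) w

/-- `h (dx)^m` is a form on `B` whose pull-back to `R`, over `Y`, is regular, up to `∏ (max_l a_l)^{q_j}`, at the divisorial valuations
of `R` which are Gauss over `B`. -/
def GForm (k Y R : Type*) {B J ι : Type*} [Field k] [CharZero k] [Field Y] [Field R] [Field B]
    [Algebra k Y] [Algebra k R] [Algebra k B] [Algebra Y R] [Algebra B R] [Fintype J] [Fintype ι]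
    [DecidableEq ι] {r : J → ℕ} (a : ∀ j, Fin (r j + 1) → B) (x : ι → B) (m : ℕ) (q : J → ℕ) :
    Set B :=
  {h | ∀ w : Valuation R ℤᵐ⁰, IsDivisorial k R w → RG k Y B w → ∀ t : R, IsUnif w t →
    ∀ l : ∀ j, Fin (r j + 1),
      (∀ j l', w (algebraMap B R (a j l')) ≤ w (algebraMap B R (a j (l j)))) →
      ∃ (c : ι → B) (hc : LogBasis k (w.comap (algebraMap B R)) c),
        w (algebraMap B R h) * (w (algebraMap B R (jac hc.tb x)) *
          ∏ i, w (algebraMap B R (c i))) ^ m ≤ w t ^ m * ∏ j, w (algebraMap B R (a j (l j))) ^ q j}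

/-- `c` algebraically independent quotients of such forms -/
def GKod (k Y R : Type*) {B J : Type*} [Field k] [CharZero k] [Field Y] [Field R] [Field B]
    [Algebra k Y] [Algebra k R] [Algebra k B] [Algebra Y R] [Algebra B R] [Fintype J]
    {r : J → ℕ} (a : ∀ j, Fin (r j + 1) → B) (c : ℕ) : Prop :=
  ∃ (x : Fin (dimension k B) → B) (_ : IsTranscendenceBasis k x) (m : ℕ) (_ : 1 ≤ m) (q : J → ℕ)
    (h : B) (_ : h ≠ 0) (_ : h ∈ GForm k Y R a x m q) (f : Fin c → B),
    AlgebraicIndependent k f ∧ ∀ i, f i * h ∈ GForm k Y R a x m q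

end Pf72953.Osp
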