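import Mathlib
import Pool.Agent.Lib.Pf72953z.DefsO

/-!
The one-sided product formula: the data of the upper bound over `Y`.
-/

set_option autoImplicit false
set_option linter.style.haveILetI false

open scoped WithZero
open Pf72953 Pf72953.Mov Pf72953.Up Pf72953.Br

namespace Pf72953.Osp

/-- The data: `ρ_l ∈ Z` bounded by one at the valuations trivial on `B` and `Y`, less than one at those over which `R` is ramified, and bounded by
`(max a)^N` at the Gauss valuations. -/
structure Rho (k Y Z R : Type*) {B : Type*} [Field k] [Field B] [Field Y] [Field Z] [Field R]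
    [CharZero k] [Algebra k B]
    [Algebra k Y] [Algebra k R] [Algebra B Z] [Algebra B R] [Algebra Y Z] [Algebra Y R] [Algebra Z R]
    (M : SmoothModel k Y) {J : Type*} {r : J → ℕ} (a : ∀ j, Fin (r j + 1) → B) {n : ℕ}
    (ρ : Fin n → Z) (jj : Fin n → J) (N : ℕ) : Prop where
  ne : ∀ l, ρ l ≠ 0
  le_one : ∀ w : Valuation R ℤᵐ⁰, IsDivisorial k R w →
    (∀ b : B, b ≠ 0 → w (algebraMap B R b) = 1) → (∀ y : Y, y ≠ 0 → w (algebraMap Y R y) = 1) →
    ∀ l, w (algebraMap Z R (ρ l)) ≤ 1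
  lt_one : ∀ (i : M.I) (w : Valuation R ℤᵐ⁰), Bad k M B Z i w →
    (∀ y : Y, y ≠ 0 → w (algebraMap Y R y) = 1) → ∃ l, w (algebraMap Z R (ρ l)) < 1
  gauss : ∀ w : Valuation R ℤᵐ⁰, IsDivisorial k R w → RG k Y B w →
    ∀ (l : Fin n) (l₀ : Fin (r (jj l) + 1)),
      (∀ l', w (algebraMap B R (a (jj l) l')) ≤ w (algebraMap B R (a (jj l) l₀))) →
      w (algebraMap Z R (ρ l)) ≤ w (algebraMap B R (a (jj l) l₀)) ^ N

/-- the norm of `g`, multiplied by the equations -/
noncomputable def nfo {Z R : Type*} [Field Z] [Field R] [Algebra Z R] {n : ℕ} (ρ : Fin n → Z) (m : ℕ)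
    (g : R) : Z := Algebra.norm Z g * ∏ l, ρ l ^ (m * Module.finrank Z R)

/-- the condition on `R` for the upper bound over `Y`: ramification of `R` at a valuation trivial on `Y` comes from `Q` -/
def CondY (k Y B Z Q R : Type*) [Field k] [Field Y] [Field B] [Field Z] [Field Q] [Field R]
    [Algebra k Q] [Algebra k R] [Algebra B Q] [Algebra B R] [Algebra Y Q] [Algebra Y R]
    [Algebra Z Q] [Algebra Z R] : Prop :=
  ∀ w : Valuation R ℤᵐ⁰, IsDivisorial k R w → (∀ y : Y, y ≠ 0 → w (algebraMap Y R y) = 1) →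
    ¬ Unr Z w → ∃ φ : Q →ₐ[k] R, (∀ b : B, φ (algebraMap B Q b) = algebraMap B R b) ∧
      (∀ y : Y, IsAlgebraic Y (φ (algebraMap Y Q y))) ∧
      IsDivisorial k Q (w.comap (φ : Q →+* R)) ∧ ¬ Unr Z (w.comap (φ : Q →+* R))

end Pf72953.Osp
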