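import Mathlib
import Pool.Agent.Lib.Pf72953b.FinBad

/-!
Varieties with factorial charts: definitions.
-/

set_option autoImplicit false
set_option linter.style.haveILetI false

open scoped WithZero
open Pf72953 Pf72953.Mov Pf72953.Up

namespace Pf72953.Fac

/-- `v` is the valuation of a prime divisor of `Spec A`: it is centred on `Spec A`, and its valuation ring is the local
ring of the centre. -/
structure PrimeOn {B Z : Type*} [Field B] [Field Z] [Algebra B Z] (A : Subalgebra B Z)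
    (v : Valuation Z ℤᵐ⁰) : Prop where
  le : ∀ a ∈ A, v a ≤ 1
  nontriv : ∃ a : Z, a ≠ 0 ∧ v a ≠ 1
  loc : ∀ z, v z ≤ 1 → ∃ a ∈ A, ∃ b ∈ A, v b = 1 ∧ z = a / b

/-- every prime divisor of `Spec A` is the support of the divisor of a function on `Spec A` -/
def QF {B Z : Type*} [Field B] [Field Z] [Algebra B Z] (A : Subalgebra B Z) : Prop :=
  ∀ w : Valuation Z ℤᵐ⁰, PrimeOn A w → ∃ p ∈ A, w p < 1 ∧
    ∀ w' : Valuation Z ℤᵐ⁰, PrimeOn A w' → w' p < 1 → ∀ z, w' z ≤ 1 ↔ w z ≤ 1

/-- The charts of `M` are glued, i.e. they are open subsets of one variety: if a valuation is centred on two charts, the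
local rings of the centres coincide. -/
def Glued {k Y : Type*} [Field k] [Field Y] [Algebra k Y] (M : SmoothModel k Y) : Prop :=
  ∀ (i j : M.I) (v : Valuation Y ℤᵐ⁰), (∀ f ∈ M.A i, v f ≤ 1) → (∀ f ∈ M.A j, v f ≤ 1) →
    ∀ f ∈ M.A i, ∃ a ∈ M.A j, ∃ b ∈ M.A j, v b = 1 ∧ f = a / b

end Pf72953.Fac
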