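import Mathlib
import Pool.Agent.Lib.Pf72953z.Defs
import Pool.Agent.Lib.Pf72953f.GaussL

/-!
MODULE Pf72953z.Gauss: primes of a factorial chart stay prime after a base change.
-/

set_option autoImplicit false
set_option linter.style.haveILetI false

open scoped WithZero
open Pf72953 Pf72953.Mov Pf72953.Up

namespace Pf72953.Fac

section adic

/-- the `g`-adic valuation of a factorial ring -/
theorem exists_adic {A : Type*} [CommRing A] [IsDomain A] [UniqueFactorizationMonoid A] {g : A}
    (hg : Prime g) : ∃ v : Valuation A ℤᵐ⁰, (∀ a, v a ≤ 1) ∧ (∀ a, v a < 1 ↔ g ∣ a) ∧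
      ∀ a, v a = 0 → a = 0 := by
  classical
  have hfin : ∀ a : A, a ≠ 0 → FiniteMultiplicity g a := fun a ha =>
    FiniteMultiplicity.of_not_isUnit hg.not_isUnit ha
  let v : Valuation A ℤᵐ⁰ :=
    { toFun := fun a => if a = 0 then 0 else WithZero.exp (-(multiplicity g a : ℤ))
      map_zero' := by simp
      map_one' := by
        rw [if_neg one_ne_zero]
        have h1 : multiplicity g (1 : A) = 0 := by
          rw [multiplicity_eq_zero]
          exact fun h => hg.not_isUnit (isUnit_of_dvd_one h)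
        rw [h1]
        rfl
      map_mul' := by
        intro a b
        rcases eq_or_ne a 0 with rfl | ha
        · simp
        rcases eq_or_ne b 0 with rfl | hb
        · simp
        rw [if_neg ha, if_neg hb, if_neg (mul_ne_zero ha hb),
          multiplicity_mul hg (hfin _ (mul_ne_zero ha hb)), ← WithZero.exp_add]
        congr 1
        push_cast
        ring
      map_add_le_max' := by
        intro a b
        rcases eq_or_ne a 0 with rfl | ha
        · simp
        rcases eq_or_ne b 0 with rfl | hb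
        · simp
        rcases eq_or_ne (a + b) 0 with hab | hab
        · rw [if_pos hab]
          exact zero_le
        rw [if_neg ha, if_neg hb, if_neg hab]
        rw [le_max_iff, WithZero.exp_le_exp, WithZero.exp_le_exp, neg_le_neg_iff, neg_le_neg_iff]
        rcases le_total (multiplicity g a) (multiplicity g b) with h | h
        · left
          have h1 : g ^ multiplicity g a ∣ a + b :=
            dvd_add (pow_multiplicity_dvd g a) ((pow_dvd_pow g h).trans (pow_multiplicity_dvd g b))
          exact_mod_cast (hfin _ hab).le_multiplicity_of_pow_dvd h1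
        · right
          have h1 : g ^ multiplicity g b ∣ a + b :=
            dvd_add ((pow_dvd_pow g h).trans (pow_multiplicity_dvd g a)) (pow_multiplicity_dvd g b)
          exact_mod_cast (hfin _ hab).le_multiplicity_of_pow_dvd h1 }
  have hv : ∀ a : A, a ≠ 0 → v a = WithZero.exp (-(multiplicity g a : ℤ)) := fun a ha => if_neg ha
  refine ⟨v, fun a => ?_, fun a => ?_, fun a h => ?_⟩
  · rcases eq_or_ne a 0 with rfl | ha
    · rw [map_zero]
      exact zero_le_one
    · rw [hv a ha, ← WithZero.exp_zero, WithZero.exp_le_exp]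
      omega
  · rcases eq_or_ne a 0 with rfl | ha
    · rw [map_zero]
      simp
    · rw [hv a ha, ← WithZero.exp_zero, WithZero.exp_lt_exp]
      constructor
      · intro h
        by_contra hcon
        rw [multiplicity_eq_zero.2 hcon] at h
        simp at h
      · intro h
        have h1 : multiplicity g a ≠ 0 := by
          rw [Ne, multiplicity_eq_zero]
          exact not_not.2 h
        omega
  · by_contra ha
    rw [hv a ha] at h
    exact WithZero.exp_ne_zero h

variable {k Y : Type*} [Field k] [Field Y] [Algebra k Y]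

/-- the `g`-adic valuation of the function field -/
theorem exists_adic_field {A : Subalgebra k Y}
    (hfrac : ∀ f : Y, ∃ g ∈ A, ∃ h ∈ A, h ≠ 0 ∧ f = g / h)
    [UniqueFactorizationMonoid A] {g : A} (hg : Prime g) :
    ∃ v : Valuation Y ℤᵐ⁰, (∀ c : k, c ≠ 0 → v (algebraMap k Y c) = 1) ∧
      (∀ a : A, v a ≤ 1) ∧ ∀ a : A, v a < 1 ↔ g ∣ a := by
  haveI : IsFractionRing A Y := by
    refine IsFractionRing.of_field A Y fun z => ?_
    obtain ⟨a, ha, h, hh, -, e⟩ := hfrac z
    exact ⟨⟨a, ha⟩, ⟨h, hh⟩, e⟩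
  obtain ⟨v₀, h1, h2, h3⟩ := exists_adic hg
  have hS : nonZeroDivisors A ≤ v₀.supp.primeCompl := by
    intro s hs hs'
    rw [SetLike.mem_coe, Valuation.mem_supp_iff] at hs'
    exact nonZeroDivisors.ne_zero hs (h3 s hs')
  have hv : ∀ a : A, v₀.extendToLocalization hS Y (a : Y) = v₀ a := fun a =>
    v₀.extendToLocalization_apply_map_apply hS Y a
  refine ⟨v₀.extendToLocalization hS Y, fun c hc => ?_, fun a => ?_, fun a => ?_⟩
  · have h4 : ∀ c : k, v₀.extendToLocalization hS Y (algebraMap k Y c) ≤ 1 := fun c => by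
      have h5 := hv (algebraMap k A c)
      exact h5.trans_le (h1 _)
    refine le_antisymm (h4 c) ?_
    have h5 := h4 c⁻¹
    rw [map_inv₀, map_inv₀] at h5
    refine (inv_le_one₀ (zero_lt_iff.2 ?_)).1 h5
    rw [Valuation.ne_zero_iff, Ne, map_eq_zero]
    exact hc
  · rw [hv]
    exact h1 a
  · rw [hv]
    exact h2 a

end adic

section gauss

variable {k B Y Z : Type*} [Field k] [CharZero k] [IsAlgClosed k] [Field B] [CharZero B] [Field Y]
  [CharZero Y] [Field Z]
  [Algebra k B] [Algebra k Y] [Algebra k Z] [Algebra B Z] [Algebra Y Z] [IsScalarTower k B Z]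
  [IsScalarTower k Y Z] [Algebra.EssFiniteType k B] [Algebra.EssFiniteType k Y]
  [Algebra.EssFiniteType k Z]

omit [CharZero k] [IsAlgClosed k] [CharZero B] [CharZero Y] [IsScalarTower k B Z]
  [IsScalarTower k Y Z] [Algebra.EssFiniteType k B] [Algebra.EssFiniteType k Y]
  [Algebra.EssFiniteType k Z] in
theorem comp_of (hdim : dimension k Y + dimension k B = dimension k Z)
    (hgen : ∀ z : Z, z ∈ IntermediateField.adjoin B (Set.range (algebraMap Y Z))) :
    Fib.Comp k Y B Z := by
  refine ⟨hdim, ?_⟩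
  rw [eq_top_iff]
  intro z _
  let T : IntermediateField k Z :=
    IntermediateField.adjoin k (Set.range (algebraMap Y Z) ∪ Set.range (algebraMap B Z))
  let T' : IntermediateField B Z :=
    { T.toSubfield with
      algebraMap_mem' := fun b => IntermediateField.subset_adjoin k _ (Or.inr ⟨b, rfl⟩) }
  have h1 : IntermediateField.adjoin B (Set.range (algebraMap Y Z)) ≤ T' := by
    rw [IntermediateField.adjoin_le_iff]
    intro y hy
    exact IntermediateField.subset_adjoin k _ (Or.inl hy)
  exact h1 (hgen z)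

/-- `Comp.exists_gauss` (Pf72953f/GaussL.lean) with `B, C, E, L := k, Y, B, Z` -/
theorem exists_gaussB (hdim : dimension k Y + dimension k B = dimension k Z)
    (hgen : ∀ z : Z, z ∈ IntermediateField.adjoin B (Set.range (algebraMap Y Z)))
    {v : Valuation Y ℤᵐ⁰} (hv : ∀ c : k, c ≠ 0 → v (algebraMap k Y c) = 1) :
    ∃ W : Valuation Z ℤᵐ⁰, (∀ y, W (algebraMap Y Z y) = v y) ∧
      (∀ b : B, b ≠ 0 → W (algebraMap B Z b) = 1) ∧
      (∀ (n : ℕ) (b : Fin n → B), LinearIndependent k b → ∀ (y : Fin n → Y) (a : Fin n),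
        v (y a) ≤ W (∑ a, algebraMap Y Z (y a) * algebraMap B Z (b a))) := by
  obtain ⟨s, hs⟩ := exists_tb k B
  have hBc : Fib.ClosedIn k B := by
    intro a ha
    have h := IsAlgClosed.degree_eq_one_of_irreducible k (minpoly.irreducible ha.isIntegral)
    exact minpoly.mem_range_of_degree_eq_one k a h
  obtain ⟨W, h1, h2, h3, -⟩ := (comp_of hdim hgen).exists_gauss hBc hs hv
  exact ⟨W, h1, h2, h3⟩

omit [IsAlgClosed k] [CharZero Y] [Algebra.EssFiniteType k B]
  [Algebra.EssFiniteType k Y] [Algebra.EssFiniteType k Z] in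
/-- an element of `bc B Z A` at a Gauss valuation -/
theorem gauss_bc {A : Subalgebra k Y} {v : Valuation Y ℤᵐ⁰} (hvA : ∀ a : A, v a ≤ 1)
    {W : Valuation Z ℤᵐ⁰} (h1 : ∀ y, W (algebraMap Y Z y) = v y)
    (h2 : ∀ b : B, b ≠ 0 → W (algebraMap B Z b) = 1)
    (h3 : ∀ (n : ℕ) (b : Fin n → B), LinearIndependent k b → ∀ (y : Fin n → Y) (a : Fin n),
        v (y a) ≤ W (∑ a, algebraMap Y Z (y a) * algebraMap B Z (b a))) {r : Z}
    (hr : r ∈ bc B Z A) : W r ≤ 1 ∧ ∀ g : A, (∀ a : A, v a < 1 ↔ g ∣ a) → W r < 1 →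
      ∃ r' ∈ bc B Z A, r = algebraMap Y Z g * r' := by
  classical
  have hW : ∀ b : B, W (algebraMap B Z b) ≤ 1 := fun b => by
    rcases eq_or_ne b 0 with rfl | h
    · rw [map_zero, map_zero]
      exact zero_le_one
    · exact (h2 b h).le
  let b := Module.Basis.ofVectorSpace k B
  obtain ⟨p, hp, hrp⟩ := mem_bc b hr
  refine ⟨?_, fun g hg hlt => ?_⟩
  · rw [hrp, Finsupp.sum]
    refine Valuation.map_sum_le W fun i _ => ?_
    rw [map_mul, h1]
    exact mul_le_one' (hW _) (hvA ⟨p i, hp i⟩)
  · -- the coefficients are divisible by `g`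
    have hco : ∀ i ∈ p.support, v (p i) < 1 := by
      intro i hi
      obtain ⟨n, hn⟩ : ∃ n, n = p.support.card := ⟨_, rfl⟩
      let e : Fin n ≃ p.support := (finCongr hn).trans p.support.equivFin.symm
      have hli : LinearIndependent k (fun a : Fin n => b (e a)) :=
        b.linearIndependent.comp _ (Subtype.val_injective.comp e.injective)
      have h4 := h3 n (fun a => b (e a)) hli (fun a => p (e a)) (e.symm ⟨i, hi⟩)
      have h5 : ∑ a : Fin n, algebraMap Y Z (p (e a)) * algebraMap B Z (b (e a)) = r := by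
        rw [hrp, Finsupp.sum, ← Finset.sum_coe_sort p.support]
        rw [← e.sum_comp]
        exact Finset.sum_congr rfl fun a _ => mul_comm _ _
      rw [h5] at h4
      rw [Equiv.apply_symm_apply] at h4
      exact h4.trans_lt hlt
    have hdiv : ∀ i, ∃ y ∈ A, p i = g * y := by
      intro i
      by_cases hi : i ∈ p.support
      · obtain ⟨y, hy⟩ := (hg ⟨p i, hp i⟩).1 (hco i hi)
        exact ⟨y, y.2, congrArg Subtype.val hy⟩
      · exact ⟨0, A.zero_mem, by rw [Finsupp.notMem_support_iff.1 hi, mul_zero]⟩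
    choose y hy hpy using hdiv
    refine ⟨∑ i ∈ p.support, algebraMap B Z (b i) * algebraMap Y Z (y i), ?_, ?_⟩
    · refine Subalgebra.sum_mem _ fun i _ => ?_
      have h6 : algebraMap Y Z (y i) ∈ bc B Z A := Algebra.subset_adjoin ⟨y i, hy i, rfl⟩
      exact Subalgebra.mul_mem _ (Subalgebra.algebraMap_mem _ _) h6
    · rw [hrp, Finsupp.sum, Finset.mul_sum]
      refine Finset.sum_congr rfl fun i _ => ?_
      rw [hpy i, map_mul]
      ring

/-- a prime element of a factorial chart is a prime element of its base change -/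
theorem prime_bc (hdim : dimension k Y + dimension k B = dimension k Z)
    (hgen : ∀ z : Z, z ∈ IntermediateField.adjoin B (Set.range (algebraMap Y Z)))
    {A : Subalgebra k Y} (hfrac : ∀ f : Y, ∃ g ∈ A, ∃ h ∈ A, h ≠ 0 ∧ f = g / h)
    [UniqueFactorizationMonoid A] {g : A} (hg : Prime g) :
    Prime (⟨algebraMap Y Z g, Algebra.subset_adjoin ⟨g, g.2, rfl⟩⟩ : bc B Z A) := by
  obtain ⟨v, hv, hvA, hvg⟩ := exists_adic_field hfrac hg
  obtain ⟨W, h1, h2, h3⟩ := exists_gaussB hdim hgen hv
  have hWg : W (algebraMap Y Z g) < 1 := by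
    rw [h1]
    exact (hvg g).2 dvd_rfl
  have hle : ∀ r : bc B Z A, W (r : Z) ≤ 1 := fun r => (gauss_bc hvA h1 h2 h3 r.2).1
  have hdv : ∀ r : bc B Z A, W (r : Z) < 1 →
      (⟨algebraMap Y Z g, Algebra.subset_adjoin ⟨g, g.2, rfl⟩⟩ : bc B Z A) ∣ r := by
    intro r hr
    obtain ⟨r', hr', e⟩ := (gauss_bc hvA h1 h2 h3 r.2).2 g hvg hr
    exact ⟨⟨r', hr'⟩, Subtype.ext e⟩
  refine ⟨?_, ?_, ?_⟩
  · intro h0
    have h4 : algebraMap Y Z g = 0 := congrArg Subtype.val h0
    rw [map_eq_zero] at h4
    exact hg.ne_zero (Subtype.ext h4)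
  · intro hu
    obtain ⟨u, hu⟩ := hu.exists_right_inv
    have h4 : algebraMap Y Z g * u = 1 := congrArg Subtype.val hu
    have h5 := congrArg W h4
    rw [map_mul, map_one] at h5
    exact (mul_lt_one_of_lt_of_le hWg (hle u)).ne h5
  · rintro a b ⟨c, hc⟩
    have h4 : (a : Z) * b = algebraMap Y Z g * c := congrArg Subtype.val hc
    have h5 : W (a : Z) * W (b : Z) < 1 := by
      rw [← map_mul, h4, map_mul]
      exact mul_lt_one_of_lt_of_le hWg (hle c)
    rcases (hle a).lt_or_eq with ha | ha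
    · exact Or.inl (hdv a ha)
    · rw [ha, one_mul] at h5
      exact Or.inr (hdv b h5)

/-- a divisor in `bc B Z A` of an element of `A` is a unit times an element of `A` -/
theorem split_bc (hdim : dimension k Y + dimension k B = dimension k Z)
    (hgen : ∀ z : Z, z ∈ IntermediateField.adjoin B (Set.range (algebraMap Y Z)))
    {A : Subalgebra k Y} (hfrac : ∀ f : Y, ∃ g ∈ A, ∃ h ∈ A, h ≠ 0 ∧ f = g / h)
    [UniqueFactorizationMonoid A] {c : Y} (hc : c ∈ A) (hc0 : c ≠ 0) {r r' : Z}
    (hr : r ∈ bc B Z A) (hr' : r' ∈ bc B Z A) (h : r * r' = algebraMap Y Z c) :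
    ∃ g ∈ A, g ≠ 0 ∧ ∃ u ∈ bc B Z A, ∃ u' ∈ bc B Z A, u * u' = 1 ∧ r = u * algebraMap Y Z g := by
  have key : ∀ c : A, c ≠ 0 → ∀ r ∈ bc B Z A, ∀ r' ∈ bc B Z A, r * r' = algebraMap Y Z c →
      ∃ g ∈ A, g ≠ 0 ∧ ∃ u ∈ bc B Z A, ∃ u' ∈ bc B Z A, u * u' = 1 ∧
        r = u * algebraMap Y Z g := by
    intro c
    induction c using UniqueFactorizationMonoid.induction_on_prime with
    | h₁ => exact fun h => absurd rfl h
    | h₂ x hx =>
      intro _ r hr r' hr' h
      obtain ⟨y, hy⟩ := hx.exists_right_inv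
      have h4 : (x : Y) * y = 1 := congrArg Subtype.val hy
      refine ⟨1, A.one_mem, one_ne_zero, r, hr, r' * algebraMap Y Z y,
        Subalgebra.mul_mem _ hr' (Algebra.subset_adjoin ⟨y, y.2, rfl⟩), ?_, ?_⟩
      · rw [← mul_assoc, h, ← map_mul, h4, map_one]
      · rw [map_one, mul_one]
    | h₃ a p ha hp ih =>
      intro _ r hr r' hr' h
      have hP := prime_bc (B := B) (Z := Z) hdim hgen hfrac hp
      have hp0 : algebraMap Y Z p ≠ 0 := by
        rw [Ne, map_eq_zero]
        exact fun h => hp.ne_zero (Subtype.ext h)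
      have h4 : algebraMap Y Z ((p * a : A) : Y) = algebraMap Y Z p * algebraMap Y Z a := by
        rw [← map_mul]
        rfl
      rw [h4] at h
      have hdvd : (⟨algebraMap Y Z p, Algebra.subset_adjoin ⟨p, p.2, rfl⟩⟩ : bc B Z A) ∣
          ⟨r, hr⟩ * ⟨r', hr'⟩ :=
        ⟨⟨algebraMap Y Z a, Algebra.subset_adjoin ⟨a, a.2, rfl⟩⟩, Subtype.ext h⟩
      rcases hP.dvd_or_dvd hdvd with ⟨s, hs⟩ | ⟨s, hs⟩
      · have h5 : r = algebraMap Y Z p * s := congrArg Subtype.val hs
        have h6 : (s : Z) * r' = algebraMap Y Z a := by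
          apply mul_left_cancel₀ hp0
          rw [← mul_assoc, ← h5, h]
        obtain ⟨g, hg, hg0, u, hu, u', hu', huu, e⟩ := ih ha s s.2 r' hr' h6
        refine ⟨p * g, A.mul_mem p.2 hg, mul_ne_zero (fun h => hp.ne_zero (Subtype.ext h)) hg0,
          u, hu, u', hu', huu, ?_⟩
        rw [h5, e, map_mul]
        ring
      · have h5 : r' = algebraMap Y Z p * s := congrArg Subtype.val hs
        have h6 : r * (s : Z) = algebraMap Y Z a := by
          apply mul_left_cancel₀ hp0
          rw [← h, h5]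
          ring
        exact ih ha r hr s s.2 h6
  exact key ⟨c, hc⟩ (fun h0 => hc0 (congrArg Subtype.val h0)) r hr r' hr' h

end gauss

end Pf72953.Fac
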