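import Mathlib
import Pool.Agent.Lib.Pf72953z.Defs
import Pool.Agent.Lib.Pf72953b.CenterMin
import Pool.Agent.Lib.Pf72953b.CenterEq

/-!
Prime divisors of a smooth chart.
-/

set_option autoImplicit false
set_option linter.style.haveILetI false

open scoped WithZero
open Pf72953 Pf72953.Mov Pf72953.Up Pf72953.Br

namespace Pf72953.Fac

section basic

variable {B Z : Type*} [Field B] [Field Z] [Algebra B Z] {A : Subalgebra B Z}

theorem exists_one_lt {v : Valuation Z ℤᵐ⁰} (h : ∃ a : Z, a ≠ 0 ∧ v a ≠ 1) : ∃ y : Z, 1 < v y := by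
  obtain ⟨a, ha0, ha⟩ := h
  rcases lt_or_gt_of_ne ha with h1 | h1
  · refine ⟨a⁻¹, ?_⟩
    rw [map_inv₀]
    exact (one_lt_inv₀ (zero_lt_iff.2 ((Valuation.ne_zero_iff v).2 ha0))).2 h1
  · exact ⟨a, h1⟩

/-- Two prime divisors, one containing the other, are equal. -/
theorem PrimeOn.eq_of_le {v v' : Valuation Z ℤᵐ⁰} (h : PrimeOn A v) (h' : PrimeOn A v')
    (hle : ∀ a ∈ A, v a < 1 → v' a < 1) (z : Z) : v z ≤ 1 ↔ v' z ≤ 1 := by
  have key : ∀ z, v' z ≤ 1 → v z ≤ 1 := by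
    intro z hz
    obtain ⟨a, ha, b, hb, hvb, rfl⟩ := h'.loc z hz
    have h1 : v b = 1 := by
      refine le_antisymm (h.le b hb) (not_lt.1 fun h2 => ?_)
      exact absurd (hle b hb h2) (by rw [hvb]; exact lt_irrefl _)
    rw [map_div₀, h1, div_one]
    exact h.le a ha
  refine ⟨fun hz => ?_, key z⟩
  by_contra hcon
  rw [not_le] at hcon
  obtain ⟨y, hy⟩ := exists_one_lt h.nontriv
  obtain ⟨n, hn⟩ := MulArchimedean.arch (v' y) hcon
  have hz0 : v' z ≠ 0 := (zero_lt_one.trans hcon).ne'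
  have hzz : z ≠ 0 := (Valuation.ne_zero_iff v').1 hz0
  have h1 : v' (y / z ^ n) ≤ 1 := by
    rw [map_div₀, map_pow]
    exact div_le_one_of_le₀ hn zero_le
  have h2 := key _ h1
  have h3 : v y ≤ v z ^ n := by
    have h4 : y = y / z ^ n * z ^ n := by rw [div_mul_cancel₀ _ (pow_ne_zero n hzz)]
    calc v y = v (y / z ^ n) * v z ^ n := by rw [← map_pow, ← map_mul, ← h4]
      _ ≤ 1 * v z ^ n := mul_le_mul_left h2 _
      _ = v z ^ n := one_mul _
  exact absurd (hy.trans_le (h3.trans (pow_le_one' hz n))) (lt_irrefl _)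

/-- The centre has height one. -/
theorem PrimeOn.height {v : Valuation Z ℤᵐ⁰} (h : PrimeOn A v) {p : Ideal A} (hp : p.IsPrime)
    (hp0 : p ≠ ⊥) (hle : ∀ a ∈ p, v (a : Z) < 1) (b : A) (hb : v (b : Z) < 1) : b ∈ p := by
  obtain ⟨a, ha, ha0⟩ := Submodule.exists_mem_ne_zero_of_ne_bot hp0
  have ha0' : (a : Z) ≠ 0 := fun h0 => ha0 (Subtype.ext h0)
  rcases eq_or_ne (b : Z) 0 with hb0 | hb0
  · have : b = 0 := Subtype.ext hb0
    rw [this]
    exact p.zero_mem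
  have hvb : 0 < v (b : Z) := zero_lt_iff.2 ((Valuation.ne_zero_iff v).2 hb0)
  have hva : 0 < v (a : Z) := zero_lt_iff.2 ((Valuation.ne_zero_iff v).2 ha0')
  obtain ⟨n, hn⟩ := MulArchimedean.arch (v (a : Z))⁻¹ ((one_lt_inv₀ hvb).2 hb)
  have h1 : v ((b : Z) ^ n / a) ≤ 1 := by
    rw [map_div₀, map_pow]
    refine div_le_one_of_le₀ ?_ zero_le
    rw [inv_pow] at hn
    exact (inv_le_inv₀ hva (pow_pos hvb n)).1 hn
  obtain ⟨r, hr, s, hs, hvs, e⟩ := h.loc _ h1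
  have hs0 : s ≠ 0 := by
    rintro rfl
    rw [map_zero] at hvs
    exact zero_ne_one hvs
  have h2 : (⟨s, hs⟩ : A) * b ^ n = ⟨r, hr⟩ * a := by
    apply Subtype.ext
    change s * (b : Z) ^ n = r * a
    rw [div_eq_div_iff ha0' hs0] at e
    rw [mul_comm, e]
  have h3 : (⟨s, hs⟩ : A) * b ^ n ∈ p := by
    rw [h2]
    exact p.mul_mem_left _ ha
  rcases hp.mem_or_mem h3 with h4 | h4
  · exact absurd (hle _ h4) (by rw [show v ((⟨s, hs⟩ : A) : Z) = 1 from hvs]; exact lt_irrefl _)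
  · exact hp.mem_of_pow_mem n h4

end basic

variable {B Z ι : Type*} [Field B] [CharZero B] [Field Z] [Algebra B Z] [Fintype ι] [DecidableEq ι]
  {x : ι → Z} {hx : IsTranscendenceBasis B x} {A : Subalgebra B Z}

theorem PrimeOn.div (h : Chart hx A) {v : Valuation Z ℤᵐ⁰} (hv : PrimeOn A v) :
    IsDivisorial B Z v ∧ RegBasis B v x :=
  h.isDivisorial hv.le hv.nontriv hv.loc

omit [DecidableEq ι] in
/-- Hartogs' theorem for the localisations of a chart -/
theorem exists_primeOn_loc (h : Chart hx A) (S : Submonoid A) (hS : (0 : A) ∉ S) {f : Z}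
    (hf : ¬ ∃ a ∈ A, ∃ s : A, s ∈ S ∧ f = a / s) :
    ∃ v' : Valuation Z ℤᵐ⁰, PrimeOn A v' ∧ 1 < v' f ∧ ∀ s ∈ S, v' (s : Z) = 1 := by
  haveI := h.isNoetherian
  haveI hfr : IsFractionRing A Z := by
    refine IsFractionRing.of_field A Z fun z => ?_
    obtain ⟨a, ha, b, hb, -, e⟩ := h.frac z
    exact ⟨⟨a, ha⟩, ⟨b, hb⟩, e⟩
  have hS' : S ≤ nonZeroDivisors A := by
    intro s hs
    rw [mem_nonZeroDivisors_iff_ne_zero]
    rintro rfl
    exact hS hs
  have hs0 : ∀ s : A, s ∈ S → (s : Z) ≠ 0 := fun s hs h0 => by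
    have : s = 0 := Subtype.ext h0
    exact hS (this ▸ hs)
  let R := Localization.subalgebra.ofField Z S hS'
  haveI : IsLocalization S R := Localization.subalgebra.isLocalization_ofField Z S hS'
  haveI : IsNoetherianRing R := IsLocalization.isNoetherianRing S R inferInstance
  have hRmem : ∀ z : Z, z ∈ R ↔ ∃ a s : A, s ∈ S ∧ z = a / s := by
    intro z
    constructor
    · rintro ⟨a, s, hs, e⟩
      exact ⟨a, s, hs, by rw [e, div_eq_mul_inv]; rfl⟩
    · rintro ⟨a, s, hs, e⟩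
      exact ⟨a, s, hs, by rw [e, div_eq_mul_inv]; rfl⟩
  let O : Subalgebra B Z := R.restrictScalars B
  haveI : IsNoetherianRing O := (inferInstance : IsNoetherianRing R)
  have hOmem : ∀ z : Z, z ∈ O ↔ ∃ a s : A, s ∈ S ∧ z = a / s := hRmem
  have hAO : ∀ a ∈ A, a ∈ O := fun a ha => (hOmem a).2 ⟨⟨a, ha⟩, 1, S.one_mem, by simp⟩
  have hfrac : ∀ f : Z, ∃ g ∈ O, ∃ h ∈ O, h ≠ 0 ∧ f = g / h := by
    intro z
    obtain ⟨a, ha, b, hb, hb0, e⟩ := h.frac z
    exact ⟨a, hAO a ha, b, hAO b hb, hb0, e⟩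
  have hnorm : ∀ z : Z, IsIntegral O z → z ∈ O := by
    intro z hz
    have hz' : IsIntegral R z := hz
    obtain ⟨m, hm⟩ := IsIntegral.exists_multiple_integral_of_isLocalization S z hz'
    have h1 : ((m : A) : Z) * z ∈ A := by
      have h2 := h.mem_of_isIntegral hm
      rwa [Submonoid.smul_def, Algebra.smul_def] at h2
    refine (hOmem z).2 ⟨⟨_, h1⟩, m, m.2, ?_⟩
    have := hs0 m m.2
    change z = ((m : A) : Z) * z / ((m : A) : Z)
    rw [mul_div_cancel_left₀ _ this]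
  have hfO : f ∉ O := by
    intro h1
    obtain ⟨a, s, hs, e⟩ := (hOmem f).1 h1
    exact hf ⟨a, a.2, s, hs, e⟩
  obtain ⟨v, hvO, hvf, hloc⟩ := exists_dvr O hfrac hnorm hfO
  have hvs : ∀ s ∈ S, v (s : Z) = 1 := by
    intro s hs
    have h1 : v (s : Z) ≤ 1 := hvO _ (hAO _ s.2)
    have h2 : v (s : Z)⁻¹ ≤ 1 := hvO _ ((hOmem _).2 ⟨1, s, hs, by simp⟩)
    refine le_antisymm h1 ?_
    have h3 : v (s : Z) * v (s : Z)⁻¹ = 1 := by
      rw [← map_mul, mul_inv_cancel₀ (hs0 s hs), map_one]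
    calc (1 : ℤᵐ⁰) = v (s : Z) * v (s : Z)⁻¹ := h3.symm
      _ ≤ v (s : Z) * 1 := mul_le_mul_right h2 _
      _ = v (s : Z) := mul_one _
  refine ⟨v, ⟨fun a ha => hvO a (hAO a ha), ⟨f, ?_, hvf.ne'⟩, fun z hz => ?_⟩, hvf, hvs⟩
  · rintro rfl
    rw [map_zero] at hvf
    exact absurd hvf (not_lt.2 zero_le)
  · obtain ⟨a, ha, b, hb, hvb, e⟩ := hloc z hz
    obtain ⟨a1, s, hs, ea⟩ := (hOmem a).1 ha
    obtain ⟨b1, t, ht, eb⟩ := (hOmem b).1 hb
    refine ⟨(a1 * t : A), (a1 * t : A).2, (b1 * s : A), (b1 * s : A).2, ?_, ?_⟩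
    · have h1 : v (b1 : Z) = 1 := by
        have h2 : (b1 : Z) = b * t := by rw [eb, div_mul_cancel₀ _ (hs0 t ht)]
        rw [h2, map_mul, hvb, hvs t ht, one_mul]
      change v ((b1 : Z) * (s : Z)) = 1
      rw [map_mul, h1, hvs s hs, one_mul]
    · change z = ((a1 : Z) * (t : Z)) / ((b1 : Z) * (s : Z))
      rw [e, ea, eb, div_div_div_eq]
      ring_nf

omit [DecidableEq ι] in
/-- Hartogs at the centre of `v` -/
theorem hartogs_loc (h : Chart hx A) (v : Valuation Z ℤᵐ⁰) (_hA : ∀ a ∈ A, v a ≤ 1) {f : Z}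
    (hf : ¬ ∃ a ∈ A, ∃ b ∈ A, v b = 1 ∧ f = a / b) :
    ∃ v' : Valuation Z ℤᵐ⁰, PrimeOn A v' ∧ 1 < v' f ∧ ∀ a ∈ A, v a = 1 → v' a = 1 := by
  let S : Submonoid A :=
    { carrier := {a | v (a : Z) = 1}
      one_mem' := by
        change v ((1 : A) : Z) = 1
        rw [OneMemClass.coe_one, map_one]
      mul_mem' := fun {a b} ha hb => by
        change v ((a : Z) * (b : Z)) = 1
        rw [map_mul, show v (a : Z) = 1 from ha, show v (b : Z) = 1 from hb, one_mul] }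
  have hS : (0 : A) ∉ S := by
    intro h0
    have h1 : v ((0 : A) : Z) = 1 := h0
    rw [ZeroMemClass.coe_zero, map_zero] at h1
    exact zero_ne_one h1
  obtain ⟨v', h1, h2, h3⟩ := exists_primeOn_loc h S hS (f := f) (by
    rintro ⟨a, ha, s, hs, e⟩
    exact hf ⟨a, ha, s, s.2, hs, e⟩)
  exact ⟨v', h1, h2, fun a ha hva => h3 ⟨a, ha⟩ hva⟩

omit [DecidableEq ι] in
/-- Hartogs on the open subset `c ≠ 0`. -/
theorem hartogs_away (h : Chart hx A) {c : Z} (hc : c ∈ A) (hc0 : c ≠ 0) {f : Z}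
    (hf : ∀ v : Valuation Z ℤᵐ⁰, PrimeOn A v → v c = 1 → v f ≤ 1) : ∃ n : ℕ, c ^ n * f ∈ A := by
  let S : Submonoid A := Submonoid.powers (⟨c, hc⟩ : A)
  have hS : (0 : A) ∉ S := by
    rintro ⟨n, hn⟩
    exact pow_ne_zero n (fun h0 => hc0 (congrArg Subtype.val h0) : (⟨c, hc⟩ : A) ≠ 0) hn
  by_contra hcon
  push Not at hcon
  obtain ⟨v', h1, h2, h3⟩ := exists_primeOn_loc h S hS (f := f) (by
    rintro ⟨a, ha, s, ⟨n, rfl⟩, e⟩
    apply hcon n
    have h4 : c ^ n ≠ 0 := pow_ne_zero n hc0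
    have h5 : f = a / c ^ n := e
    rw [h5, mul_div_cancel₀ _ h4]
    exact ha)
  exact absurd (hf v' h1 (h3 _ (Submonoid.mem_powers _))) (not_le.2 h2)

/-- A divisorial valuation which is regular on the coordinates is a prime divisor of the chart. -/
theorem primeOn_of_reg [Algebra.EssFiniteType B Z] (h : Chart hx A) {v : Valuation Z ℤᵐ⁰}
    (hv : IsDivisorial B Z v) (hr : RegBasis B v x) (hA : ∀ a ∈ A, v a ≤ 1) : PrimeOn A v := by
  refine ⟨hA, hv.nontrivial, fun z hz => ?_⟩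
  by_contra hcon
  obtain ⟨v', h1, h2, h3⟩ := hartogs_loc h v hA hcon
  obtain ⟨hd', hr'⟩ := h1.div h
  -- a nonzero element of the centre of `v'`
  obtain ⟨f, hf0, hf⟩ : ∃ f : A, f ≠ 0 ∧ v' (f : Z) < 1 := by
    obtain ⟨y, hy⟩ := exists_one_lt h1.nontriv
    obtain ⟨a, ha, b, hb, hb0, e⟩ := h.frac y
    refine ⟨⟨b, hb⟩, fun h0 => hb0 (congrArg Subtype.val h0), ?_⟩
    rw [e, map_div₀] at hy
    refine lt_of_le_of_ne (h1.le b hb) fun h4 => ?_
    change v' b = 1 at h4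
    rw [h4, div_one] at hy
    exact absurd (h1.le a ha) (not_le.2 hy)
  have hle : ∀ a ∈ A, v' a < 1 → v a < 1 := by
    intro a ha h4
    refine lt_of_le_of_ne (hA a ha) fun h5 => ?_
    rw [h3 a ha h5] at h4
    exact lt_irrefl _ h4
  have hmin := center_minimal h hv hr hA (f := f) hf0 (hle f f.2 hf)
  have hP' : (center A v' h1.le).IsPrime := by
    refine ⟨fun htop => ?_, fun {a b} hab => ?_⟩
    · have h4 : (1 : A) ∈ center A v' h1.le := by rw [htop]; trivial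
      have h5 : v' ((1 : A) : Z) < 1 := h4
      rw [OneMemClass.coe_one, map_one] at h5
      exact lt_irrefl _ h5
    · by_contra hn
      push Not at hn
      have h4 : v' (a : Z) = 1 := le_antisymm (h1.le _ a.2) (not_lt.1 hn.1)
      have h5 : v' (b : Z) = 1 := le_antisymm (h1.le _ b.2) (not_lt.1 hn.2)
      have h6 : v' ((a : Z) * (b : Z)) < 1 := hab
      rw [map_mul, h4, h5, one_mul] at h6
      exact lt_irrefl _ h6
  have hcc : center A v hA = center A v' h1.le := by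
    refine le_antisymm (hmin.2 ⟨hP', ?_⟩ fun a ha => hle a a.2 ha) fun a ha => hle a a.2 ha
    rw [Ideal.span_le, Set.singleton_subset_iff]
    exact hf
  have h4 := (center_eq h hv hd' hr hr' hA h1.le hcc z).1 hz
  exact absurd h4 (not_le.2 h2)

end Pf72953.Fac
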