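import Mathlib
import Pool.Agent.Lib.Pf72953z.Gauss
import Pool.Agent.Lib.Pf72953z.Prime
import Pool.Agent.Lib.Pf72953k.Prod
import Pool.Agent.Lib.Pf72953f.Coefs
import Pool.Agent.Lib.Pf72953.Extend

/-!
MODULE Pf72953z.Gss: Gauss valuations of a compositum.
-/

set_option autoImplicit false
set_option linter.style.haveILetI false
set_option linter.unusedSectionVars false

open scoped WithZero TensorProduct
open Pf72953 Pf72953.Mov Pf72953.Up

namespace Pf72953.Fac

/-- `w` is the Gauss extension of its restriction to `W`: `w (∑ a_j y_j) ≥ w (a_i)` if the `y_j ∈ Y` are linearly independent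
over `k`. -/
def IsGauss (k Y W : Type*) {L : Type*} [Field k] [Field Y] [Field W] [Field L] [Algebra k Y]
    [Algebra W L] [Algebra Y L] (w : Valuation L ℤᵐ⁰) : Prop :=
  ∀ (n : ℕ) (y : Fin n → Y) (a : Fin n → W), LinearIndependent k y → ∀ i,
    w (algebraMap W L (a i)) ≤ w (∑ j, algebraMap W L (a j) * algebraMap Y L (y j))

section basic

variable {k Y W L : Type*} [Field k] [Field Y] [Field W] [Field L] [Algebra k Y]
  [Algebra W L] [Algebra Y L] {w w' : Valuation L ℤᵐ⁰}

theorem IsGauss.triv (h : IsGauss k Y W w) {y : Y} (hy : y ≠ 0) : w (algebraMap Y L y) = 1 := by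
  have key : ∀ y : Y, y ≠ 0 → 1 ≤ w (algebraMap Y L y) := by
    intro y hy
    have hli : LinearIndependent k (fun _ : Fin 1 => y) := by
      rw [Fintype.linearIndependent_iff]
      intro g hg i
      rw [Fin.sum_univ_one] at hg
      rw [Subsingleton.elim i 0]
      exact (smul_eq_zero.1 hg).resolve_right hy
    have h1 := h 1 (fun _ => y) (fun _ => 1) hli 0
    simpa using h1
  refine le_antisymm ?_ (key y hy)
  have h1 := key y⁻¹ (inv_ne_zero hy)
  rw [map_inv₀, map_inv₀] at h1
  exact (one_le_inv₀ (zero_lt_iff.2 ((Valuation.ne_zero_iff w).2 (by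
    rw [Ne, map_eq_zero]
    exact hy)))).1 h1

theorem IsGauss.le_one (h : IsGauss k Y W w) (y : Y) : w (algebraMap Y L y) ≤ 1 := by
  rcases eq_or_ne y 0 with rfl | hy
  · rw [map_zero, map_zero]
    exact zero_le_one
  · exact (h.triv hy).le

theorem IsGauss.sum_le (h : IsGauss k Y W w) {ι : Type*} (s : Finset ι) (y : ι → Y) (a : ι → W)
    {c : ℤᵐ⁰} (hc : ∀ j ∈ s, w (algebraMap W L (a j)) ≤ c) :
    w (∑ j ∈ s, algebraMap W L (a j) * algebraMap Y L (y j)) ≤ c := by
  refine Valuation.map_sum_le w fun j hj => ?_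
  rw [map_mul]
  exact (mul_le_of_le_one_right' (h.le_one _)).trans (hc j hj)

theorem IsGauss.of_equiv (h : IsGauss k Y W w) (he : ∀ z, w z ≤ 1 ↔ w' z ≤ 1) :
    IsGauss k Y W w' := by
  have h1 : w.IsEquiv w' := Valuation.isEquiv_iff_val_le_one.2 (fun {z} => he z)
  intro n y a hy i
  exact (h1 _ _).1 (h n y a hy i)

/-- the maximum is attained -/
theorem IsGauss.exists_eq (h : IsGauss k Y W w) {n : ℕ} {y : Fin n → Y} (hy : LinearIndependent k y)
    {a : Fin n → W} (h0 : ∑ j, algebraMap W L (a j) * algebraMap Y L (y j) ≠ 0) :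
    ∃ i, a i ≠ 0 ∧ w (∑ j, algebraMap W L (a j) * algebraMap Y L (y j)) =
      w (algebraMap W L (a i)) := by
  classical
  have hne : (Finset.univ : Finset (Fin n)).Nonempty := by
    rw [Finset.univ_nonempty_iff]
    by_contra hcon
    rw [not_nonempty_iff] at hcon
    exact h0 (by rw [Finset.univ_eq_empty, Finset.sum_empty])
  obtain ⟨i, -, hi⟩ := Finset.exists_max_image Finset.univ (fun j => w (algebraMap W L (a j))) hne
  have h1 : w (∑ j, algebraMap W L (a j) * algebraMap Y L (y j)) = w (algebraMap W L (a i)) :=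
    le_antisymm (h.sum_le _ y a fun j _ => hi j (Finset.mem_univ j)) (h n y a hy i)
  refine ⟨i, fun h2 => ?_, h1⟩
  rw [h2, map_zero, map_zero, map_eq_zero] at h1
  exact h0 h1

end basic

section restrict

variable {k Y W Z Q : Type*} [Field k] [Field Y] [Field W] [Field Z] [Field Q] [Algebra k Y]
  [Algebra W Z] [Algebra Y Z] [Algebra W Q] [Algebra Y Q] [Algebra Z Q] [IsScalarTower W Z Q]
  [IsScalarTower Y Z Q] {w : Valuation Q ℤᵐ⁰}

theorem isGauss_comap : IsGauss k Y W (w.comap (algebraMap Z Q)) ↔ IsGauss k Y W w := by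
  have h1 : ∀ (n : ℕ) (y : Fin n → Y) (a : Fin n → W),
      (w.comap (algebraMap Z Q)) (∑ j, algebraMap W Z (a j) * algebraMap Y Z (y j)) =
        w (∑ j, algebraMap W Q (a j) * algebraMap Y Q (y j)) := by
    intro n y a
    rw [Valuation.comap_apply, map_sum]
    congr 1
    refine Finset.sum_congr rfl fun j _ => ?_
    rw [map_mul, ← IsScalarTower.algebraMap_apply, ← IsScalarTower.algebraMap_apply]
  constructor
  · intro h n y a hy i
    have h2 := h n y a hy i
    rw [h1, Valuation.comap_apply, ← IsScalarTower.algebraMap_apply] at h2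
    exact h2
  · intro h n y a hy i
    rw [h1, Valuation.comap_apply, ← IsScalarTower.algebraMap_apply]
    exact h n y a hy i

end restrict

section sum

variable {k Y W Z : Type*} [Field k] [Field Y] [Field W] [Field Z] [Algebra k Y] [Algebra k W]
  [Algebra k Z] [Algebra W Z] [Algebra Y Z] [IsScalarTower k W Z] [IsScalarTower k Y Z]

/-- the elements of the coordinate ring of a product -/
theorem pA_sum {A : Subalgebra k Y} {A' : Subalgebra k W} {f : Z} (hf : f ∈ PF.pA Z A A') :
    ∃ (n : ℕ) (y : Fin n → Y) (a : Fin n → W), LinearIndependent k y ∧ (∀ j, y j ∈ A) ∧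
      (∀ j, a j ∈ A') ∧ f = ∑ j, algebraMap W Z (a j) * algebraMap Y Z (y j) := by
  classical
  let φ : A' →ₐ[k] Z := (IsScalarTower.toAlgHom k W Z).comp A'.val
  let ψ : A →ₐ[k] Z := (IsScalarTower.toAlgHom k Y Z).comp A.val
  have h1 : PF.pA Z A A' ≤ (Algebra.TensorProduct.productMap φ ψ).range := by
    rw [Algebra.TensorProduct.productMap_range]
    refine Algebra.adjoin_le ?_
    rintro _ (⟨y, hy, rfl⟩ | ⟨a, ha, rfl⟩)
    · exact (le_sup_right : ψ.range ≤ _) ⟨⟨y, hy⟩, rfl⟩
    · exact (le_sup_left : φ.range ≤ _) ⟨⟨a, ha⟩, rfl⟩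
  obtain ⟨t, ht⟩ := h1 hf
  let b := Module.Basis.ofVectorSpace k A
  obtain ⟨p, rfl⟩ := TensorProduct.eq_repr_basis_right b t
  obtain ⟨n, hn⟩ : ∃ n, n = p.support.card := ⟨_, rfl⟩
  let e : Fin n ≃ p.support := (finCongr hn).trans p.support.equivFin.symm
  refine ⟨n, fun j => (b (e j) : Y), fun j => (p (e j) : W), ?_, fun j => (b (e j)).2,
    fun j => (p (e j)).2, ?_⟩
  · have h2 : LinearIndependent k (fun a : Fin n => b (e a)) :=
      b.linearIndependent.comp _ (Subtype.val_injective.comp e.injective)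
    exact h2.map' A.val.toLinearMap (LinearMap.ker_eq_bot.2 Subtype.val_injective)
  · rw [← ht, Finsupp.sum]
    change (Algebra.TensorProduct.productMap φ ψ) _ = _
    rw [map_sum, ← Finset.sum_coe_sort p.support, ← e.sum_comp]
    refine Finset.sum_congr rfl fun j _ => ?_
    rw [Algebra.TensorProduct.productMap_apply_tmul]
    rfl

/-- the elements of the compositum -/
theorem comp_frac (hcomp : Twr.IsCompositum k W Y Z) (z : Z) :
    ∃ (n m : ℕ) (y : Fin n → Y) (a : Fin n → W) (y' : Fin m → Y) (a' : Fin m → W),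
      LinearIndependent k y ∧ LinearIndependent k y' ∧
      ∑ j, algebraMap W Z (a' j) * algebraMap Y Z (y' j) ≠ 0 ∧
      z = (∑ j, algebraMap W Z (a j) * algebraMap Y Z (y j)) /
        ∑ j, algebraMap W Z (a' j) * algebraMap Y Z (y' j) := by
  obtain ⟨g, hg, h, hh, h0, e⟩ := PF.pA_frac (A := (⊤ : Subalgebra k Y)) (A' := (⊤ : Subalgebra k W))
    (fun f => ⟨f, Algebra.mem_top, 1, Algebra.mem_top, one_ne_zero, (div_one f).symm⟩)
    (fun f => ⟨f, Algebra.mem_top, 1, Algebra.mem_top, one_ne_zero, (div_one f).symm⟩) hcomp z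
  obtain ⟨n, y, a, hy, -, -, eg⟩ := pA_sum hg
  obtain ⟨m, y', a', hy', -, -, eh⟩ := pA_sum hh
  exact ⟨n, m, y, a, y', a', hy, hy', eh ▸ h0, by rw [e, eg, eh]⟩

/-- a Gauss valuation of the compositum is determined by its restriction to `W` -/
theorem IsGauss.unique (hcomp : Twr.IsCompositum k W Y Z) {w w' : Valuation Z ℤᵐ⁰}
    (h : IsGauss k Y W w) (h' : IsGauss k Y W w')
    (he : ∀ a : W, w (algebraMap W Z a) ≤ 1 ↔ w' (algebraMap W Z a) ≤ 1) (z : Z) :
    w z ≤ 1 ↔ w' z ≤ 1 := by
  have heq : (w.comap (algebraMap W Z)).IsEquiv (w'.comap (algebraMap W Z)) :=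
    Valuation.isEquiv_iff_val_le_one.2 (fun {z} => he z)
  obtain ⟨n, m, y, a, y', a', hy, hy', h0, rfl⟩ := comp_frac hcomp z
  have key : ∀ {w : Valuation Z ℤᵐ⁰}, IsGauss k Y W w →
      (w ((∑ j, algebraMap W Z (a j) * algebraMap Y Z (y j)) /
        ∑ j, algebraMap W Z (a' j) * algebraMap Y Z (y' j)) ≤ 1 ↔
      ∀ i, ∃ j, w (algebraMap W Z (a i)) ≤ w (algebraMap W Z (a' j))) := by
    intro w h
    rw [map_div₀, div_le_one₀ (zero_lt_iff.2 ((Valuation.ne_zero_iff w).2 h0))]
    obtain ⟨j, -, hj⟩ := h.exists_eq hy' h0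
    constructor
    · intro h1 i
      exact ⟨j, (h n y a hy i).trans (h1.trans_eq hj)⟩
    · intro h1
      refine h.sum_le _ y a fun i _ => ?_
      obtain ⟨j', hj'⟩ := h1 i
      exact hj'.trans (h m y' a' hy' j')
  rw [key h, key h']
  exact forall_congr' fun i => exists_congr fun j => heq _ _

end sum

section exists_gauss

variable {k Y W Z Q : Type*} [Field k] [CharZero k] [IsAlgClosed k] [Field W] [CharZero W]
  [Field Y] [CharZero Y] [Field Z] [Field Q]
  [Algebra k W] [Algebra k Y] [Algebra k Z] [Algebra W Z] [Algebra Y Z] [IsScalarTower k W Z]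
  [IsScalarTower k Y Z] [Algebra.EssFiniteType k W] [Algebra.EssFiniteType k Y]
  [Algebra.EssFiniteType k Z]

theorem gen_right (hcomp : Twr.IsCompositum k W Y Z) (z : Z) :
    z ∈ IntermediateField.adjoin Y (Set.range (algebraMap W Z)) := by
  let T : IntermediateField k Z :=
    { (IntermediateField.adjoin Y (Set.range (algebraMap W Z))).toSubfield with
      algebraMap_mem' := fun c => by
        have h1 := (IntermediateField.adjoin Y (Set.range (algebraMap W Z))).algebraMap_mem
          (algebraMap k Y c)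
        rw [← IsScalarTower.algebraMap_apply k Y Z] at h1
        exact h1 }
  have h1 : IntermediateField.adjoin k
      (Set.range (algebraMap W Z) ∪ Set.range (algebraMap Y Z)) ≤ T := by
    rw [IntermediateField.adjoin_le_iff]
    rintro _ (⟨y, rfl⟩ | ⟨y, rfl⟩)
    · exact IntermediateField.subset_adjoin Y _ ⟨y, rfl⟩
    · exact (IntermediateField.adjoin Y (Set.range (algebraMap W Z))).algebraMap_mem y
  exact h1 (hcomp z)

/-- the Gauss extension to the compositum -/
theorem exists_isGauss (hcomp : Twr.IsCompositum k W Y Z)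
    (hdim : dimension k W + dimension k Y = dimension k Z) {u : Valuation W ℤᵐ⁰}
    (hu : ∀ c : k, c ≠ 0 → u (algebraMap k W c) = 1) :
    ∃ w : Valuation Z ℤᵐ⁰, IsGauss k Y W w ∧ ∀ a, w (algebraMap W Z a) = u a := by
  obtain ⟨w, h1, h2, h3⟩ := exists_gaussB (B := Y) (Y := W) (Z := Z) hdim (gen_right hcomp) hu
  refine ⟨w, fun n y a hy i => ?_, h1⟩
  rw [h1]
  exact h3 n y hy a i

/-- the Gauss extension of a divisorial valuation is divisorial, and a regular basis of `W` and a transcendence basis of `Y`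
are a regular basis of `Z` -/
theorem exists_gauss_reg (hcomp : Twr.IsCompositum k W Y Z)
    (hdim : dimension k W + dimension k Y = dimension k Z) {u : Valuation W ℤᵐ⁰}
    (hu : IsDivisorial k W u) :
    ∃ (w : Valuation Z ℤᵐ⁰) (c : Fin (dimension k W) → W), IsGauss k Y W w ∧
      (∀ a, w (algebraMap W Z a) = u a) ∧ IsDivisorial k Z w ∧ RegBasis k u c ∧
      ∀ {κ : Type} [Fintype κ] [DecidableEq κ] {s : κ → Y}, IsTranscendenceBasis k s →
        RegBasis k w (Sum.elim (fun i => algebraMap W Z (c i)) (fun j => algebraMap Y Z (s j))) := by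
  classical
  have hcard : Fintype.card (Fin (dimension k W)) = dimension k W := Fintype.card_fin _
  obtain ⟨c₁, t, ht, hc₁⟩ := hu.exists_adapted (ι := Fin (dimension k W)) hcard
  have hc₁r : RegBasis k u c₁ := hc₁.regBasis hcard ht
  obtain ⟨w, h1, h2, h3⟩ := exists_gaussB (B := Y) (Y := W) (Z := Z) hdim (gen_right hcomp) hu.const
  have hG : IsGauss k Y W w := fun n y a hy i => by
    rw [h1]
    exact h3 n y hy a i
  have hwval : ∀ z : Z, ∃ a : W, w z = u a := by
    intro z
    obtain ⟨n, m, y, a, y', a', hy, hy', h0, rfl⟩ := comp_frac hcomp z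
    obtain ⟨j, hj0, hj⟩ := hG.exists_eq hy' h0
    rcases eq_or_ne (∑ j, algebraMap W Z (a j) * algebraMap Y Z (y j)) 0 with h4 | h4
    · exact ⟨0, by rw [h4, zero_div, map_zero, map_zero]⟩
    · obtain ⟨i, -, hi⟩ := hG.exists_eq hy h4
      refine ⟨a i / a' j, ?_⟩
      rw [map_div₀, hi, hj, h1, h1, map_div₀]
  have hunif : IsUnif w (algebraMap W Z t) := by
    refine ⟨by simpa using ht.ne_zero, by rw [h1]; exact ht.lt_one, fun a ha => ?_⟩
    obtain ⟨b, hb⟩ := hwval a
    rw [hb] at ha ⊢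
    rw [h1]
    exact ht.le b ha
  obtain ⟨r, e', x, hx, ht0, ht1, hcx⟩ := hc₁
  have hr : Fintype.card (Fin (dimension k W)) = r + 1 := by
    rw [Fintype.card_congr e', Fintype.card_option, Fintype.card_fin]
  have hadapt : ∀ {κ : Type} [Fintype κ] [DecidableEq κ] {s : κ → Y}, IsTranscendenceBasis k s →
      IsDivisorial k Z w ∧
        RegBasis k w (Sum.elim (fun i => algebraMap W Z (c₁ i)) (fun j => algebraMap Y Z (s j))) := by
    intro κ _ _ s hs
    have hres := Fib.CoefsAux.resIndep_sum hs h1 h2 h3 hx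
    have hcardL : Fintype.card (Fin (dimension k W) ⊕ κ) = dimension k Z := by
      rw [Fintype.card_sum, hcard, card_eq_of_isTranscendenceBasis hs, hdim]
    have hcard2 : Fintype.card (Fin r ⊕ κ) = dimension k Z - 1 := by
      rw [← hcardL, Fintype.card_sum, Fintype.card_sum, hr, Fintype.card_fin]
      omega
    have hadapt : Adapted k w (Sum.elim (fun i => algebraMap W Z (c₁ i))
        (fun j => algebraMap Y Z (s j))) (algebraMap W Z t) := by
      let f : Fin r ⊕ κ ≃ Fin (dimension k Z - 1) := Fintype.equivFinOfCardEq hcard2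
      let E1 : Fin (dimension k W) ⊕ κ ≃ Option (Fin r ⊕ κ) :=
        (Equiv.sumCongr e' (Equiv.refl κ)).trans (Fib.CoefsAux.optSum (Fin r) κ)
      refine ⟨dimension k Z - 1, E1.trans (Equiv.optionCongr f),
        (Sum.elim (fun i => algebraMap W Z (x i)) (fun j => algebraMap Y Z (s j))) ∘ f.symm,
        Fib.CoefsAux.resIndep_reindex hres f.symm, by simpa using ht0, by rw [h1]; exact ht1, ?_⟩
      funext i
      rcases i with i | j
      · have h5 : c₁ i = (fun o : Option (Fin r) => o.elim t x) (e' i) := by rw [hcx]; rfl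
        simp only [Sum.elim_inl, Function.comp_apply, E1, Equiv.trans_apply, Equiv.sumCongr_apply,
          Sum.map_inl]
        rw [h5]
        cases h6 : e' i with
        | none => simp [Fib.CoefsAux.optSum]
        | some k => simp [Fib.CoefsAux.optSum]
      · simp [E1, Fib.CoefsAux.optSum]
    refine ⟨⟨fun b hb => ?_, ⟨algebraMap W Z t, hunif.ne_zero, hunif.lt_one.ne⟩, ?_⟩,
      hadapt.regBasis hcardL hunif⟩
    · rw [IsScalarTower.algebraMap_apply k W Z, h1]
      exact hu.const b hb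
    · let f : Fin r ⊕ κ ≃ Fin (dimension k Z - 1) := Fintype.equivFinOfCardEq hcard2
      exact ⟨_, Fib.CoefsAux.resIndep_reindex hres f.symm⟩
  obtain ⟨s, hs⟩ := exists_tb k Y
  exact ⟨w, c₁, hG, h1, (hadapt hs).1, hc₁r, fun hs => (hadapt hs).2⟩

/-- the Gauss extension to a finite extension of the compositum -/
theorem exists_isGauss_ext [CharZero Z] [Algebra Z Q] [Algebra W Q] [Algebra Y Q]
    [IsScalarTower W Z Q] [IsScalarTower Y Z Q] [FiniteDimensional Z Q]
    {w : Valuation Z ℤᵐ⁰} (hw : IsGauss k Y W w) (hnt : ∃ a : Z, a ≠ 0 ∧ w a ≠ 1) :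
    ∃ w' : Valuation Q ℤᵐ⁰, IsGauss k Y W w' ∧ ∀ a : Z, w' (algebraMap Z Q a) ≤ 1 ↔ w a ≤ 1 := by
  obtain ⟨w', hw'⟩ := exists_extension (L := Q) w hnt
  refine ⟨w', isGauss_comap.1 (hw.of_equiv fun z => ?_), hw'⟩
  rw [Valuation.comap_apply]
  exact (hw' z).symm

end exists_gauss

end Pf72953.Fac
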