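import Mathlib
import Pool.Agent.Lib.Pf72953z.Gss
import Pool.Agent.Lib.Pf72953m.Est

/-!
MODULE Pf72953z.GssV: a valuation of relative volume one is a Gauss valuation.
-/

set_option autoImplicit false
set_option linter.style.haveILetI false
set_option linter.unusedSectionVars false

open scoped WithZero
open Pf72953 Pf72953.Mov Pf72953.Up

namespace Pf72953.Fac

variable {k B Y L ιB : Type*} [Field k] [CharZero k] [IsAlgClosed k] [Field B] [Field Y] [Field L]
  [Algebra k B] [Algebra k Y] [Algebra k L] [Algebra B L] [Algebra Y L] [IsScalarTower k B L]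
  [IsScalarTower k Y L] [Fintype ιB] [DecidableEq ιB] {M : SmoothModel k Y}

/-- finitely many elements have a common denominator on a chart -/
theorem exists_common_den (M : SmoothModel k Y) (i : M.I) {n : ℕ} (y : Fin n → Y) :
    ∃ h ∈ M.A i, h ≠ 0 ∧ ∀ j, h * y j ∈ M.A i := by
  classical
  choose g hg h hh h0 e using fun j => M.frac i (y j)
  refine ⟨∏ j, h j, Subalgebra.prod_mem _ fun j _ => hh j,
    Finset.prod_ne_zero_iff.2 fun j _ => h0 j, fun j => ?_⟩
  rw [← Finset.prod_erase_mul _ _ (Finset.mem_univ j), mul_assoc]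
  refine (M.A i).mul_mem (Subalgebra.prod_mem _ fun j _ => hh j) ?_
  have h1 : h j * y j = g j := by
    conv_lhs => rw [e j]
    rw [mul_div_cancel₀ _ (h0 j)]
  rw [h1]
  exact hg j

/-- the lower bound for the elements of `Y` regular on the chart -/
theorem star_local {i : M.I} {cB : ιB → B} (hcB : IsTranscendenceBasis k cB)
    (hz : IsTranscendenceBasis k (zfam (L := L) M i cB)) {w : Valuation L ℤᵐ⁰}
    (hA : ∀ f ∈ M.A i, w (algebraMap Y L f) ≤ 1) {c : ιB ⊕ Fin (dimension k Y) → L}
    (hc : LogBasis k w c) (hrel : relvol M i cB hc = 1) {r : ℕ} {σ : Fin (r + 1) → Y}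
    (hσ : ∀ l, σ l ∈ M.A i) (hli : LinearIndependent k σ) {a : Fin (r + 1) → B} {l₀ : Fin (r + 1)}
    (hl₀ : a l₀ ≠ 0) :
    w (algebraMap B L (a l₀)) ≤ w (∑ l, algebraMap B L (a l) * algebraMap Y L (σ l)) := by
  classical
  haveI : CharZero B := charZero_of_injective_algebraMap (algebraMap k B).injective
  obtain ⟨C, s, g, hs, hg, h1⟩ := exists_mult_bound (hx := M.tb i) (M.fg i) (M.mem i) (M.pd_mem i)
    hσ hli
  have ha0 : algebraMap B L (a l₀) ≠ 0 := by
    rw [Ne, map_eq_zero]
    exact hl₀
  have hkill : ∀ b (β : B), pd hz (Sum.inr b) (algebraMap B L β) = 0 := fun b β =>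
    pd_algebraMap_of_notMem hcB hz Sum.inl (fun _ => rfl) (Sum.inr b) (fun _ h => by cases h) β
  have hstar := star (M.tb i) (M.pd_mem i) hσ hs hg h1 hA
    (fun b => pd hz (Sum.inr b))
    (fun b f => pd_algebraMap (M.tb i) hz Sum.inr Sum.inr_injective (fun _ => rfl) b f)
    (relvol_le_one hcB hA hc) (fun b z => rel_cost hcB hz hA hc b z)
    (a' := fun l => algebraMap B L (a l / a l₀)) (fun b l => hkill b _)
    (l₀ := l₀) (by rw [div_self hl₀, map_one, map_one])
  rw [hrel, one_pow] at hstar
  have h2 : ∑ l, algebraMap B L (a l) * algebraMap Y L (σ l) =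
      algebraMap B L (a l₀) * ∑ l, algebraMap B L (a l / a l₀) * algebraMap Y L (σ l) := by
    rw [Finset.mul_sum]
    refine Finset.sum_congr rfl fun l _ => ?_
    rw [map_div₀]
    field_simp
  rw [h2, map_mul]
  exact le_mul_of_one_le_right' hstar

/-- a valuation of relative volume one is a Gauss valuation -/
theorem isGauss_of_relvol {i : M.I} {cB : ιB → B} (hcB : IsTranscendenceBasis k cB)
    (hz : IsTranscendenceBasis k (zfam (L := L) M i cB)) {w : Valuation L ℤᵐ⁰}
    (hA : ∀ f ∈ M.A i, w (algebraMap Y L f) ≤ 1) {c : ιB ⊕ Fin (dimension k Y) → L}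
    (hc : LogBasis k w c) (hrel : relvol M i cB hc = 1) : IsGauss k Y B w := by
  classical
  have hone : ∀ f ∈ M.A i, f ≠ 0 → w (algebraMap Y L f) = 1 := by
    intro f hf hf0
    refine le_antisymm (hA f hf) ?_
    have hli : LinearIndependent k (fun _ : Fin (0 + 1) => f) := by
      rw [Fintype.linearIndependent_iff]
      intro g hg j
      rw [Fin.sum_univ_one] at hg
      obtain rfl : j = 0 := Fin.ext (by omega)
      exact (smul_eq_zero.1 hg).resolve_right hf0
    have h1 := star_local hcB hz hA hc hrel (fun _ => hf) hli (a := fun _ => (1 : B)) (l₀ := 0)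
      one_ne_zero
    simpa using h1
  intro n y a hy l₀
  rcases eq_or_ne (a l₀) 0 with h0 | h0
  · rw [h0, map_zero, map_zero]
    exact zero_le
  obtain ⟨h, hh, hh0, hy'⟩ := exists_common_den M i y
  obtain ⟨r, rfl⟩ : ∃ r, n = r + 1 := ⟨n - 1, by have := l₀.2; omega⟩
  have hli : LinearIndependent k (fun j => h * y j) := by
    have h1 := hy.map' (LinearMap.mulLeft k h) (LinearMap.ker_eq_bot.2 (mul_right_injective₀ hh0))
    exact h1
  have h1 := star_local hcB hz hA hc hrel hy' hli (a := a) (l₀ := l₀) h0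
  have h2 : ∑ l, algebraMap B L (a l) * algebraMap Y L (h * y l) =
      algebraMap Y L h * ∑ l, algebraMap B L (a l) * algebraMap Y L (y l) := by
    rw [Finset.mul_sum]
    refine Finset.sum_congr rfl fun l _ => ?_
    rw [map_mul]
    ring
  rw [h2, map_mul, hone h hh hh0, one_mul] at h1
  exact h1

end Pf72953.Fac
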