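import Mathlib
import Pool.Agent.Lib.Pf72953z.DefsO
import Pool.Agent.Lib.Pf72953z.GssV
import Pool.Agent.Lib.Pf72953f.ExChart
import Pool.Agent.Lib.Pf72953r.SubFG

/-!
MODULE Pf72953z.RGa: Gauss valuations of a finite extension of a compositum.
-/

set_option autoImplicit false
set_option linter.style.haveILetI false
set_option linter.unusedSectionVars false

open scoped WithZero
open Pf72953 Pf72953.Mov Pf72953.Up Pf72953.Fac

namespace Pf72953.Osp

section triv

variable {k L ι : Type*} [Field k] [Field L] [Algebra k L]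

/-- a valuation is trivial if a transcendence basis is residually independent -/
theorem triv_of_tb {w : Valuation L ℤᵐ⁰} {x : ι → L} (hx : IsTranscendenceBasis k x)
    (h : ResIndep k w x) {z : L} (hz : z ≠ 0) : w z = 1 := by
  classical
  let F := IntermediateField.adjoin k (Set.range x)
  have hF : ∀ f : F, f ≠ 0 → w (algebraMap F L f) = 1 := by
    rintro ⟨f, hf⟩ hf0
    obtain ⟨p, q, e⟩ := (IntermediateField.mem_adjoin_range_iff k x f).1 hf
    have hf0' : f ≠ 0 := fun h0 => hf0 (Subtype.ext h0)
    change w f = 1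
    have hp : p ≠ 0 := by
      rintro rfl
      apply hf0'
      rw [e, map_zero, zero_div]
    have hq : q ≠ 0 := by
      rintro rfl
      apply hf0'
      rw [e, map_zero, div_zero]
    rw [e, map_div₀, h p hp, h q hq, div_one]
  have halg : IsAlgebraic F z := by
    haveI := hx.isAlgebraic_field
    exact Algebra.IsAlgebraic.isAlgebraic z
  exact val_eq_one_of_isIntegral hF hz halg.isIntegral

end triv

section log

variable {k B F L ιB κ : Type*} [Field k] [CharZero k] [IsAlgClosed k] [Field B] [Field F] [Field L]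
  [Algebra k B] [Algebra k F] [Algebra k L] [Algebra B L] [Algebra F L] [IsScalarTower k B L]
  [IsScalarTower k F L] [Fintype ιB] [DecidableEq ιB] [Fintype κ] [DecidableEq κ]

/-- a valuation which is trivial on `F`, and which has a logarithmic basis of elements of `B` and of `F`, is Gauss over `B` -/
theorem isGauss_of_log [Algebra.EssFiniteType k F] {x : κ → F} (hx : IsTranscendenceBasis k x)
    {cB : ιB → B} (hcB : IsTranscendenceBasis k cB) {w : Valuation L ℤᵐ⁰}
    (hlog : LogBasis k w
      (Sum.elim (fun i => algebraMap B L (cB i)) (fun j => algebraMap F L (x j))))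
    (hF : ∀ f : F, f ≠ 0 → w (algebraMap F L f) = 1) : IsGauss k F B w := by
  classical
  obtain ⟨A, hA⟩ := Fib.exists_chart hx
  have hA1 : ∀ f ∈ A, w (algebraMap F L f) ≤ 1 := by
    intro f _
    rcases eq_or_ne f 0 with rfl | hf
    · rw [map_zero, map_zero]
      exact zero_le_one
    · exact (hF f hf).le
  have hkill : ∀ b (β : B), pd hlog.tb (Sum.inr b) (algebraMap B L β) = 0 := fun b β =>
    pd_algebraMap_of_notMem hcB hlog.tb Sum.inl (fun _ => rfl) (Sum.inr b)
      (fun _ h => by cases h) β
  have hcost : ∀ a z, w (pd hlog.tb (Sum.inr a) z) ≤ w z := by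
    intro a z
    have h1 := hlog.der (Sum.inr a) z
    rw [map_mul] at h1
    change w (algebraMap F L (x a)) * _ ≤ _ at h1
    rw [hF _ (hx.1.ne_zero a), one_mul] at h1
    exact h1
  intro n y a hy l₀
  rcases eq_or_ne (a l₀) 0 with h0 | h0
  · rw [h0, map_zero, map_zero]
    exact zero_le
  obtain ⟨h, hh, hh0, hy'⟩ : ∃ h ∈ A, h ≠ 0 ∧ ∀ j, h * y j ∈ A := by
    choose g hg h hh h0 e using fun j => hA.frac (y j)
    refine ⟨∏ j, h j, Subalgebra.prod_mem _ fun j _ => hh j,
      Finset.prod_ne_zero_iff.2 fun j _ => h0 j, fun j => ?_⟩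
    rw [← Finset.prod_erase_mul _ _ (Finset.mem_univ j), mul_assoc]
    refine A.mul_mem (Subalgebra.prod_mem _ fun j _ => hh j) ?_
    have h1 : h j * y j = g j := by
      conv_lhs => rw [e j]
      rw [mul_div_cancel₀ _ (h0 j)]
    rw [h1]
    exact hg j
  obtain ⟨r, rfl⟩ : ∃ r, n = r + 1 := ⟨n - 1, by have := l₀.2; omega⟩
  have hli : LinearIndependent k (fun j => h * y j) := by
    have h1 := hy.map' (LinearMap.mulLeft k h) (LinearMap.ker_eq_bot.2 (mul_right_injective₀ hh0))
    exact h1
  obtain ⟨C, s, g, hs, hg, h1⟩ := exists_mult_bound (hx := hx) hA.fg hA.mem hA.der hy' hli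
  have hstar := star hx hA.der hy' hs hg h1 hA1
    (fun b => pd hlog.tb (Sum.inr b))
    (fun b f => pd_algebraMap hx hlog.tb Sum.inr Sum.inr_injective (fun _ => rfl) b f)
    (μ := 1) le_rfl (fun b z => by rw [mul_one]; exact hcost b z)
    (a' := fun l => algebraMap B L (a l / a l₀)) (fun b l => hkill b _)
    (l₀ := l₀) (by rw [div_self h0, map_one, map_one])
  rw [one_pow] at hstar
  have ha0 : algebraMap B L (a l₀) ≠ 0 := by
    rw [Ne, map_eq_zero]
    exact h0
  have h2 : ∑ l, algebraMap B L (a l) * algebraMap F L (y l) * algebraMap F L h =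
      algebraMap B L (a l₀) *
        ∑ l, algebraMap B L (a l / a l₀) * algebraMap F L (h * y l) := by
    rw [Finset.mul_sum]
    refine Finset.sum_congr rfl fun l _ => ?_
    rw [map_div₀, map_mul]
    field_simp
  have h3 : w (algebraMap B L (a l₀)) ≤
      w (∑ l, algebraMap B L (a l) * algebraMap F L (y l) * algebraMap F L h) := by
    rw [h2, map_mul]
    exact le_mul_of_one_le_right' hstar
  rw [← Finset.sum_mul, map_mul, hF h hh0, mul_one] at h3
  exact h3

omit [CharZero k] [IsAlgClosed k] [Field F] [Algebra k F] [Algebra F L] [IsScalarTower k F L]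
  [IsScalarTower k B L] [Fintype ιB] [DecidableEq ιB] [DecidableEq κ] in
/-- an adapted family of `B` and elements residually independent over it are adapted -/
theorem adapted_sum {w : Valuation L ℤᵐ⁰} {tB : B} {r : ℕ} (e : ιB ≃ Option (Fin r)) {β : Fin r → B}
    {x : κ → L} (hres : ResIndep k w (Sum.elim (fun i => algebraMap B L (β i)) x)) (ht0 : tB ≠ 0)
    (ht1 : w (algebraMap B L tB) < 1) :
    Adapted k w (Sum.elim (fun i => algebraMap B L (((fun o : Option (Fin r) => o.elim tB β) ∘ e) i))
      x) (algebraMap B L tB) := by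
  classical
  let f : Fin r ⊕ κ ≃ Fin (Fintype.card (Fin r ⊕ κ)) := Fintype.equivFin _
  let E1 : ιB ⊕ κ ≃ Option (Fin r ⊕ κ) :=
    (Equiv.sumCongr e (Equiv.refl κ)).trans (Fib.CoefsAux.optSum (Fin r) κ)
  refine ⟨_, E1.trans (Equiv.optionCongr f),
    (Sum.elim (fun i => algebraMap B L (β i)) x) ∘ f.symm,
    Fib.CoefsAux.resIndep_reindex hres f.symm, by simpa using ht0, ht1, ?_⟩
  funext i
  rcases i with i | j
  · simp only [Sum.elim_inl, Function.comp_apply, E1, Equiv.trans_apply, Equiv.sumCongr_apply,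
      Sum.map_inl]
    cases h6 : e i with
    | none => simp [Fib.CoefsAux.optSum]
    | some k => simp [Fib.CoefsAux.optSum]
  · simp [E1, Fib.CoefsAux.optSum]

end log

/-- a Gauss valuation in the sense of `IsGauss` is Gauss -/
theorem _root_.Pf72953.Fac.IsGauss.rg {k B Y R : Type*} [Field k] [CharZero k] [Field B] [Field Y]
    [Field R] [Algebra k B] [Algebra k Y] [Algebra k R] [Algebra B R] [Algebra Y R]
    [IsScalarTower k B R] [IsScalarTower k Y R] {w : Valuation R ℤᵐ⁰} (h : IsGauss k Y B w) :
    RG k Y B w := by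
  intro r β hβ x hx
  exact Fib.CoefsAux.resIndep_sum (v := w.comap (algebraMap B R)) (W := w) (C := B) (E := Y) (L := R)
    hx (fun _ => rfl) (fun e he => h.triv he) (fun n e he c a => h n e c he a) hβ

section OA

variable {k B Y Z Q R : Type*} [Field k] [CharZero k] [IsAlgClosed k] [Field B] [Field Y] [Field Z]
  [Field Q] [Field R] [Algebra k B] [Algebra k Y] [Algebra k Z] [Algebra k Q] [Algebra k R]
  [Algebra B Z] [Algebra B Q] [Algebra B R] [Algebra Y Z] [Algebra Y Q] [Algebra Y R]
  [Algebra Z Q] [Algebra Z R] [IsScalarTower k B Z] [IsScalarTower k B Q] [IsScalarTower k B R]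
  [IsScalarTower k Y Z] [IsScalarTower k Y Q] [IsScalarTower k Y R] [IsScalarTower k Z Q]
  [IsScalarTower k Z R] [IsScalarTower B Z Q] [IsScalarTower B Z R] [IsScalarTower Y Z Q]
  [IsScalarTower Y Z R] [Algebra.EssFiniteType k B] [Algebra.EssFiniteType k Y]
  [Algebra.EssFiniteType k Z] [FiniteDimensional Z Q] [FiniteDimensional Z R]

theorem RG.triv_left {w : Valuation R ℤᵐ⁰} (hw : IsDivisorial k R w) (h : RG k Y B w) {y : Y}
    (hy : y ≠ 0) : w (algebraMap Y R y) = 1 := by
  obtain ⟨x, hx⟩ := exists_tb k Y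
  have h1 : ResIndep k (w.comap (algebraMap B R)) (fun i : Fin 0 => (0 : B)) := by
    intro p hp
    obtain ⟨c, rfl⟩ := MvPolynomial.C_surjective (Fin 0) p
    rw [MvPolynomial.aeval_C, Valuation.comap_apply, ← IsScalarTower.algebraMap_apply k B R]
    refine hw.const c fun h0 => hp ?_
    rw [h0, map_zero]
  have h2 := h 0 _ h1 x hx
  have h3 : ResIndep k (w.comap (algebraMap Y R)) x := by
    intro p hp
    have h4 := h2 (MvPolynomial.rename Sum.inr p)
      ((map_ne_zero_iff _ (MvPolynomial.rename_injective _ Sum.inr_injective)).2 hp)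
    rw [MvPolynomial.aeval_rename, Sum.elim_comp_inr] at h4
    rw [Valuation.comap_apply, ← h4]
    congr 1
    exact (MvPolynomial.aeval_algebraMap_apply R x p).symm
  exact triv_of_tb hx h3 hy

/-- PROOF: `r = 0` and a transcendence basis of `Y`; elements algebraic over `Y` are algebraic over `k(x)`, on which `w` is trivial. -/
theorem RG.triv {w : Valuation R ℤᵐ⁰} (hw : IsDivisorial k R w) (h : RG k Y B w) {z : R}
    (hz : z ≠ 0) (hz' : IsAlgebraic Y z) : w z = 1 :=
  val_eq_one_of_isIntegral (fun _ hy => h.triv_left hw hy) hz hz'.isIntegral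

theorem tb_BY (hcomp : Twr.IsCompositum k B Y Z)
    (hdim : dimension k B + dimension k Y = dimension k Z) {cB : Fin (dimension k B) → B}
    (hcB : IsTranscendenceBasis k cB) {x : Fin (dimension k Y) → Y}
    (hx : IsTranscendenceBasis k x) :
    IsTranscendenceBasis k
      (Sum.elim (fun i => algebraMap B R (cB i)) (fun j => algebraMap Y R (x j))) := by
  have h1 := (PF.tb_sum hcomp hdim hx hcB).comp_equiv (Equiv.sumComm _ _)
  haveI : Algebra.IsAlgebraic Z R := inferInstance
  have h2 := h1.algebraMap_comp (A := R)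
  convert h2 using 1
  funext i
  rcases i with i | i
  · simp [← IsScalarTower.algebraMap_apply B Z R]
  · simp [← IsScalarTower.algebraMap_apply Y Z R]

/-- PROOF: otherwise a transcendence basis of `B` is residually independent, so `w` is trivial on `k(b, x)`, so on `R`. -/
theorem RG.nontriv (hcomp : Twr.IsCompositum k B Y Z)
    (hdim : dimension k B + dimension k Y = dimension k Z) {w : Valuation R ℤᵐ⁰}
    (hw : IsDivisorial k R w) (h : RG k Y B w) : ∃ b : B, b ≠ 0 ∧ w (algebraMap B R b) ≠ 1 := by
  by_contra hcon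
  push Not at hcon
  obtain ⟨x, hx⟩ := exists_tb k Y
  obtain ⟨cB, hcB⟩ := exists_tb k B
  have h1 : ResIndep k (w.comap (algebraMap B R)) cB := by
    intro p hp
    rw [Valuation.comap_apply]
    exact hcon _ fun h0 => hp (hcB.1.eq_zero_of_aeval_eq_zero p h0)
  have h2 := h _ cB h1 x hx
  obtain ⟨a, ha0, ha1⟩ := hw.nontrivial
  exact ha1 (triv_of_tb (tb_BY hcomp hdim hcB hx) h2 ha0)

theorem logBasis_of_one (hcomp : Twr.IsCompositum k B Y Z)
    (hdim : dimension k B + dimension k Y = dimension k Z) {w : Valuation R ℤᵐ⁰} {ι : Type*}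
    [Fintype ι] {β : ι → B} (hι : Fintype.card ι + 1 = dimension k B) {tB : B} (ht0 : tB ≠ 0)
    (ht1 : w (algebraMap B R tB) < 1) {x : Fin (dimension k Y) → R}
    (h : ResIndep k w (Sum.elim (fun i => algebraMap B R (β i)) x)) :
    ∃ cB : Fin (dimension k B) → B, IsTranscendenceBasis k cB ∧ LogBasis k w
      (Sum.elim (fun i => algebraMap B R (cB i)) x) := by
  classical
  haveI : Algebra.EssFiniteType k R := Algebra.EssFiniteType.comp k Z R
  let f : ι ≃ Fin (Fintype.card ι) := Fintype.equivFin ι
  have hh : ResIndep k w (Sum.elim (fun i => algebraMap B R ((β ∘ f.symm) i)) x) := by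
    have h1 := Fib.CoefsAux.resIndep_reindex h (Equiv.sumCongr f.symm (Equiv.refl _))
    convert h1 using 1
    funext i
    rcases i with i | i <;> rfl
  let e : Fin (dimension k B) ≃ Option (Fin (Fintype.card ι)) :=
    Fintype.equivOfCardEq (by rw [Fintype.card_option, Fintype.card_fin, Fintype.card_fin, hι])
  have had := adapted_sum e hh ht0 ht1
  have hcard : Fintype.card (Fin (dimension k B) ⊕ Fin (dimension k Y)) = dimension k R := by
    obtain ⟨x', hx'⟩ := exists_tb k Y
    obtain ⟨c', hc'⟩ := exists_tb k B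
    exact card_eq_of_isTranscendenceBasis (tb_BY (R := R) hcomp hdim hc' hx')
  refine ⟨_, ?_, had.logBasis hcard⟩
  -- the transcendence basis of `B`
  refine isTranscendenceBasis_of_card (Fintype.card_fin _) ?_
  have h2 := had.algebraicIndependent.comp Sum.inl Sum.inl_injective
  have h3 : (Sum.elim (fun i => algebraMap B R
      (((fun o : Option (Fin (Fintype.card ι)) => o.elim tB (β ∘ f.symm)) ∘ e) i)) x) ∘ Sum.inl =
      fun i => algebraMap B R (((fun o : Option (Fin (Fintype.card ι)) =>
        o.elim tB (β ∘ f.symm)) ∘ e) i) := rfl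
  rw [h3] at h2
  exact AlgebraicIndependent.of_comp (IsScalarTower.toAlgHom k B R) h2

/-- one family suffices -/
theorem isGauss_of_one (hcomp : Twr.IsCompositum k B Y Z)
    (hdim : dimension k B + dimension k Y = dimension k Z) {w : Valuation R ℤᵐ⁰}
    (hnt : ∃ b : B, b ≠ 0 ∧ w (algebraMap B R b) ≠ 1) {ι : Type*} [Fintype ι]
    {β : ι → B} (hι : Fintype.card ι + 1 = dimension k B) {F : Type*} [Field F] [Algebra k F]
    [Algebra F R] [IsScalarTower k F R] [Algebra.EssFiniteType k F] {x : Fin (dimension k Y) → F}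
    (hx : IsTranscendenceBasis k x)
    (h : ResIndep k w (Sum.elim (fun i => algebraMap B R (β i)) (fun j => algebraMap F R (x j)))) :
    IsGauss k F B w := by
  classical
  obtain ⟨tB, ht0, ht1⟩ : ∃ tB : B, tB ≠ 0 ∧ w (algebraMap B R tB) < 1 := by
    obtain ⟨b, hb0, hb1⟩ := hnt
    rcases lt_or_gt_of_ne hb1 with h1 | h1
    · exact ⟨b, hb0, h1⟩
    · refine ⟨b⁻¹, inv_ne_zero hb0, ?_⟩
      rw [map_inv₀, map_inv₀]
      exact inv_lt_one_of_one_lt₀ h1
  obtain ⟨cB, hcB, hlog⟩ := logBasis_of_one hcomp hdim hι ht0 ht1 h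
  refine isGauss_of_log hx hcB hlog fun f hf => ?_
  have h3 : ResIndep k (w.comap (algebraMap F R)) x := by
    intro p hp
    have h4 := h (MvPolynomial.rename Sum.inr p)
      ((map_ne_zero_iff _ (MvPolynomial.rename_injective _ Sum.inr_injective)).2 hp)
    rw [MvPolynomial.aeval_rename, Sum.elim_comp_inr] at h4
    rw [Valuation.comap_apply, ← h4]
    congr 1
    exact (MvPolynomial.aeval_algebraMap_apply R x p).symm
  exact triv_of_tb hx h3 hf

/-- one family suffices -/
theorem RG.of_one (hcomp : Twr.IsCompositum k B Y Z)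
    (hdim : dimension k B + dimension k Y = dimension k Z) {w : Valuation R ℤᵐ⁰}
    (hnt : ∃ b : B, b ≠ 0 ∧ w (algebraMap B R b) ≠ 1) {ι : Type*} [Finite ι]
    {β : ι → B} (hι : Nat.card ι + 1 = dimension k B) {x : Fin (dimension k Y) → Y}
    (hx : IsTranscendenceBasis k x)
    (h : ResIndep k w (Sum.elim (fun i => algebraMap B R (β i)) (fun j => algebraMap Y R (x j)))) :
    RG k Y B w := by
  classical
  letI := Fintype.ofFinite ι
  rw [Nat.card_eq_fintype_card] at hι
  exact (isGauss_of_one hcomp hdim hnt hι hx h).rg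

/-- the Gauss property for a field `F` algebraic over `Y` -/
theorem RG.isGauss' (hcomp : Twr.IsCompositum k B Y Z)
    (hdim : dimension k B + dimension k Y = dimension k Z) {w : Valuation R ℤᵐ⁰}
    (hw : IsDivisorial k R w) (h : RG k Y B w) {F : Type*} [Field F] [Algebra k F] [Algebra Y F]
    [Algebra F R] [IsScalarTower k F R] [IsScalarTower k Y F] [IsScalarTower Y F R]
    [Algebra.IsAlgebraic Y F] : IsGauss k F B w := by
  classical
  haveI : Algebra.EssFiniteType k R := Algebra.EssFiniteType.comp k Z R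
  haveI : Algebra.EssFiniteType k F := Red.essFiniteType_sub k F R
  obtain ⟨x, hx⟩ := exists_tb k Y
  have hnt := h.nontriv hcomp hdim hw
  have hu : IsDivisorial k B (w.comap (algebraMap B R)) := hw.restrict hnt
  obtain ⟨cB, tB, htB, hcB⟩ := hu.exists_adapted (ι := Fin (dimension k B)) (Fintype.card_fin _)
  obtain ⟨r, e, β, hβ, ht0, ht1, -⟩ := hcB
  have hr : Fintype.card (Fin r) + 1 = dimension k B := by
    have h1 := Fintype.card_congr e
    rw [Fintype.card_option, Fintype.card_fin] at h1
    exact h1.symm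
  have h2 := h r β hβ x hx
  have hxF : IsTranscendenceBasis k (fun j => algebraMap Y F (x j)) :=
    hx.algebraMap_comp
  refine isGauss_of_one hcomp hdim hnt hr (β := β) hxF ?_
  convert h2 using 1
  funext i
  rcases i with i | i
  · rfl
  · exact (IsScalarTower.algebraMap_apply Y F R _).symm

theorem RG.isGauss (hcomp : Twr.IsCompositum k B Y Z)
    (hdim : dimension k B + dimension k Y = dimension k Z) {w : Valuation R ℤᵐ⁰}
    (hw : IsDivisorial k R w) (h : RG k Y B w) : IsGauss k Y B w :=
  h.isGauss' hcomp hdim hw (F := Y)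

/-- The Gauss formula, also for elements algebraic over `Y`. -/
theorem RG.gauss (hcomp : Twr.IsCompositum k B Y Z)
    (hdim : dimension k B + dimension k Y = dimension k Z) {w : Valuation R ℤᵐ⁰}
    (hw : IsDivisorial k R w) (h : RG k Y B w) {n : ℕ} {y : Fin n → R}
    (hy : ∀ a, IsAlgebraic Y (y a)) (hlin : LinearIndependent k y) (b : Fin n → B) (a : Fin n) :
    w (algebraMap B R (b a)) ≤ w (∑ a, algebraMap B R (b a) * y a) := by
  classical
  let F := algebraicClosure Y R
  haveI : IsScalarTower k F R := IsScalarTower.of_algebraMap_eq fun c => rfl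
  haveI : IsScalarTower k Y F := IsScalarTower.of_algebraMap_eq fun c => by
    apply Subtype.ext
    change algebraMap k R c = algebraMap Y R (algebraMap k Y c)
    rw [← IsScalarTower.algebraMap_apply k Y R]
  have hG : IsGauss k F B w := h.isGauss' hcomp hdim hw
  have hmem : ∀ a, y a ∈ F := fun a => (mem_algebraicClosure_iff).2 (hy a)
  have hli : LinearIndependent k (fun a => (⟨y a, hmem a⟩ : F)) := by
    refine LinearIndependent.of_comp (IsScalarTower.toAlgHom k F R).toLinearMap ?_
    exact hlin
  exact hG n _ b hli a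

/-- `φ` the identity on `B` and `φ(Y)` algebraic over `Y` -/
theorem RG.comapG (hcomp : Twr.IsCompositum k B Y Z)
    (hdim : dimension k B + dimension k Y = dimension k Z) {w : Valuation R ℤᵐ⁰}
    (hw : IsDivisorial k R w) (h : RG k Y B w) (φ : Q →ₐ[k] R)
    (hφB : ∀ b : B, φ (algebraMap B Q b) = algebraMap B R b)
    (hφY : ∀ y : Y, IsAlgebraic Y (φ (algebraMap Y Q y))) :
    RG k Y B (w.comap (φ : Q →+* R)) := by
  have hG : IsGauss k Y B (w.comap (φ : Q →+* R)) := by
    intro n y a hy i
    have hli : LinearIndependent k (fun j => φ (algebraMap Y Q (y j))) := by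
      have h1 := hy.map' (φ.comp (IsScalarTower.toAlgHom k Y Q)).toLinearMap
        (LinearMap.ker_eq_bot.2 (φ.comp (IsScalarTower.toAlgHom k Y Q)).injective)
      exact h1
    have h2 := h.gauss hcomp hdim hw (fun j => hφY (y j)) hli a i
    have h3 : (φ : Q →+* R) (∑ j, algebraMap B Q (a j) * algebraMap Y Q (y j)) =
        ∑ j, algebraMap B R (a j) * φ (algebraMap Y Q (y j)) := by
      rw [map_sum]
      refine Finset.sum_congr rfl fun j _ => ?_
      rw [map_mul]
      congr 1
      exact hφB (a j)
    have h4 : (φ : Q →+* R) (algebraMap B Q (a i)) = algebraMap B R (a i) := hφB (a i)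
    rw [Valuation.comap_apply, Valuation.comap_apply, h3, h4]
    exact h2
  exact hG.rg

end OA

end Pf72953.Osp
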