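import Mathlib
import Pool.Agent.Lib.Pf72953z.DefsO
import Pool.Agent.Lib.Pf72953m.Fin

/-!
The one-sided product formula: products of forms.
-/

set_option autoImplicit false
set_option linter.style.haveILetI false
set_option linter.unusedSectionVars false

open scoped WithZero
open Pf72953 Pf72953.Mov Pf72953.Up Pf72953.Br

namespace Pf72953.Osp

section gform

variable {k B Y R J ι : Type*} [Field k] [CharZero k] [Field B] [Field Y] [Field R]
  [Algebra k B] [Algebra k Y] [Algebra k R] [Algebra B R] [Algebra Y R] [Fintype J] [Fintype ι]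
  [DecidableEq ι] {r : J → ℕ} {a : ∀ j, Fin (r j + 1) → B} {x : ι → B}

theorem GForm.mul {m m' : ℕ} {q q' : J → ℕ} {h h' : B} (hh : h ∈ GForm k Y R a x m q)
    (hh' : h' ∈ GForm k Y R a x m' q') :
    h * h' ∈ GForm k Y R a x (m + m') (fun j => q j + q' j) := by
  intro w hw hrg t ht l hl
  obtain ⟨c, hc, h1⟩ := hh w hw hrg t ht l hl
  obtain ⟨c', hc', h2⟩ := hh' w hw hrg t ht l hl
  refine ⟨c, hc, ?_⟩
  have hv : w (algebraMap B R (jac hc'.tb x)) * ∏ i, w (algebraMap B R (c' i)) =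
      w (algebraMap B R (jac hc.tb x)) * ∏ i, w (algebraMap B R (c i)) := hc'.vol_eq hc x
  rw [hv] at h2
  rw [map_mul, map_mul]
  calc w (algebraMap B R h) * w (algebraMap B R h') *
        (w (algebraMap B R (jac hc.tb x)) * ∏ i, w (algebraMap B R (c i))) ^ (m + m')
      = (w (algebraMap B R h) *
          (w (algebraMap B R (jac hc.tb x)) * ∏ i, w (algebraMap B R (c i))) ^ m) *
        (w (algebraMap B R h') *
          (w (algebraMap B R (jac hc.tb x)) * ∏ i, w (algebraMap B R (c i))) ^ m') := by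
        rw [pow_add]; ac_rfl
    _ ≤ (w t ^ m * ∏ j, w (algebraMap B R (a j (l j))) ^ q j) *
        (w t ^ m' * ∏ j, w (algebraMap B R (a j (l j))) ^ q' j) := mul_le_mul' h1 h2
    _ = _ := by
        simp only [pow_add, Finset.prod_mul_distrib]
        ac_rfl

theorem GForm.pow {m : ℕ} {q : J → ℕ} {h : B} (hh : h ∈ GForm k Y R a x m q) (n : ℕ) :
    h ^ n ∈ GForm k Y R a x (m * n) (fun j => q j * n) := by
  intro w hw hrg t ht l hl
  obtain ⟨c, hc, h1⟩ := hh w hw hrg t ht l hl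
  refine ⟨c, hc, ?_⟩
  have h2 := pow_le_pow_left' h1 n
  rw [map_pow, map_pow]
  calc _ = (w (algebraMap B R h) *
          (w (algebraMap B R (jac hc.tb x)) * ∏ i, w (algebraMap B R (c i))) ^ m) ^ n := by
        rw [mul_pow (w (algebraMap B R h)), ← pow_mul]
    _ ≤ _ := h2
    _ = _ := by
        rw [mul_pow, ← pow_mul, ← Finset.prod_pow]
        simp only [pow_mul]

/-- multiplication by coefficients -/
theorem GForm.coef {m : ℕ} {q : J → ℕ} {h : B} (hh : h ∈ GForm k Y R a x m q)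
    (l₀ : ∀ j, Fin (r j + 1)) (p : J → ℕ) :
    h * ∏ j, a j (l₀ j) ^ p j ∈ GForm k Y R a x m (fun j => q j + p j) := by
  intro w hw hrg t ht l hl
  obtain ⟨c, hc, h1⟩ := hh w hw hrg t ht l hl
  refine ⟨c, hc, ?_⟩
  have h2 : w (algebraMap B R (∏ j, a j (l₀ j) ^ p j)) ≤
      ∏ j, w (algebraMap B R (a j (l j))) ^ p j := by
    rw [map_prod, map_prod]
    refine Finset.prod_le_prod' fun j _ => ?_
    rw [map_pow, map_pow]
    exact pow_le_pow_left' (hl j (l₀ j)) _
  rw [map_mul, map_mul]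
  calc w (algebraMap B R h) * w (algebraMap B R (∏ j, a j (l₀ j) ^ p j)) *
        (w (algebraMap B R (jac hc.tb x)) * ∏ i, w (algebraMap B R (c i))) ^ m
      = (w (algebraMap B R h) *
          (w (algebraMap B R (jac hc.tb x)) * ∏ i, w (algebraMap B R (c i))) ^ m) *
        w (algebraMap B R (∏ j, a j (l₀ j) ^ p j)) := by ac_rfl
    _ ≤ (w t ^ m * ∏ j, w (algebraMap B R (a j (l j))) ^ q j) *
        ∏ j, w (algebraMap B R (a j (l j))) ^ p j := mul_le_mul' h1 h2
    _ = _ := by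
        simp only [pow_add, Finset.prod_mul_distrib]
        ac_rfl


theorem GForm.of_WOrb {m : ℕ} {h : B} (hh : h ∈ WOrb k R x m)
    (hnt : ∀ w : Valuation R ℤᵐ⁰, IsDivisorial k R w → RG k Y B w →
      ∃ b : B, b ≠ 0 ∧ w (algebraMap B R b) ≠ 1) :
    h ∈ GForm k Y R a x m (fun _ => 0) := by
  intro w hw hrg t ht l hl
  obtain ⟨c, hc, h1⟩ := hh w hw (hnt w hw hrg) t ht
  refine ⟨c, hc, ?_⟩
  simpa using h1

end gform

section sections

variable {k Y J : Type*} [Field k] [CharZero k] [Field Y] [Algebra k Y] [Fintype J]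
  {M : SmoothModel k Y} {S : J → LineBundle M} {y : Fin (dimension k Y) → Y}

theorem CoefSec.sec {m : ℕ} {q : J → ℕ} {g : Y} (hg : g ∈ CoefSec M S y m q) {σ : J → Y}
    (hσ : ∀ j, σ j ∈ (S j).sections) (p : J → ℕ) :
    g * ∏ j, σ j ^ p j ∈ CoefSec M S y m (fun j => q j + p j) := by
  intro i
  obtain ⟨f, hf, h⟩ := hg i
  choose φ hφ hφσ using fun j => hσ j i
  refine ⟨f * ∏ j, φ j ^ p j, (M.A i).mul_mem hf (Subalgebra.prod_mem _ fun j _ =>
    (M.A i).pow_mem (hφ j) _), ?_⟩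
  have e1 : ∏ j, σ j ^ p j = (∏ j, φ j ^ p j) * ∏ j, (S j).gen i ^ p j := by
    rw [← Finset.prod_mul_distrib]
    refine Finset.prod_congr rfl fun j _ => ?_
    rw [hφσ j, mul_pow]
  simp only [pow_add, Finset.prod_mul_distrib]
  calc g * (∏ j, σ j ^ p j) * jac (M.tb i) y ^ m
      = (g * jac (M.tb i) y ^ m) * ∏ j, σ j ^ p j := by ring
    _ = _ := by rw [h, e1]; ring

end sections

end Pf72953.Osp
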