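import Mathlib
import Pool.Agent.Lib.Pf72953z.Prime
import Pool.Agent.Lib.Pf72953u.BaseCh

/-!
Prime divisors on several glued charts.
-/

set_option autoImplicit false
set_option linter.style.haveILetI false

open scoped WithZero
open Pf72953 Pf72953.Mov Pf72953.Up

namespace Pf72953.Fac

variable {k B Y Z : Type*} [Field k] [CharZero k] [Field B] [Field Y] [Field Z]
  [Algebra k B] [Algebra k Y] [Algebra k Z] [Algebra B Z] [Algebra Y Z] [IsScalarTower k B Z]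
  [IsScalarTower k Y Z] {M : SmoothModel k Y}

omit [CharZero k] [Algebra k B] [Algebra k Z] [IsScalarTower k B Z] [IsScalarTower k Y Z] in
theorem mem_bc_of {A : Subalgebra k Y} {y : Y} (hy : y ∈ A) : algebraMap Y Z y ∈ bc B Z A :=
  Algebra.subset_adjoin ⟨y, hy, rfl⟩

omit [CharZero k] [Algebra k B] [Algebra k Z] [IsScalarTower k B Z] [IsScalarTower k Y Z] in
theorem Glued.frac (hM : Glued M) {i j : M.I} {w : Valuation Z ℤᵐ⁰}
    (hi : ∀ f ∈ bc B Z (M.A i), w f ≤ 1) (hj : ∀ f ∈ bc B Z (M.A j), w f ≤ 1) {f : Z}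
    (hf : f ∈ bc B Z (M.A i)) :
    ∃ a ∈ bc B Z (M.A j), ∃ b ∈ bc B Z (M.A j), w b = 1 ∧ f = a / b := by
  have hne : ∀ b : Z, w b = 1 → b ≠ 0 := by
    rintro b hb rfl
    rw [map_zero] at hb
    exact zero_ne_one hb
  refine Algebra.adjoin_induction (p := fun f _ => ∃ a ∈ bc B Z (M.A j), ∃ b ∈ bc B Z (M.A j),
    w b = 1 ∧ f = a / b) ?_ ?_ ?_ ?_ hf
  · rintro _ ⟨y, hy, rfl⟩
    obtain ⟨a, ha, b, hb, hvb, e⟩ := hM i j (w.comap (algebraMap Y Z))
      (fun f hf => hi _ (mem_bc_of hf)) (fun f hf => hj _ (mem_bc_of hf)) y hy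
    refine ⟨_, mem_bc_of ha, _, mem_bc_of hb, hvb, ?_⟩
    rw [e, map_div₀]
  · intro c
    exact ⟨_, Subalgebra.algebraMap_mem _ c, 1, Subalgebra.one_mem _, map_one w, by rw [div_one]⟩
  · rintro f g - - ⟨a, ha, b, hb, hvb, rfl⟩ ⟨c, hc, d, hd, hvd, rfl⟩
    refine ⟨a * d + b * c, add_mem (mul_mem ha hd) (mul_mem hb hc), b * d, mul_mem hb hd, ?_, ?_⟩
    · rw [map_mul, hvb, hvd, one_mul]
    · rw [div_add_div _ _ (hne b hvb) (hne d hvd)]
  · rintro f g - - ⟨a, ha, b, hb, hvb, rfl⟩ ⟨c, hc, d, hd, hvd, rfl⟩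
    refine ⟨a * c, mul_mem ha hc, b * d, mul_mem hb hd, ?_, ?_⟩
    · rw [map_mul, hvb, hvd, one_mul]
    · rw [div_mul_div_comm]

omit [CharZero k] [Algebra k B] [Algebra k Z] [IsScalarTower k B Z] [IsScalarTower k Y Z] in
theorem PrimeOn.glue (hM : Glued M) {i j : M.I} {w : Valuation Z ℤᵐ⁰}
    (hi : PrimeOn (bc B Z (M.A i)) w) (hj : ∀ f ∈ bc B Z (M.A j), w f ≤ 1) :
    PrimeOn (bc B Z (M.A j)) w := by
  have hne : ∀ b : Z, w b = 1 → b ≠ 0 := by
    rintro b hb rfl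
    rw [map_zero] at hb
    exact zero_ne_one hb
  refine ⟨hj, hi.nontriv, fun z hz => ?_⟩
  obtain ⟨a, ha, b, hb, hvb, rfl⟩ := hi.loc z hz
  obtain ⟨a1, ha1, a2, ha2, hva2, ea⟩ := hM.frac hi.le hj ha
  obtain ⟨b1, hb1, b2, hb2, hvb2, eb⟩ := hM.frac hi.le hj hb
  refine ⟨a1 * b2, mul_mem ha1 hb2, a2 * b1, mul_mem ha2 hb1, ?_, ?_⟩
  · have h1 : b1 = b * b2 := by rw [eb, div_mul_cancel₀ _ (hne b2 hvb2)]
    rw [map_mul, hva2, one_mul, h1, map_mul, hvb, hvb2, one_mul]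
  · rw [ea, eb, div_div_div_eq]

omit [CharZero k] in
theorem exists_den (B Z : Type*) [Field B] [Field Z] [Algebra k B] [Algebra k Z] [Algebra B Z]
    [Algebra Y Z] [IsScalarTower k B Z] [IsScalarTower k Y Z] (M : SmoothModel k Y) (i j : M.I) :
    ∃ c ∈ M.A i, c ≠ 0 ∧ ∀ w : Valuation Z ℤᵐ⁰, (∀ f ∈ bc B Z (M.A i), w f ≤ 1) →
      w (algebraMap Y Z c) = 1 → ∀ f ∈ bc B Z (M.A j), w f ≤ 1 := by
  classical
  obtain ⟨s, hs⟩ := M.fg j
  choose g hg h hh hh0 e using M.frac i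
  refine ⟨∏ y ∈ s, h y, prod_mem fun y _ => hh y, Finset.prod_ne_zero_iff.2 fun y _ => hh0 y,
    fun w hw hc f hf => ?_⟩
  have h1 : ∀ y ∈ s, w (algebraMap Y Z (h y)) = 1 := by
    rw [map_prod, map_prod] at hc
    exact (Finset.prod_eq_one_iff_of_le_one' fun y _ => hw _ (mem_bc_of (hh y))).1 hc
  -- the elements of `A j`
  have h2 : ∀ y ∈ M.A j, w (algebraMap Y Z y) ≤ 1 := by
    intro y hy
    rw [← hs] at hy
    refine Algebra.adjoin_induction (p := fun y _ => w (algebraMap Y Z y) ≤ 1) ?_ ?_ ?_ ?_ hy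
    · intro y hy
      rw [e y, map_div₀, map_div₀, h1 y hy, div_one]
      exact hw _ (mem_bc_of (hg y))
    · intro c
      rw [← IsScalarTower.algebraMap_apply, IsScalarTower.algebraMap_apply k B Z]
      exact hw _ (Subalgebra.algebraMap_mem _ _)
    · intro a b _ _ ha hb
      rw [map_add]
      exact (w.map_add _ _).trans (max_le ha hb)
    · intro a b _ _ ha hb
      rw [map_mul, map_mul]
      exact mul_le_one' ha hb
  refine Algebra.adjoin_induction (p := fun f _ => w f ≤ 1) ?_ ?_ ?_ ?_ hf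
  · rintro _ ⟨y, hy, rfl⟩
    exact h2 y hy
  · intro c
    exact hw _ (Subalgebra.algebraMap_mem _ c)
  · intro a b _ _ ha hb
    exact (w.map_add _ _).trans (max_le ha hb)
  · intro a b _ _ ha hb
    rw [map_mul]
    exact mul_le_one' ha hb

end Pf72953.Fac
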