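import Mathlib
import Pool.Agent.Lib.Pf72953z.Defs
import Pool.Agent.Lib.Pf72953z.Glue

/-!
MODULE Pf72953z.CoreA (first part of the proof): a prime divisor of `M` over `B` is the support of the divisor of a section `∑ a_l s_l` of a line
bundle on `M`, if the charts of `M` are factorial and the prime divisors of the charts over `B` are set-theoretically
principal.
-/

set_option autoImplicit false
set_option linter.style.haveILetI false
set_option linter.unusedSectionVars false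

open scoped WithZero
open Pf72953 Pf72953.Mov Pf72953.Up

namespace Pf72953.Fac

/-! ### values -/

theorem common_pow {I : Type*} [Fintype I] [DecidableEq I] (c : I → ℤᵐ⁰)
    (h0 : ∀ i, c i ≠ 0) (h1 : ∀ i, c i < 1) :
    ∃ (e : I → ℕ) (d : ℤᵐ⁰), d < 1 ∧ d ≠ 0 ∧ ∀ i, 0 < e i ∧ c i ^ e i = d := by
  have key : ∀ i, ∃ m : ℕ, 0 < m ∧ c i = (WithZero.exp (-1 : ℤ)) ^ m := by
    intro i
    refine ⟨(-(WithZero.log (c i))).toNat, ?_, ?_⟩
    · have h2 : WithZero.log (c i) < 0 := by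
        rw [WithZero.log_lt_iff_lt_exp (h0 i)]
        simpa using h1 i
      omega
    · have h2 : WithZero.log (c i) < 0 := by
        rw [WithZero.log_lt_iff_lt_exp (h0 i)]
        simpa using h1 i
      rw [← WithZero.exp_nsmul]
      have h3 : ((-(WithZero.log (c i))).toNat) • (-1 : ℤ) = WithZero.log (c i) := by
        rw [nsmul_eq_mul, Int.toNat_of_nonneg (by omega)]
        ring
      rw [h3, WithZero.exp_log (h0 i)]
  choose m hm0 hm using key
  have hlt : WithZero.exp (-1 : ℤ) < (1 : ℤᵐ⁰) := by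
    rw [← WithZero.exp_zero, WithZero.exp_lt_exp]
    norm_num
  refine ⟨fun i => ∏ j ∈ Finset.univ.erase i, m j, (WithZero.exp (-1 : ℤ)) ^ (∏ j, m j), ?_, ?_,
    fun i => ⟨Finset.prod_pos fun j _ => hm0 j, ?_⟩⟩
  · exact pow_lt_one₀ zero_le hlt (Finset.prod_pos fun j _ => hm0 j).ne'
  · exact pow_ne_zero _ WithZero.exp_ne_zero
  · rw [hm i, ← pow_mul, Finset.mul_prod_erase _ _ (Finset.mem_univ i)]

theorem val_eq_one_of_equiv {Z : Type*} [Field Z] {w w' : Valuation Z ℤᵐ⁰}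
    (h : ∀ z, w' z ≤ 1 ↔ w z ≤ 1) {z : Z} (hz : w z = 1) : w' z = 1 := by
  have hz0 : z ≠ 0 := by
    rintro rfl
    rw [map_zero] at hz
    exact zero_ne_one hz
  have h1 : w' z ≤ 1 := (h z).mpr hz.le
  have h2 : w' z⁻¹ ≤ 1 := (h z⁻¹).mpr (by rw [map_inv₀, hz, inv_one])
  rw [map_inv₀] at h2
  refine le_antisymm h1 ?_
  have h3 : 0 < w' z := by
    rw [Valuation.pos_iff]
    exact hz0
  exact (inv_le_one₀ h3).mp h2

theorem val_unit {Z : Type*} [Field Z] {w : Valuation Z ℤᵐ⁰} {u u' : Z} (hu : w u ≤ 1)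
    (hu' : w u' ≤ 1) (h : u * u' = 1) : w u = 1 := by
  refine le_antisymm hu ?_
  by_contra hcon
  push Not at hcon
  have h1 : w u * w u' < 1 := mul_lt_one_of_lt_of_le hcon hu'
  rw [← map_mul, h, map_one] at h1
  exact lt_irrefl _ h1

/-- a function of `QF` which is not zero -/
theorem QF.exists_ne {B Z : Type*} [Field B] [Field Z] [Algebra B Z] {A : Subalgebra B Z}
    (h : QF A) {w : Valuation Z ℤᵐ⁰} (hw : PrimeOn A w) : ∃ p ∈ A, p ≠ 0 ∧ w p < 1 ∧
    ∀ w' : Valuation Z ℤᵐ⁰, PrimeOn A w' → w' p < 1 → ∀ z, w' z ≤ 1 ↔ w z ≤ 1 := by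
  obtain ⟨p, hp, hp1, hp2⟩ := h w hw
  by_cases h0 : p = 0
  · obtain ⟨z, hz0, hz1⟩ := hw.nontriv
    obtain ⟨y, hy0, hy1⟩ : ∃ y, y ≠ 0 ∧ w y < 1 := by
      rcases lt_or_gt_of_ne hz1 with h1 | h1
      · exact ⟨z, hz0, h1⟩
      · refine ⟨z⁻¹, inv_ne_zero hz0, ?_⟩
        rw [map_inv₀]
        exact inv_lt_one_of_one_lt₀ h1
    obtain ⟨a, ha, b, hb, hb1, rfl⟩ := hw.loc y hy1.le
    refine ⟨a, ha, fun h1 => hy0 (by rw [h1, zero_div]), ?_, fun w' hw' _ => ?_⟩
    · rw [map_div₀, hb1, div_one] at hy1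
      exact hy1
    · refine hp2 w' hw' ?_
      rw [h0, map_zero]
      exact zero_lt_one
  · exact ⟨p, hp, h0, hp1, hp2⟩

section

variable {k B Y Z : Type*} [Field k] [CharZero k] [IsAlgClosed k] [Field B] [CharZero B] [Field Y]
  [CharZero Y] [Field Z]
  [Algebra k B] [Algebra k Y] [Algebra k Z] [Algebra B Z] [Algebra Y Z] [IsScalarTower k B Z]
  [IsScalarTower k Y Z] [Algebra.EssFiniteType k B] [Algebra.EssFiniteType k Y]
  [Algebra.EssFiniteType k Z] {M : SmoothModel k Y}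

/-- equations of a prime divisor on all charts, with the same multiplicity -/
theorem exists_eqns (hM : Glued M) (hQ : ∀ i, QF (bc B Z (M.A i))) {i₀ : M.I}
    {w : Valuation Z ℤᵐ⁰} (hw : PrimeOn (bc B Z (M.A i₀)) w) :
    ∃ (c : ℤᵐ⁰) (p : M.I → Z), c < 1 ∧ ∀ i, p i ∈ bc B Z (M.A i) ∧ p i ≠ 0 ∧
      ((∀ f ∈ bc B Z (M.A i), w f ≤ 1) → w (p i) = c) ∧
      ∀ w' : Valuation Z ℤᵐ⁰, PrimeOn (bc B Z (M.A i)) w' → w' (p i) < 1 →
        (∀ f ∈ bc B Z (M.A i), w f ≤ 1) ∧ ∀ z, w' z ≤ 1 ↔ w z ≤ 1 := by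
  classical
  haveI := M.finite
  letI := Fintype.ofFinite M.I
  have key : ∀ i, ∃ p : Z, p ∈ bc B Z (M.A i) ∧ p ≠ 0 ∧
      ((∀ f ∈ bc B Z (M.A i), w f ≤ 1) → w p < 1) ∧
      ∀ w' : Valuation Z ℤᵐ⁰, PrimeOn (bc B Z (M.A i)) w' → w' p < 1 →
        (∀ f ∈ bc B Z (M.A i), w f ≤ 1) ∧ ∀ z, w' z ≤ 1 ↔ w z ≤ 1 := by
    intro i
    by_cases hc : ∀ f ∈ bc B Z (M.A i), w f ≤ 1
    · obtain ⟨p, hp, hp0, hp1, hp2⟩ := (hQ i).exists_ne (hw.glue hM hc)
      exact ⟨p, hp, hp0, fun _ => hp1, fun w' hw' h => ⟨hc, hp2 w' hw' h⟩⟩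
    · refine ⟨1, one_mem _, one_ne_zero, fun h => absurd h hc, fun w' hw' h => ?_⟩
      rw [map_one] at h
      exact absurd h (lt_irrefl _)
  choose p hp hp0 hp1 hp2 using key
  obtain ⟨e, d, hd1, hd0, he⟩ := common_pow
    (fun i => if (∀ f ∈ bc B Z (M.A i), w f ≤ 1) then w (p i) else WithZero.exp (-1 : ℤ))
    (fun i => by
      split_ifs with h
      · exact (Valuation.ne_zero_iff w).mpr (hp0 i)
      · exact WithZero.exp_ne_zero)
    (fun i => by
      split_ifs with h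
      · exact hp1 i h
      · rw [← WithZero.exp_zero, WithZero.exp_lt_exp]
        norm_num)
  refine ⟨d, fun i => p i ^ e i, hd1, fun i => ⟨pow_mem (hp i) _, pow_ne_zero _ (hp0 i),
    fun h => ?_, fun w' hw' h => hp2 i w' hw' ?_⟩⟩
  · have h1 := (he i).2
    rw [if_pos h] at h1
    rw [map_pow]
    exact h1
  · by_contra hcon
    push Not at hcon
    have h1 := le_antisymm (hw'.le _ (hp i)) hcon
    rw [map_pow, h1, one_pow] at h
    exact lt_irrefl _ h

/-- the equations have the same value at a prime divisor of both charts -/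
theorem compare (hM : Glued M) {w : Valuation Z ℤᵐ⁰} {c : ℤᵐ⁰} {p : M.I → Z}
    (hp : ∀ i, p i ∈ bc B Z (M.A i) ∧ p i ≠ 0 ∧
      ((∀ f ∈ bc B Z (M.A i), w f ≤ 1) → w (p i) = c) ∧
      ∀ w' : Valuation Z ℤᵐ⁰, PrimeOn (bc B Z (M.A i)) w' → w' (p i) < 1 →
        (∀ f ∈ bc B Z (M.A i), w f ≤ 1) ∧ ∀ z, w' z ≤ 1 ↔ w z ≤ 1) {i j : M.I}
    {w' : Valuation Z ℤᵐ⁰} (hi : PrimeOn (bc B Z (M.A i)) w')
    (hj : ∀ f ∈ bc B Z (M.A j), w' f ≤ 1) : w' (p i) = w' (p j) := by
  have hj' : PrimeOn (bc B Z (M.A j)) w' := hi.glue hM hj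
  have key : ∀ {i j : M.I}, PrimeOn (bc B Z (M.A i)) w' → PrimeOn (bc B Z (M.A j)) w' →
      w' (p i) < 1 → w' (p i) = w' (p j) := by
    intro i j hi hj hlt
    obtain ⟨h1, h2⟩ := (hp i).2.2.2 w' hi hlt
    have h3 := (hp i).2.2.1 h1
    have h4 := (hp j).2.2.1 (fun f hf => (h2 f).mp (hj.le f hf))
    have h5 : w (p i / p j) = 1 := by
      rw [map_div₀, h3, h4, div_self]
      rw [← h3]
      exact (Valuation.ne_zero_iff w).mpr (hp i).2.1
    have h6 := val_eq_one_of_equiv h2 h5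
    rw [map_div₀, div_eq_one_iff_eq ((Valuation.ne_zero_iff w').mpr (hp j).2.1)] at h6
    exact h6
  rcases lt_or_eq_of_le (hi.le _ (hp i).1) with h1 | h1
  · exact key hi hj' h1
  · rcases lt_or_eq_of_le (hj _ (hp j).1) with h2 | h2
    · exact (key hj' hi h2).symm
    · rw [h1, h2]

/-- the rank of a tensor -/
theorem exists_rank {β : Type*} (b : Module.Basis β k B) {p : β →₀ Y} (hp : p ≠ 0) :
    ∃ (r : ℕ) (s : Fin (r + 1) → Y) (a : Fin (r + 1) → B), LinearIndependent k s ∧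
      LinearIndependent k a ∧ (∀ l, s l ∈ Submodule.span k (Set.range p)) ∧
      (p.sum fun g y => algebraMap B Z (b g) * algebraMap Y Z y) =
        ∑ l, algebraMap B Z (a l) * algebraMap Y Z (s l) := by
  classical
  set V := Submodule.span k (Set.range p) with hV
  have hfin : (Set.range p).Finite := by
    refine Set.Finite.subset ((p.support.image p).finite_toSet.union (Set.finite_singleton 0)) ?_
    rintro _ ⟨g, rfl⟩
    by_cases hg : p g = 0
    · right
      rw [hg]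
      rfl
    · left
      simp only [Finset.coe_image, Set.mem_image, Finset.mem_coe, Finsupp.mem_support_iff]
      exact ⟨g, hg, rfl⟩
  haveI : FiniteDimensional k V := FiniteDimensional.span_of_finite k hfin
  have hVne : V ≠ ⊥ := by
    intro h
    refine hp (Finsupp.ext fun g => ?_)
    have : p g ∈ V := Submodule.subset_span ⟨g, rfl⟩
    rw [h, Submodule.mem_bot] at this
    exact this
  haveI : Nontrivial V := Submodule.nontrivial_iff_ne_bot.mpr hVne
  obtain ⟨r, hr⟩ : ∃ r, Module.finrank k V = r + 1 :=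
    ⟨Module.finrank k V - 1, by have := Module.finrank_pos (R := k) (M := V); omega⟩
  let bs : Module.Basis (Fin (r + 1)) k V := (Module.finBasisOfFinrankEq k V hr)
  have hmem : ∀ g, p g ∈ V := fun g => Submodule.subset_span ⟨g, rfl⟩
  let c : β → Fin (r + 1) → k := fun g l => bs.repr ⟨p g, hmem g⟩ l
  have hc : ∀ g, p g = ∑ l, c g l • (bs l : Y) := by
    intro g
    have h1 := bs.sum_repr ⟨p g, hmem g⟩
    have h2 := congrArg (Subtype.val) h1
    rw [Submodule.coe_sum] at h2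
    exact h2.symm
  refine ⟨r, fun l => (bs l : Y), fun l => ∑ g ∈ p.support, c g l • b g, ?_, ?_,
    fun l => (bs l).2, ?_⟩
  · exact bs.linearIndependent.map' V.subtype (Submodule.ker_subtype V)
  · rw [Fintype.linearIndependent_iff]
    intro t ht
    have h1 : ∑ g ∈ p.support, (∑ l, t l * c g l) • b g = 0 := by
      rw [← ht]
      simp_rw [Finset.smul_sum, Finset.sum_smul, smul_smul]
      rw [Finset.sum_comm]
    have h2 := (linearIndependent_iff'.mp b.linearIndependent) p.support _ h1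
    let T : V →ₗ[k] k := bs.constr k t
    have hT : ∀ g, T ⟨p g, hmem g⟩ = 0 := by
      intro g
      by_cases hg : g ∈ p.support
      · have h3 := h2 g hg
        rw [← bs.sum_repr ⟨p g, hmem g⟩, map_sum]
        rw [← h3]
        refine Finset.sum_congr rfl fun l _ => ?_
        rw [map_smul, Module.Basis.constr_basis, smul_eq_mul, mul_comm]
      · have h3 : p g = 0 := by simpa using hg
        have h4 : (⟨p g, hmem g⟩ : V) = 0 := Subtype.ext h3
        rw [h4, map_zero]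
    have hT0 : ∀ y (hy : y ∈ V), T ⟨y, hy⟩ = 0 := by
      intro y hy
      induction hy using Submodule.span_induction with
      | mem x hx =>
        obtain ⟨g, rfl⟩ := hx
        exact hT g
      | zero => exact map_zero T
      | add x y hx hy h1 h2 =>
        have : (⟨x + y, add_mem hx hy⟩ : V) = ⟨x, hx⟩ + ⟨y, hy⟩ := rfl
        rw [this, map_add, h1, h2, add_zero]
      | smul a x hx h1 =>
        have : (⟨a • x, Submodule.smul_mem _ a hx⟩ : V) = a • ⟨x, hx⟩ := rfl
        rw [this, map_smul, h1, smul_zero]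
    intro l
    have h5 := hT0 (bs l) (bs l).2
    have h6 : T (bs l) = t l := bs.constr_basis k t l
    rw [← h6]
    exact h5
  · rw [Finsupp.sum]
    have h7 : ∀ g ∈ p.support, algebraMap B Z (b g) * algebraMap Y Z (p g) =
        ∑ l, algebraMap B Z (c g l • b g) * algebraMap Y Z (bs l) := by
      intro g _
      conv_lhs => rw [hc g]
      rw [map_sum, Finset.mul_sum]
      refine Finset.sum_congr rfl fun l _ => ?_
      rw [Algebra.smul_def, Algebra.smul_def, map_mul, map_mul,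
        ← IsScalarTower.algebraMap_apply k Y Z, ← IsScalarTower.algebraMap_apply k B Z]
      ring
    rw [Finset.sum_congr rfl h7, Finset.sum_comm]
    refine Finset.sum_congr rfl fun l _ => ?_
    rw [map_sum, Finset.sum_mul]

end

end Pf72953.Fac
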