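import Mathlib
import Pool.Agent.Lib.Pf72953z.RGa
import Pool.Agent.Lib.Pf72953z.CoreA
import Pool.Agent.Lib.Pf72953t.Idx

/-!
The one-sided product formula: existence and uniqueness of Gauss valuations, uniformizers.
-/

set_option autoImplicit false
set_option linter.style.haveILetI false
set_option linter.unusedSectionVars false

open scoped WithZero
open Pf72953 Pf72953.Mov Pf72953.Up Pf72953.Br

namespace Pf72953.Osp

section

variable {k B Y Z Q R : Type*} [Field k] [CharZero k] [IsAlgClosed k] [Field B] [Field Y] [Field Z]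
  [Field Q] [Field R] [Algebra k B] [Algebra k Y] [Algebra k Z] [Algebra k Q] [Algebra k R]
  [Algebra B Z] [Algebra B Q] [Algebra B R] [Algebra Y Z] [Algebra Y Q] [Algebra Y R]
  [Algebra Z Q] [Algebra Z R] [IsScalarTower k B Z] [IsScalarTower k B Q] [IsScalarTower k B R]
  [IsScalarTower k Y Z] [IsScalarTower k Y Q] [IsScalarTower k Y R] [IsScalarTower k Z Q]
  [IsScalarTower k Z R] [IsScalarTower B Z Q] [IsScalarTower B Z R] [IsScalarTower Y Z Q]
  [IsScalarTower Y Z R] [Algebra.EssFiniteType k B] [Algebra.EssFiniteType k Y]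
  [Algebra.EssFiniteType k Z] [FiniteDimensional Z Q] [FiniteDimensional Z R]

theorem isDivisorial_of_equiv {K : Type*} [Field K] [Algebra k K] {w w' : Valuation K ℤᵐ⁰}
    (h : IsDivisorial k K w) (he : ∀ z, w z ≤ 1 ↔ w' z ≤ 1) : IsDivisorial k K w' := by
  refine ⟨fun c hc => ?_, ?_, ?_⟩
  · exact Fac.val_eq_one_of_equiv (fun z => (he z).symm) (h.const c hc)
  · obtain ⟨a, ha0, ha⟩ := h.nontrivial
    exact ⟨a, ha0, fun h2 => ha (Fac.val_eq_one_of_equiv he h2)⟩
  · obtain ⟨x, hx⟩ := h.resid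
    exact ⟨x, fun p hp => Fac.val_eq_one_of_equiv (fun z => (he z).symm) (hx p hp)⟩

/-- every value of the compositum is a value of `B` -/
theorem exists_val (hcomp : Twr.IsCompositum k B Y Z) {w : Valuation Z ℤᵐ⁰}
    (h : Fac.IsGauss k Y B w) (z : Z) : ∃ b : B, w z = w (algebraMap B Z b) := by
  obtain ⟨n, m, y, a, y', a', hy, hy', h0, rfl⟩ := Fac.comp_frac hcomp z
  obtain ⟨j, hj0, hj⟩ := h.exists_eq hy' h0
  rcases eq_or_ne (∑ j, algebraMap B Z (a j) * algebraMap Y Z (y j)) 0 with h4 | h4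
  · exact ⟨0, by rw [h4, zero_div, map_zero, map_zero, map_zero]⟩
  · obtain ⟨i, -, hi⟩ := h.exists_eq hy h4
    refine ⟨a i / a' j, ?_⟩
    rw [map_div₀, hi, hj, map_div₀, map_div₀]

/-- a Gauss valuation which is unramified over `Z` has a uniformizer in `B` -/
theorem RG.unif (hcomp : Twr.IsCompositum k B Y Z)
    (hdim : dimension k B + dimension k Y = dimension k Z) {w : Valuation R ℤᵐ⁰}
    (hw : IsDivisorial k R w) (h : RG k Y B w) (z : Z) (hz : w (algebraMap Z R z) < 1) :
    ∃ b : B, w (algebraMap B R b) < 1 ∧ w (algebraMap Z R z) ≤ w (algebraMap B R b) := by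
  have h1 : Fac.IsGauss k Y B (w.comap (algebraMap Z R)) :=
    Fac.isGauss_comap.2 (RG.isGauss hcomp hdim hw h)
  obtain ⟨b, hb⟩ := exists_val hcomp h1 z
  rw [Valuation.comap_apply, Valuation.comap_apply, ← IsScalarTower.algebraMap_apply] at hb
  exact ⟨b, hb ▸ hz, hb.le⟩

theorem RG.unique (hcomp : Twr.IsCompositum k B Y Z)
    (hdim : dimension k B + dimension k Y = dimension k Z) {w : Valuation R ℤᵐ⁰}
    {w' : Valuation Q ℤᵐ⁰} (hw : IsDivisorial k R w) (hw' : IsDivisorial k Q w')
    (h : RG k Y B w) (h' : RG k Y B w')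
    (heq : ∀ b : B, w (algebraMap B R b) ≤ 1 ↔ w' (algebraMap B Q b) ≤ 1) (z : Z) :
    w (algebraMap Z R z) ≤ 1 ↔ w' (algebraMap Z Q z) ≤ 1 := by
  have h1 : Fac.IsGauss k Y B (w.comap (algebraMap Z R)) :=
    Fac.isGauss_comap.2 (RG.isGauss hcomp hdim hw h)
  have h2 : Fac.IsGauss k Y B (w'.comap (algebraMap Z Q)) :=
    Fac.isGauss_comap.2 (RG.isGauss hcomp hdim hw' h')
  refine Fac.IsGauss.unique hcomp h1 h2 (fun a => ?_) z
  rw [Valuation.comap_apply, Valuation.comap_apply, ← IsScalarTower.algebraMap_apply,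
    ← IsScalarTower.algebraMap_apply]
  exact heq a

theorem RG.exists (hcomp : Twr.IsCompositum k B Y Z)
    (hdim : dimension k B + dimension k Y = dimension k Z) {u : Valuation B ℤᵐ⁰}
    (hu : IsDivisorial k B u) : ∃ w : Valuation R ℤᵐ⁰, IsDivisorial k R w ∧ RG k Y B w ∧
      (∀ b : B, w (algebraMap B R b) ≤ 1 ↔ u b ≤ 1) ∧
      ∀ (t : R) (tB : B), IsUnif w t → IsUnif u tB →
        w t ^ Module.finrank Z R ≤ w (algebraMap B R tB) := by
  haveI : CharZero B := charZero_of_injective_algebraMap (algebraMap k B).injective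
  haveI : CharZero Y := charZero_of_injective_algebraMap (algebraMap k Y).injective
  haveI : CharZero Z := charZero_of_injective_algebraMap (algebraMap k Z).injective
  obtain ⟨v, c, hG, hvu, hdiv, -, -⟩ := Fac.exists_gauss_reg hcomp hdim hu
  obtain ⟨w, hw, hwv⟩ := Fac.exists_isGauss_ext (Q := R) hG hdiv.nontrivial
  have hdimR : dimension k R = dimension k Z := by
    haveI : Algebra.EssFiniteType k R := Algebra.EssFiniteType.comp k Z R
    obtain ⟨z, hz⟩ := exists_tb k Z
    have h1 : IsTranscendenceBasis k (algebraMap Z R ∘ z) := hz.algebraMap_comp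
    have h2 := card_eq_of_isTranscendenceBasis h1
    rw [Fintype.card_fin] at h2
    exact h2.symm
  have hdivw : IsDivisorial k R w := by
    refine IsDivisorial.of_comap (E := Z) hdimR ?_
    exact isDivisorial_of_equiv hdiv fun z => (hwv z).symm
  have hwB : ∀ b : B, w (algebraMap B R b) ≤ 1 ↔ u b ≤ 1 := fun b => by
    rw [IsScalarTower.algebraMap_apply B Z R, hwv, hvu]
  refine ⟨w, hdivw, hw.rg, hwB, fun t tB ht htB => ?_⟩
  have he : (w.comap (algebraMap Z R)).IsEquiv v :=
    Valuation.isEquiv_iff_val_le_one.2 (fun {z} => hwv z)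
  have hun : IsUnif (w.comap (algebraMap Z R)) (algebraMap B Z tB) := by
    refine ⟨by simpa using htB.ne_zero, ?_, fun z hz => ?_⟩
    · rw [he.lt_one_iff_lt_one, hvu]
      exact htB.lt_one
    · rw [he.lt_one_iff_lt_one] at hz
      obtain ⟨b, hb⟩ := exists_val hcomp hG z
      rw [hb, hvu] at hz
      have h2 := htB.le b hz
      refine (he _ _).2 ?_
      rw [hb, hvu, hvu]
      exact h2
  have h3 := Twr.pow_finrank_le hun ht.lt_one
  rwa [← IsScalarTower.algebraMap_apply] at h3

end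

end Pf72953.Osp
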