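import Mathlib
import Pool.Agent.Lib.Pf72953z.DefsP

/-! `Rho` and `nfo` are in `DefsP.lean`. -/
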