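import Mathlib
import Pool.Agent.Lib.Pf72953z.RhoD
import Pool.Agent.Lib.Pf72953z.CoreA
import Pool.Agent.Lib.Pf72953z.Gss
import Pool.Agent.Lib.Pf72953k.Bad
import Pool.Agent.Lib.Pf72953u.Inst
import Pool.Agent.Lib.Pf72953m.Over

/-!
MODULE Pf72953z.UpA: the norm of a form of `R` over `Y`, multiplied by the equations of the branch divisors, is a tensor.
-/

set_option autoImplicit false
set_option linter.style.haveILetI false
set_option linter.unusedSectionVars false

open scoped WithZero
open Pf72953 Pf72953.Mov Pf72953.Up Pf72953.Br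

namespace Pf72953.Osp

section basic

variable {k B Y Z : Type*} [Field k] [CharZero k] [IsAlgClosed k] [Field B] [Field Y]
  [Field Z] [Algebra k B] [Algebra k Y] [Algebra k Z] [Algebra B Z] [Algebra Y Z]
  [IsScalarTower k B Z] [IsScalarTower k Y Z] [Algebra.EssFiniteType k B]
  [Algebra.EssFiniteType k Y] [Algebra.EssFiniteType k Z]

theorem sum_mem_bc {A : Subalgebra k Y} {β : Type*} (b : β → B) {p : β →₀ Y}
    (hp : ∀ g, p g ∈ A) : (p.sum fun g y => algebraMap B Z (b g) * algebraMap Y Z y) ∈ bc B Z A :=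
  Subalgebra.sum_mem _ fun g _ => Subalgebra.mul_mem _ (Subalgebra.algebraMap_mem _ _)
    (Algebra.subset_adjoin ⟨p g, hp g, rfl⟩)

/-- The values at a prime divisor which is not trivial on `Y`. -/
theorem prime_gauss (hcomp : Twr.IsCompositum k B Y Z)
    (hdim : dimension k B + dimension k Y = dimension k Z) {M : SmoothModel k Y} {i : M.I}
    {v : Valuation Z ℤᵐ⁰} (hv : Fac.PrimeOn (bc B Z (M.A i)) v)
    (hnt : ∃ y : Y, y ≠ 0 ∧ v (algebraMap Y Z y) ≠ 1) {β : Type*} (b : Module.Basis β k B)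
    {p : β →₀ Y} (hp : ∀ g, p g ∈ M.A i) {g₀ : β} (hg₀ : v (algebraMap Y Z (p g₀)) = 1) :
    v (p.sum fun g y => algebraMap B Z (b g) * algebraMap Y Z y) = 1 := by
  classical
  haveI : CharZero B := charZero_of_injective_algebraMap (algebraMap k B).injective
  haveI : CharZero Y := charZero_of_injective_algebraMap (algebraMap k Y).injective
  have hB : ∀ b : B, b ≠ 0 → v (algebraMap B Z b) = 1 := by
    intro b hb
    have h1 : v (algebraMap B Z b) ≤ 1 := hv.le _ (Subalgebra.algebraMap_mem _ _)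
    have h2 : v (algebraMap B Z b⁻¹) ≤ 1 := hv.le _ (Subalgebra.algebraMap_mem _ _)
    refine Fac.val_unit h1 h2 ?_
    rw [← map_mul, mul_inv_cancel₀ hb, map_one]
  have hB' : ∀ b : B, v (algebraMap B Z b) ≤ 1 := fun b => hv.le _ (Subalgebra.algebraMap_mem _ _)
  have hu : ∀ c : k, c ≠ 0 → (v.comap (algebraMap Y Z)) (algebraMap k Y c) = 1 := by
    intro c hc
    rw [Valuation.comap_apply, ← IsScalarTower.algebraMap_apply k Y Z,
      IsScalarTower.algebraMap_apply k B Z]
    exact hB _ (by simpa using hc)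
  obtain ⟨W, hW1, hW2, hW3⟩ := Fac.exists_gaussB (B := B) (Y := Y) (Z := Z) (by omega)
    (PF.gen_of_comp hcomp) hu
  -- the Gauss formula for finitely supported functions
  have hG : ∀ (q : β →₀ Y) (g : β), v (algebraMap Y Z (q g)) ≤
      W (q.sum fun g y => algebraMap B Z (b g) * algebraMap Y Z y) := by
    intro q g
    by_cases hg : g ∈ q.support
    · obtain ⟨n, e⟩ : ∃ n, Nonempty (Fin n ≃ q.support) :=
        ⟨_, ⟨q.support.equivFin.symm⟩⟩
      obtain ⟨e⟩ := e
      have h2 : LinearIndependent k (fun a : Fin n => b (e a)) :=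
        b.linearIndependent.comp _ (Subtype.val_injective.comp e.injective)
      have h3 := hW3 n (fun a => b (e a)) h2 (fun a => q (e a)) (e.symm ⟨g, hg⟩)
      have h4 : (q.sum fun g y => algebraMap B Z (b g) * algebraMap Y Z y) =
          ∑ a, algebraMap Y Z (q (e a)) * algebraMap B Z (b (e a)) := by
        rw [Finsupp.sum, ← Finset.sum_coe_sort q.support, ← e.sum_comp]
        exact Finset.sum_congr rfl fun a _ => mul_comm _ _
      rw [h4]
      rw [e.apply_symm_apply, Valuation.comap_apply] at h3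
      exact h3
    · rw [Finsupp.notMem_support_iff] at hg
      rw [hg, map_zero, map_zero]
      exact zero_le
  have hWle : ∀ a ∈ bc B Z (M.A i), W a ≤ 1 := by
    intro a ha
    induction ha using Algebra.adjoin_induction with
    | mem x hx =>
      obtain ⟨y, hy, rfl⟩ := hx
      rw [hW1, Valuation.comap_apply]
      exact hv.le _ (Fac.mem_bc_of hy)
    | algebraMap r =>
      rcases eq_or_ne r 0 with rfl | hr
      · simp
      · exact (hW2 r hr).le
    | add x y _ _ hx hy =>
      exact (Valuation.map_add _ _ _).trans (max_le hx hy)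
    | mul x y _ _ hx hy =>
      rw [map_mul]
      exact mul_le_one' hx hy
  -- the centre of `W`
  let P : Ideal (bc B Z (M.A i)) :=
    { carrier := {a | W (a : Z) < 1}
      zero_mem' := by
        change W ((0 : bc B Z (M.A i)) : Z) < 1
        rw [ZeroMemClass.coe_zero, map_zero]
        exact zero_lt_one
      add_mem' := fun {a b} ha hb => by
        change W ((a : Z) + (b : Z)) < 1
        exact (Valuation.map_add _ _ _).trans_lt (max_lt ha hb)
      smul_mem' := fun c {a} ha => by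
        change W ((c : Z) * (a : Z)) < 1
        rw [map_mul]
        exact (mul_le_of_le_one_left' (hWle _ c.2)).trans_lt ha }
  have hPmem : ∀ a : bc B Z (M.A i), a ∈ P ↔ W (a : Z) < 1 := fun a => Iff.rfl
  have hPp : P.IsPrime := by
    refine ⟨fun htop => ?_, fun {a b} hab => ?_⟩
    · have h4 : (1 : bc B Z (M.A i)) ∈ P := by rw [htop]; trivial
      rw [hPmem, OneMemClass.coe_one, map_one] at h4
      exact lt_irrefl _ h4
    · by_contra hn
      push Not at hn
      rw [hPmem, hPmem] at hn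
      have h4 : W (a : Z) = 1 := le_antisymm (hWle _ a.2) (not_lt.1 hn.1)
      have h5 : W (b : Z) = 1 := le_antisymm (hWle _ b.2) (not_lt.1 hn.2)
      have h6 : W ((a : Z) * (b : Z)) < 1 := hab
      rw [map_mul, h4, h5, one_mul] at h6
      exact lt_irrefl _ h6
  -- a nonzero element
  obtain ⟨f, hfA, hf0, hf⟩ : ∃ f ∈ M.A i, f ≠ 0 ∧ v (algebraMap Y Z f) < 1 := by
    obtain ⟨y, hy0, hy⟩ := hnt
    obtain ⟨f, hf, f', hf', hf'0, rfl⟩ := M.frac i y
    have hf0 : f ≠ 0 := by
      rintro rfl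
      simp at hy0
    have h1 : v (algebraMap Y Z f) ≤ 1 := hv.le _ (Fac.mem_bc_of hf)
    have h2 : v (algebraMap Y Z f') ≤ 1 := hv.le _ (Fac.mem_bc_of hf')
    rcases lt_or_eq_of_le h1 with h3 | h3
    · exact ⟨f, hf, hf0, h3⟩
    · rcases lt_or_eq_of_le h2 with h4 | h4
      · exact ⟨f', hf', hf'0, h4⟩
      · rw [map_div₀, map_div₀, h3, h4, div_one] at hy
        exact absurd rfl hy
  have hP0 : P ≠ ⊥ := by
    intro h0
    have h1 : (⟨algebraMap Y Z f, Fac.mem_bc_of hfA⟩ : bc B Z (M.A i)) ∈ P := by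
      rw [hPmem]
      change W (algebraMap Y Z f) < 1
      rw [hW1]
      exact hf
    rw [h0, Ideal.mem_bot] at h1
    have h2 : algebraMap Y Z f = 0 := congrArg Subtype.val h1
    rw [map_eq_zero] at h2
    exact hf0 h2
  have hsum : ∀ (q : β →₀ Y) {c : ℤᵐ⁰}, c ≠ 0 → (∀ g, v (algebraMap Y Z (q g)) < c) →
      v (q.sum fun g y => algebraMap B Z (b g) * algebraMap Y Z y) < c := by
    intro q c hc hq
    refine Valuation.map_sum_lt _ hc fun g _ => ?_
    rw [map_mul]
    exact (mul_le_of_le_one_left' (hB' _)).trans_lt (hq g)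
  have hle : ∀ a ∈ P, v (a : Z) < 1 := by
    rintro ⟨a, ha⟩ haP
    rw [hPmem] at haP
    obtain ⟨q, hq, rfl⟩ := mem_bc b ha
    exact hsum q one_ne_zero fun g => (hG q g).trans_lt haP
  have hmem := sum_mem_bc (Z := Z) b hp
  refine le_antisymm (hv.le _ hmem) (not_lt.1 fun hlt => ?_)
  have h1 := hv.height hPp hP0 hle ⟨_, hmem⟩ hlt
  rw [hPmem] at h1
  have h2 := (hG p g₀).trans_lt h1
  rw [hg₀] at h2
  exact lt_irrefl _ h2

/-- the vector fields over `Y` at a prime divisor which is trivial on `Y` -/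
theorem prime_reg (hcomp : Twr.IsCompositum k B Y Z)
    (hdim : dimension k B + dimension k Y = dimension k Z) {M : SmoothModel k Y} {i : M.I}
    [CharZero Y]
    {v : Valuation Z ℤᵐ⁰} (hv : Fac.PrimeOn (bc B Z (M.A i)) v)
    {x : Fin (dimension k B) → B} (hx : IsTranscendenceBasis k x) :
    RegBasis Y v (fun a => algebraMap B Z (x a)) := by
  haveI : CharZero B := charZero_of_injective_algebraMap (algebraMap k B).injective
  haveI : Algebra.EssFiniteType B Z := Algebra.EssFiniteType.of_comp k B Z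
  have hxK : IsTranscendenceBasis B (fun a => algebraMap Y Z (M.x i a)) :=
    tb_over hdim (PF.alg_of_compositum hcomp) (M.tb i)
  have hch : Chart hxK (bc B Z (M.A i)) :=
    (chart_of_model M i).baseChange hxK (PF.gen_of_comp hcomp)
  have hxY : IsTranscendenceBasis Y (fun a => algebraMap B Z (x a)) :=
    tb_over (by omega) (PF.alg_of_compositum (PF.IsCompositum.symm hcomp)) hx
  obtain ⟨hd, hr⟩ := hv.div hch
  have hB' : ∀ b : B, v (algebraMap B Z b) ≤ 1 := fun b => hv.le _ (Subalgebra.algebraMap_mem _ _)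
  refine ⟨hxY, fun a => hB' _, fun a z hz => ?_⟩
  refine PF.der_of_chart hch hd hr hv.le ((pd hxY a).restrictScalars k) (fun c hc => ?_) hz
  change v (pd hxY a c) ≤ 1
  induction hc using Algebra.adjoin_induction with
  | mem z hz =>
    obtain ⟨f, hf, rfl⟩ := hz
    rw [Derivation.map_algebraMap, map_zero]
    exact zero_le_one
  | algebraMap r =>
    have h1 := PF.der_sum hx ((pd hxY a).restrictScalars k) r
    change pd hxY a (algebraMap B Z r) = _ at h1
    rw [h1]
    refine Valuation.map_sum_le _ fun c _ => ?_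
    rw [map_mul]
    refine mul_le_one' (hB' _) ?_
    change v (pd hxY a (algebraMap B Z (x c))) ≤ 1
    rw [pd_self hxY a c]
    split_ifs
    · rw [map_one]
    · rw [map_zero]
      exact zero_le_one
  | add u u' _ _ hu hu' =>
    rw [map_add]
    exact (Valuation.map_add _ _ _).trans (max_le hu hu')
  | mul u u' hum hum' hu hu' =>
    rw [Derivation.leibniz, smul_eq_mul, smul_eq_mul]
    refine (Valuation.map_add _ _ _).trans (max_le ?_ ?_)
    · rw [map_mul]
      exact mul_le_one' (hv.le _ hum) hu'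
    · rw [map_mul]
      exact mul_le_one' (hv.le _ hum') hu

end basic

section main

variable {k B Y Z R J : Type*} [Field k] [CharZero k] [IsAlgClosed k] [Field B] [Field Y]
  [Field Z] [Field R] [Algebra k B] [Algebra k Y] [Algebra k Z] [Algebra k R]
  [Algebra B Z] [Algebra B R] [Algebra Y Z] [Algebra Y R] [Algebra Z R] [IsScalarTower k B Z]
  [IsScalarTower k B R] [IsScalarTower k Y Z] [IsScalarTower k Y R] [IsScalarTower k Z R]
  [IsScalarTower B Z R] [IsScalarTower Y Z R] [Algebra.EssFiniteType k B]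
  [Algebra.EssFiniteType k Y] [Algebra.EssFiniteType k Z] [FiniteDimensional Z R] [IsGalois Z R]
  [Fintype J]

theorem primeOn_of_equiv {B Z : Type*} [Field B] [Field Z] [Algebra B Z] {A : Subalgebra B Z}
    {v v' : Valuation Z ℤᵐ⁰} (h : Fac.PrimeOn A v) (he : ∀ z, v' z ≤ 1 ↔ v z ≤ 1) :
    Fac.PrimeOn A v' := by
  refine ⟨fun a ha => (he a).2 (h.le a ha), ?_, fun z hz => ?_⟩
  · obtain ⟨a, ha0, ha⟩ := h.nontriv
    exact ⟨a, ha0, fun h2 => ha (Fac.val_eq_one_of_equiv (fun z => (he z).symm) h2)⟩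
  · obtain ⟨a, ha, b, hb, hb1, e⟩ := h.loc z ((he z).1 hz)
    exact ⟨a, ha, b, hb, Fac.val_eq_one_of_equiv he hb1, e⟩

/-- the estimate at a prime divisor which is trivial on `Y` -/
theorem nfo_le [CharZero Y] (hcomp : Twr.IsCompositum k B Y Z)
    (hdim : dimension k B + dimension k Y = dimension k Z) {M : SmoothModel k Y}
    {r : J → ℕ} {a : ∀ j, Fin (r j + 1) → B} {n : ℕ} {ρ : Fin n → Z} {jj : Fin n → J} {N : ℕ}
    (hρ : Rho k Y Z R M a ρ jj N) {x : Fin (dimension k B) → B} (hx : IsTranscendenceBasis k x)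
    {m : ℕ} {g : R} (hg : g ∈ WReg Y (fun i => algebraMap B R (x i)) m) {i : M.I}
    {v : Valuation Z ℤᵐ⁰} (hv : Fac.PrimeOn (bc B Z (M.A i)) v)
    (htriv : ∀ y : Y, y ≠ 0 → v (algebraMap Y Z y) = 1) : v (nfo ρ m g) ≤ 1 := by
  classical
  haveI : CharZero B := charZero_of_injective_algebraMap (algebraMap k B).injective
  haveI : Algebra.EssFiniteType B Z := Algebra.EssFiniteType.of_comp k B Z
  haveI : Algebra.EssFiniteType Y Z := Algebra.EssFiniteType.of_comp k Y Z
  haveI : Algebra.EssFiniteType Y R := Algebra.EssFiniteType.comp Y Z R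
  haveI : Algebra.EssFiniteType B R := Algebra.EssFiniteType.comp B Z R
  haveI : Algebra.EssFiniteType k R := Algebra.EssFiniteType.comp k Z R
  have hxK : IsTranscendenceBasis B (fun a => algebraMap Y Z (M.x i a)) :=
    tb_over hdim (PF.alg_of_compositum hcomp) (M.tb i)
  have hch : Chart hxK (bc B Z (M.A i)) :=
    (chart_of_model M i).baseChange hxK (PF.gen_of_comp hcomp)
  have hnorm : nfo ρ m g = Algebra.norm Z (algebraMap R R
      (g * ∏ l, algebraMap Z R (ρ l) ^ m)) := by
    have h1 : g * ∏ l, algebraMap Z R (ρ l) ^ m = g * algebraMap Z R (∏ l, ρ l ^ m) := by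
      rw [map_prod]
      simp only [map_pow]
    rw [Algebra.algebraMap_self_apply, h1, map_mul, Algebra.norm_algebraMap, nfo,
      ← Finset.prod_pow]
    simp only [← pow_mul]
  rw [hnorm]
  refine norm_le_one hv.nontriv fun w hw => ?_
  have hv' : Fac.PrimeOn (bc B Z (M.A i)) (w.comap (algebraMap Z R)) := primeOn_of_equiv hv hw
  obtain ⟨hd, hr⟩ := hv'.div hch
  have hdimR : dimension B R = dimension B Z := by
    have h1 := card_eq_of_isTranscendenceBasis hxK
    have h2 := card_eq_of_isTranscendenceBasis (hxK.algebraMap_comp (A := R))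
    rw [← h1, ← h2]
  have hwB : IsDivisorial B R w := IsDivisorial.of_comap hdimR hd
  have hwk : IsDivisorial k R w := IsDivisorial.under hwB
  have hwtB : ∀ b : B, b ≠ 0 → w (algebraMap B R b) = 1 := hwB.const
  have hwtY : ∀ y : Y, y ≠ 0 → w (algebraMap Y R y) = 1 := by
    intro y hy
    rw [IsScalarTower.algebraMap_apply Y Z R]
    exact Fac.val_eq_one_of_equiv (w := v) (w' := w.comap (algebraMap Z R)) hw (htriv y hy)
  have hwY : IsDivisorial Y R w := Mov.IsDivisorial.over hwk hwtY
  have hreg : RegBasis Y (w.comap (algebraMap Z R)) (fun a => algebraMap B Z (x a)) :=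
    prime_reg hcomp hdim hv' hx
  have hg' : g ∈ WReg Y (fun i => algebraMap Z R (algebraMap B Z (x i))) m := by
    simpa only [← IsScalarTower.algebraMap_apply B Z R] using hg
  have hle1 := hρ.le_one w hwk hwtB hwtY
  rw [map_mul, map_prod]
  by_cases hU : Unr Z w
  · refine mul_le_one' (local_unramified hwY hreg hU hg') (Finset.prod_le_one' fun l _ => ?_)
    rw [map_pow]
    exact pow_le_one' (hle1 l) m
  · have hbad : Bad k M B Z i w := by
      refine ⟨hwk, hwtB, ⟨fun f hf => ?_, fun d hdd z hz => ?_⟩, hU⟩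
      · rcases eq_or_ne f 0 with rfl | hf0
        · rw [map_zero, map_zero]
          exact zero_le_one
        · exact (hwtY f hf0).le
      · rw [der_eq_sum hxK d z, map_sum]
        refine Valuation.map_sum_le _ fun c _ => ?_
        rw [map_mul, map_mul]
        refine mul_le_one' ?_ ?_
        · exact hr.der c z hz
        · exact hdd c
    obtain ⟨l₀, hl₀⟩ := hρ.lt_one i w hbad hwtY
    have h1 := local_ramified hwY hreg hl₀ hg'
    rw [← Finset.mul_prod_erase Finset.univ _ (Finset.mem_univ l₀), ← mul_assoc, map_pow]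
    refine mul_le_one' h1 (Finset.prod_le_one' fun l _ => ?_)
    rw [map_pow]
    exact pow_le_one' (hle1 l) m

theorem nfo_ne [CharZero Y] {M : SmoothModel k Y}
    {r : J → ℕ} {a : ∀ j, Fin (r j + 1) → B} {n : ℕ} {ρ : Fin n → Z} {jj : Fin n → J} {N : ℕ}
    (hρ : Rho k Y Z R M a ρ jj N) {m : ℕ} {g : R} (hg0 : g ≠ 0) : nfo ρ m g ≠ 0 := by
  refine mul_ne_zero ?_ (Finset.prod_ne_zero_iff.2 fun l _ => pow_ne_zero _ (hρ.ne l))
  rw [Ne, Algebra.norm_eq_zero_iff]
  exact hg0

theorem nfo_mem [CharZero Y] (hcomp : Twr.IsCompositum k B Y Z)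
    (hdim : dimension k B + dimension k Y = dimension k Z) {M : SmoothModel k Y}
    {r : J → ℕ} {a : ∀ j, Fin (r j + 1) → B} {n : ℕ} {ρ : Fin n → Z} {jj : Fin n → J} {N : ℕ}
    (hρ : Rho k Y Z R M a ρ jj N) {x : Fin (dimension k B) → B} (hx : IsTranscendenceBasis k x)
    {m : ℕ} {g : R} (hg : g ∈ WReg Y (fun i => algebraMap B R (x i)) m) (hg0 : g ≠ 0) :
    ∃ (p : ℕ) (y : Fin (p + 1) → Y) (h : Fin (p + 1) → B), LinearIndependent k y ∧
      LinearIndependent k h ∧ nfo ρ m g = ∑ l, algebraMap B Z (h l) * algebraMap Y Z (y l) := by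
  classical
  haveI : CharZero B := charZero_of_injective_algebraMap (algebraMap k B).injective
  obtain ⟨i, -⟩ := M.cover 1 (fun c hc => Valuation.one_apply_of_ne_zero (by simpa using hc))
  have hxK : IsTranscendenceBasis B (fun a => algebraMap Y Z (M.x i a)) :=
    tb_over hdim (PF.alg_of_compositum hcomp) (M.tb i)
  have hch : Chart hxK (bc B Z (M.A i)) :=
    (chart_of_model M i).baseChange hxK (PF.gen_of_comp hcomp)
  have hH0 : nfo ρ m g ≠ 0 := nfo_ne hρ hg0
  let b := Module.Basis.ofVectorSpace k B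
  obtain ⟨α, hα, γ, hγ, hγ0, hH⟩ := hch.frac (nfo ρ m g)
  obtain ⟨p, hp, hpe⟩ := mem_bc b hγ
  have hp0 : p ≠ 0 := by
    rintro rfl
    rw [Finsupp.sum_zero_index] at hpe
    exact hγ0 hpe
  obtain ⟨g₀, hg₀⟩ : ∃ g₀, p g₀ ≠ 0 := by
    by_contra hcon
    push Not at hcon
    exact hp0 (Finsupp.ext hcon)
  have hd0 : algebraMap Y Z (p g₀) ≠ 0 := by simpa using hg₀
  obtain ⟨s, hs⟩ := Fac.hartogs_away hch (Fac.mem_bc_of (B := B) (Z := Z) (hp g₀)) hd0
    (f := nfo ρ m g) (fun v hv hvd => by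
      by_cases hnt : ∃ y : Y, y ≠ 0 ∧ v (algebraMap Y Z y) ≠ 1
      · rw [hH, map_div₀, hpe, prime_gauss hcomp hdim hv hnt b hp hvd, div_one]
        exact hv.le _ hα
      · push Not at hnt
        exact nfo_le hcomp hdim hρ hx hg hv hnt)
  obtain ⟨q, hq, hqe⟩ := mem_bc b hs
  have hq0 : q ≠ 0 := by
    rintro rfl
    rw [Finsupp.sum_zero_index] at hqe
    exact mul_ne_zero (pow_ne_zero s hd0) hH0 hqe
  obtain ⟨r', s', a', hs', ha', -, he⟩ := Fac.exists_rank (Z := Z) b hq0
  have hds : (p g₀) ^ s ≠ 0 := pow_ne_zero s hg₀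
  refine ⟨r', fun l => s' l / (p g₀) ^ s, a', ?_, ha', ?_⟩
  · rw [Fintype.linearIndependent_iff] at hs' ⊢
    intro c hc
    refine hs' c ?_
    have h1 : ∑ l, c l • (s' l / (p g₀) ^ s) = (∑ l, c l • s' l) / (p g₀) ^ s := by
      rw [Finset.sum_div]
      exact Finset.sum_congr rfl fun l _ => by rw [smul_div_assoc]
    rw [h1, div_eq_zero_iff] at hc
    exact hc.resolve_right hds
  · have h1 : nfo ρ m g = (∑ l, algebraMap B Z (a' l) * algebraMap Y Z (s' l)) /
        algebraMap Y Z (p g₀) ^ s := by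
      rw [← he, ← hqe, mul_div_cancel_left₀ _ (pow_ne_zero s hd0)]
    rw [h1, Finset.sum_div]
    refine Finset.sum_congr rfl fun l _ => ?_
    rw [map_div₀, map_pow, mul_div_assoc]

end main

end Pf72953.Osp
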