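import Mathlib
import Pool.Agent.Lib.Pf72953z.DefsP
import Pool.Agent.Lib.Pf72953z.RGa
import Pool.Agent.Lib.Pf72953f.Rel
import Pool.Agent.Lib.Pf72953k.Bad

/-!
MODULE Pf72953z.UpB: the coefficients of the norm of a form over `Y` are forms on `B` tested at the Gauss valuations.
-/

set_option autoImplicit false
set_option linter.style.haveILetI false
set_option linter.unusedSectionVars false

open scoped WithZero
open Pf72953 Pf72953.Mov Pf72953.Up Pf72953.Br Pf72953.Fac

namespace Pf72953.Osp

variable {k B Y Z R J : Type*} [Field k] [CharZero k] [IsAlgClosed k] [Field B] [Field Y]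
  [Field Z] [Field R] [Algebra k B] [Algebra k Y] [Algebra k Z] [Algebra k R]
  [Algebra B Z] [Algebra B R] [Algebra Y Z] [Algebra Y R] [Algebra Z R] [IsScalarTower k B Z]
  [IsScalarTower k B R] [IsScalarTower k Y Z] [IsScalarTower k Y R] [IsScalarTower k Z R]
  [IsScalarTower B Z R] [IsScalarTower Y Z R] [Algebra.EssFiniteType k B]
  [Algebra.EssFiniteType k Y] [Algebra.EssFiniteType k Z] [FiniteDimensional Z R]

/-- a transcendence basis of `B` is one of `R/Y` -/
theorem tb_over_Y (hcomp : Twr.IsCompositum k B Y Z)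
    (hdim : dimension k B + dimension k Y = dimension k Z) {cB : Fin (dimension k B) → B}
    (hcB : IsTranscendenceBasis k cB) :
    IsTranscendenceBasis Y (fun i => algebraMap B R (cB i)) := by
  have h1 : IsTranscendenceBasis Y (fun i => algebraMap B Z (cB i)) :=
    Up.tb_over (by omega) (PF.alg_of_compositum (PF.IsCompositum.symm hcomp)) hcB
  have h2 := h1.algebraMap_comp (A := R)
  convert h2 using 1
  funext i
  simp [← IsScalarTower.algebraMap_apply B Z R]

/-- the logarithmic basis over `Y` at a Gauss valuation -/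
theorem RG.logBasis_Y [CharZero Y] (hcomp : Twr.IsCompositum k B Y Z)
    (hdim : dimension k B + dimension k Y = dimension k Z) {w : Valuation R ℤᵐ⁰}
    (hw : IsDivisorial k R w) (h : RG k Y B w) :
    ∃ (cB : Fin (dimension k B) → B), LogBasis k (w.comap (algebraMap B R)) cB ∧
      LogBasis Y w (fun i => algebraMap B R (cB i)) := by
  classical
  haveI : Algebra.EssFiniteType k R := Algebra.EssFiniteType.comp k Z R
  obtain ⟨x, hx⟩ := exists_tb k Y
  have hnt := h.nontriv hcomp hdim hw
  have hu : IsDivisorial k B (w.comap (algebraMap B R)) := hw.restrict hnt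
  obtain ⟨cB, tB, htB, hcB⟩ := hu.exists_adapted (ι := Fin (dimension k B)) (Fintype.card_fin _)
  have hlogB := hcB.logBasis (Fintype.card_fin _)
  obtain ⟨r, e, β, hβ, ht0, ht1, rfl⟩ := hcB
  refine ⟨_, hlogB, ?_⟩
  have h2 := h r β hβ x hx
  have had := adapted_sum e h2 ht0 ht1
  set cB := (fun o : Option (Fin r) => o.elim tB β) ∘ e with hcB
  have hcard : Fintype.card (Fin (dimension k B) ⊕ Fin (dimension k Y)) = dimension k R :=
    card_eq_of_isTranscendenceBasis (tb_BY (R := R) hcomp hdim hlogB.tb hx)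
  have hlog := had.logBasis hcard
  have htbY := tb_over_Y (R := R) hcomp hdim hlogB.tb
  refine ⟨htbY, fun i z => ?_⟩
  have h3 := hlog.der (Sum.inl i) z
  have h4 : pd hlog.tb (Sum.inl i) z = pd htbY i z := by
    have h5 := Fib.tb_rel hx htbY
    have h6 := Fib.pd_rel_inr hx htbY h5 i z
    rw [← h6]
    have h7 := pd_algebraMap (L := R) hlog.tb h5 (Equiv.sumComm _ _) (Equiv.sumComm _ _).injective
      (fun i => by rcases i with i | i <;> rfl) (Sum.inl i) z
    exact h7.symm
  rw [h4] at h3
  exact h3

/-- a conjugate of a form over `Y` at a Gauss valuation -/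
theorem conj_bound [CharZero Y] (hcomp : Twr.IsCompositum k B Y Z)
    (hdim : dimension k B + dimension k Y = dimension k Z) {w : Valuation R ℤᵐ⁰}
    (hw : IsDivisorial k R w) (h : RG k Y B w) {t : R} (ht : IsUnif w t)
    {x : Fin (dimension k B) → B} (hx : IsTranscendenceBasis k x) {m : ℕ} {g : R}
    (hg : g ∈ WReg Y (fun i => algebraMap B R (x i)) m) {cB : Fin (dimension k B) → B}
    (hcB : LogBasis k (w.comap (algebraMap B R)) cB)
    (hcY : LogBasis Y w (fun i => algebraMap B R (cB i))) (σ : R ≃ₐ[Z] R) :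
    w (σ g) * (w (algebraMap B R (jac hcB.tb x)) * ∏ i, w (algebraMap B R (cB i))) ^ m ≤
      w t ^ m := by
  classical
  haveI : Algebra.EssFiniteType k R := Algebra.EssFiniteType.comp k Z R
  haveI : Algebra.EssFiniteType Y R := Algebra.EssFiniteType.of_comp k Y R
  set w' : Valuation R ℤᵐ⁰ := w.comap (σ : R →+* R) with hw'
  have hval : ∀ z : R, w' z = w (σ z) := fun z => rfl
  have hB : ∀ b : B, σ (algebraMap B R b) = algebraMap B R b := by
    intro b
    rw [IsScalarTower.algebraMap_apply B Z R]
    exact σ.commutes _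
  have hY : ∀ y : Y, σ (algebraMap Y R y) = algebraMap Y R y := by
    intro y
    rw [IsScalarTower.algebraMap_apply Y Z R]
    exact σ.commutes _
  let σY : R ≃ₐ[Y] R := { (σ : R ≃+* R) with commutes' := hY }
  have hdivY : IsDivisorial Y R w :=
    Pf72953.Mov.IsDivisorial.over hw fun y hy => h.triv_left hw hy
  have hdiv' : IsDivisorial Y R w' := by
    refine ⟨fun c hc => ?_, ?_, ?_⟩
    · rw [hval, hY]
      exact hdivY.const c hc
    · obtain ⟨a, ha0, ha1⟩ := hdivY.nontrivial
      refine ⟨σ.symm a, by simpa using ha0, ?_⟩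
      rw [hval, AlgEquiv.apply_symm_apply]
      exact ha1
    · obtain ⟨ξ, hξ⟩ := hdivY.resid
      refine ⟨fun i => σY.symm (ξ i), fun p hp => ?_⟩
      have h1 : MvPolynomial.aeval (fun i => σY.symm (ξ i)) p =
          σY.symm (MvPolynomial.aeval ξ p) :=
        (MvPolynomial.comp_aeval_apply ξ (σY.symm : R →ₐ[Y] R) p).symm
      rw [h1, hval]
      have h2 : σ (σY.symm (MvPolynomial.aeval ξ p)) = MvPolynomial.aeval ξ p :=
        σY.apply_symm_apply _
      rw [h2]
      exact hξ p hp
  have hlog' : LogBasis Y w' (fun i => algebraMap B R (cB i)) := by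
    refine ⟨hcY.tb, fun i z => ?_⟩
    have h1 := hcY.der i (σ z)
    have h2 : pd hcY.tb i (σ z) = σ (pd hcY.tb i z) := by
      let D : Derivation Y R R := Derivation.mk'
        { toFun := fun z => σY.symm (pd hcY.tb i (σY z))
          map_add' := fun a b => by rw [map_add, map_add, map_add]
          map_smul' := fun y a => by
            rw [RingHom.id_apply, map_smul, Derivation.map_smul, map_smul] }
        (fun a b => by
          change σY.symm (pd hcY.tb i (σY (a * b))) = _
          rw [map_mul, Derivation.leibniz, smul_eq_mul, smul_eq_mul, map_add, map_mul, map_mul,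
            AlgEquiv.symm_apply_apply, AlgEquiv.symm_apply_apply]
          rfl)
      have h3 := der_eq_sum hcY.tb D z
      have h4 : ∀ j, D (algebraMap B R (cB j)) = if i = j then 1 else 0 := by
        intro j
        change σY.symm (pd hcY.tb i (σY (algebraMap B R (cB j)))) = _
        have h5 : σY (algebraMap B R (cB j)) = algebraMap B R (cB j) := hB _
        rw [h5]
        have h6 := pd_self hcY.tb i j
        rw [h6]
        split_ifs
        · exact map_one _
        · exact map_zero _
      simp only [h4, mul_ite, mul_one, mul_zero] at h3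
      rw [Finset.sum_ite_eq] at h3
      rw [if_pos (Finset.mem_univ i)] at h3
      have h7 : σY.symm (pd hcY.tb i (σY z)) = pd hcY.tb i z := h3
      have h8 := congrArg σY h7
      rw [AlgEquiv.apply_symm_apply] at h8
      exact h8
    rw [h2] at h1
    rw [hval, hval, map_mul, hB]
    exact h1
  obtain ⟨c, hc, t', ht0', ht1', hb⟩ := WReg.log_bound (tb_over_Y (R := R) hcomp hdim hx) hg hdiv'
  have hvol := hc.vol_eq hlog' (fun i => algebraMap B R (x i))
  rw [hvol] at hb
  have hjac : jac hlog'.tb (fun i => algebraMap B R (x i)) = algebraMap B R (jac hcB.tb x) :=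
    jac_base hcB.tb hlog'.tb x
  rw [hjac, hval, hval, hval, hB] at hb
  have hprod : ∏ i, w' (algebraMap B R (cB i)) = ∏ i, w (algebraMap B R (cB i)) :=
    Finset.prod_congr rfl fun i _ => by rw [hval, hB]
  rw [hprod] at hb
  refine hb.trans (pow_le_pow_left' (ht.le _ ?_) m)
  exact ht1'

variable [IsGalois Z R] [Fintype J]

/-- the coefficients of the norm -/
theorem nfo_comp [CharZero Y] (hcomp : Twr.IsCompositum k B Y Z)
    (hdim : dimension k B + dimension k Y = dimension k Z) {M : SmoothModel k Y} [DecidableEq J]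
    {r : J → ℕ} {a : ∀ j, Fin (r j + 1) → B} {n : ℕ} {ρ : Fin n → Z} {jj : Fin n → J} {N : ℕ}
    (hρ : Rho k Y Z R M a ρ jj N) {x : Fin (dimension k B) → B} (hx : IsTranscendenceBasis k x)
    {m : ℕ} {g : R} (hg : g ∈ WReg Y (fun i => algebraMap B R (x i)) m)
    {p : ℕ} {y : Fin (p + 1) → Y} {h : Fin (p + 1) → B} (hy : LinearIndependent k y)
    (hH : nfo ρ m g = ∑ l, algebraMap B Z (h l) * algebraMap Y Z (y l)) (l : Fin (p + 1)) :
    h l ∈ GForm k Y R a x (m * Module.finrank Z R)
      (fun j => ∑ l, if jj l = j then N * (m * Module.finrank Z R) else 0) := by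
  classical
  intro w hw hG t ht l₀ hl₀
  obtain ⟨cB, hcB, hcY⟩ := hG.logBasis_Y hcomp hdim hw
  refine ⟨cB, hcB, ?_⟩
  set V := w (algebraMap B R (jac hcB.tb x)) * ∏ i, w (algebraMap B R (cB i)) with hV
  -- the Gauss inequality
  have h1 : w (algebraMap B R (h l)) ≤ w (algebraMap Z R (nfo ρ m g)) := by
    have h2 := (hG.isGauss hcomp hdim hw) (p + 1) y h hy l
    rw [hH, map_sum]
    refine h2.trans_eq ?_
    congr 1
    refine Finset.sum_congr rfl fun j _ => ?_
    rw [map_mul, ← IsScalarTower.algebraMap_apply, ← IsScalarTower.algebraMap_apply]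
  -- the norm
  have hcardG : Fintype.card (R ≃ₐ[Z] R) = Module.finrank Z R := by
    rw [← Nat.card_eq_fintype_card]
    exact IsGalois.card_aut_eq_finrank Z R
  have h3 : w (algebraMap Z R (Algebra.norm Z g)) * V ^ (m * Module.finrank Z R) ≤
      w t ^ (m * Module.finrank Z R) := by
    rw [Algebra.norm_eq_prod_automorphisms, map_prod]
    have h4 : ∏ σ : R ≃ₐ[Z] R, (w (σ g) * V ^ m) ≤ ∏ _σ : R ≃ₐ[Z] R, w t ^ m :=
      Finset.prod_le_prod' fun σ _ => conj_bound hcomp hdim hw hG ht hx hg hcB hcY σ
    rw [Finset.prod_mul_distrib, Finset.prod_const, Finset.prod_const, Finset.card_univ, hcardG,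
      ← pow_mul, ← pow_mul] at h4
    exact h4
  -- the equations
  have h5 : w (algebraMap Z R (∏ l, ρ l ^ (m * Module.finrank Z R))) ≤
      ∏ j, w (algebraMap B R (a j (l₀ j))) ^
        (∑ l, if jj l = j then N * (m * Module.finrank Z R) else 0) := by
    have h6 : ∀ l : Fin n, ∏ j, w (algebraMap B R (a j (l₀ j))) ^
        (if jj l = j then N * (m * Module.finrank Z R) else 0) =
        w (algebraMap B R (a (jj l) (l₀ (jj l)))) ^ (N * (m * Module.finrank Z R)) := by
      intro l
      rw [Finset.prod_eq_single_of_mem (jj l) (Finset.mem_univ _) fun j _ hj => by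
        rw [if_neg (Ne.symm hj), pow_zero], if_pos rfl]
    have h7 : ∏ j, w (algebraMap B R (a j (l₀ j))) ^
        (∑ l, if jj l = j then N * (m * Module.finrank Z R) else 0) =
        ∏ l : Fin n, w (algebraMap B R (a (jj l) (l₀ (jj l)))) ^
          (N * (m * Module.finrank Z R)) := by
      rw [← Finset.prod_congr rfl fun l _ => h6 l, Finset.prod_comm]
      refine Finset.prod_congr rfl fun j _ => ?_
      rw [Finset.prod_pow_eq_pow_sum]
    rw [h7, map_prod, map_prod]
    refine Finset.prod_le_prod' fun l _ => ?_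
    rw [map_pow, map_pow, pow_mul _ N]
    exact pow_le_pow_left' (hρ.gauss w hw hG l (l₀ (jj l)) (hl₀ (jj l))) _
  calc w (algebraMap B R (h l)) * V ^ (m * Module.finrank Z R)
      ≤ w (algebraMap Z R (nfo ρ m g)) * V ^ (m * Module.finrank Z R) := by gcongr
    _ = (w (algebraMap Z R (Algebra.norm Z g)) * V ^ (m * Module.finrank Z R)) *
        w (algebraMap Z R (∏ l, ρ l ^ (m * Module.finrank Z R))) := by
        rw [nfo, map_mul, map_mul, mul_right_comm]
    _ ≤ _ := mul_le_mul' h3 h5

end Pf72953.Osp
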