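import Mathlib
import Pool.Agent.Lib.Pf72953z.DefsP
import Pool.Agent.Lib.Pf72953k.Bad
import Pool.Agent.Lib.Pf72953f.ExChart
import Pool.Agent.Lib.Pf72953j.Ram2
import Pool.Agent.Lib.Pf72953r.SubFG

/-!
Prime divisors of `Spec (B ⊗ Y)` (valuations trivial on `B` and `Y`) and embeddings of `Q` in `R` over `B` which change `Y` by
an algebraic extension.
-/

set_option autoImplicit false
set_option linter.style.haveILetI false

open scoped WithZero Polynomial
open Pf72953 Pf72953.Mov Pf72953.Up Pf72953.Br

namespace Pf72953.Osp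

/-- the coefficients of the minimal polynomial of an element algebraic over `Y` are algebraic over `Y` -/
theorem alg_der_minpoly {Y Z R : Type*} [Field Y] [Field Z] [Field R] [Algebra Y Z] [Algebra Y R]
    [Algebra Z R] [IsScalarTower Y Z R] {θ : R} (hθ : IsAlgebraic Y θ) :
    IsAlgebraic Y (Polynomial.aeval θ (Polynomial.derivative (minpoly Z θ))) := by
  let Ω := AlgebraicClosure R
  have hθZ : IsAlgebraic Z θ := hθ.tower_top (L := Z)
  set f : Polynomial Ω := (minpoly Z θ).map (algebraMap Z Ω) with hf
  have hm : f.Monic := (minpoly.monic hθZ.isIntegral).map _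
  have hroots : ∀ y : Ω, f.eval y = 0 → IsAlgebraic Y y := by
    intro y hy
    rw [hf, Polynomial.eval_map_algebraMap] at hy
    refine ⟨minpoly Y θ, minpoly.ne_zero hθ.isIntegral, ?_⟩
    obtain ⟨g, hg⟩ := minpoly.dvd_map_of_isScalarTower Y Z θ
    have h1 : Polynomial.aeval y ((minpoly Y θ).map (algebraMap Y Z)) = 0 := by
      rw [hg, map_mul, hy, zero_mul]
    rwa [Polynomial.aeval_map_algebraMap] at h1
  have h1 : f ∈ Polynomial.lifts (algebraMap (algebraicClosure Y Ω) Ω) := by
    refine (IsAlgClosed.splits _).mem_lift_of_roots_mem_range hm _ fun y hy => ?_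
    exact ⟨⟨y, mem_algebraicClosure_iff.2 (hroots y (Polynomial.mem_roots'.mp hy).2)⟩, rfl⟩
  obtain ⟨g, hg⟩ := (Polynomial.mem_lifts _).mp h1
  rw [← isAlgebraic_algebraMap_iff (A := Ω) (algebraMap R Ω).injective]
  have hθ' : IsAlgebraic Y (algebraMap R Ω θ) :=
    (isAlgebraic_algebraMap_iff (A := Ω) (algebraMap R Ω).injective).2 hθ
  let θ' : algebraicClosure Y Ω := ⟨algebraMap R Ω θ, mem_algebraicClosure_iff.2 hθ'⟩
  have h2 : algebraMap R Ω (Polynomial.aeval θ (Polynomial.derivative (minpoly Z θ))) =
      algebraMap (algebraicClosure Y Ω) Ω (Polynomial.aeval θ' (Polynomial.derivative g)) := by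
    rw [← Polynomial.aeval_algebraMap_apply, ← Polynomial.aeval_algebraMap_apply,
      ← Polynomial.eval_map_algebraMap, ← Polynomial.eval_map_algebraMap,
      ← Polynomial.derivative_map, ← Polynomial.derivative_map, hg]
    rfl
  rw [h2]
  exact mem_algebraicClosure_iff.1 (Polynomial.aeval θ' (Polynomial.derivative g)).2

section reg

variable {k B Y Z R : Type*} [Field k] [CharZero k] [Field B] [Field Y] [Field Z] [Field R]
  [Algebra k B] [Algebra k Y] [Algebra k Z] [Algebra k R] [Algebra B Z] [Algebra B R]
  [Algebra Y Z] [Algebra Y R] [Algebra Z R] [IsScalarTower k B Z] [IsScalarTower k B R]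
  [IsScalarTower k Y Z] [IsScalarTower k Y R] [IsScalarTower k Z R] [IsScalarTower B Z R]
  [IsScalarTower Y Z R] [Algebra.EssFiniteType k Z] [FiniteDimensional Z R]

/-- the vector fields over `Y` which are dual to a basis of `B` stay regular if `Z` is embedded in `R` by `g` -/
theorem reg_comp [CharZero Y] (hcomp : Twr.IsCompositum k B Y Z) {ι : Type*} [Fintype ι]
    {β : ι → B} (hβ : IsTranscendenceBasis Y (fun i => algebraMap B Z (β i)))
    {T : Valuation R ℤᵐ⁰} (hTY : ∀ y : Y, y ≠ 0 → T (algebraMap Y R y) = 1)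
    (hreg : ∀ a (z : Z), T (algebraMap Z R z) ≤ 1 → T (algebraMap Z R (pd hβ a z)) ≤ 1)
    (g : Z →+* R) (hgB : ∀ b : B, g (algebraMap B Z b) = algebraMap B R b)
    (hgY : ∀ y : Y, IsAlgebraic Y (g (algebraMap Y Z y))) (a : ι) (z : Z) (hz : T (g z) ≤ 1) :
    T (g (pd hβ a z)) ≤ 1 := by
  classical
  haveI : Algebra.EssFiniteType k R := Algebra.EssFiniteType.comp k Z R
  haveI : Algebra.EssFiniteType Y R := Algebra.EssFiniteType.of_comp k Y R
  haveI : CharZero Z := charZero_of_injective_algebraMap (algebraMap k Z).injective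
  set F : IntermediateField Y R := algebraicClosure Y R with hF
  haveI : Algebra.EssFiniteType Y F := Red.essFiniteType_sub Y F R
  haveI : FiniteDimensional Y F := Algebra.finite_of_essFiniteType_of_isAlgebraic
  obtain ⟨θ₀, hθ₀⟩ := Field.exists_primitive_element Y F
  set L : IntermediateField Z R := IntermediateField.adjoin Z {(θ₀ : R)} with hL
  have hθL : (θ₀ : R) ∈ L := IntermediateField.mem_adjoin_simple_self Z _
  have hFL : ∀ x : F, (x : R) ∈ L := by
    intro x
    have h3 : x ∈ IntermediateField.adjoin Y {θ₀} := hθ₀ ▸ IntermediateField.mem_top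
    induction h3 using IntermediateField.adjoin_induction with
    | mem x hx =>
      rw [Set.mem_singleton_iff] at hx
      subst hx
      exact hθL
    | algebraMap r =>
      have h4 : ((algebraMap Y F r : F) : R) = algebraMap Z R (algebraMap Y Z r) := by
        rw [← IsScalarTower.algebraMap_apply Y Z R]
        rfl
      rw [h4]
      exact L.algebraMap_mem _
    | add x y _ _ hx hy => exact add_mem hx hy
    | inv x _ hx => exact inv_mem hx
    | mul x y _ _ hx hy => exact mul_mem hx hy
  have hgL : ∀ z : Z, g z ∈ L := by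
    intro z
    have h3 := hcomp z
    induction h3 using IntermediateField.adjoin_induction with
    | mem x hx =>
      rcases hx with ⟨b, rfl⟩ | ⟨y, rfl⟩
      · rw [hgB, IsScalarTower.algebraMap_apply B Z R]
        exact L.algebraMap_mem _
      · exact hFL ⟨g (algebraMap Y Z y), mem_algebraicClosure_iff.2 (hgY y)⟩
    | algebraMap r =>
      rw [IsScalarTower.algebraMap_apply k B Z, hgB, IsScalarTower.algebraMap_apply B Z R]
      exact L.algebraMap_mem _
    | add x y _ _ hx hy => rw [map_add]; exact add_mem hx hy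
    | inv x _ hx => rw [map_inv₀]; exact inv_mem hx
    | mul x y _ _ hx hy => rw [map_mul]; exact mul_mem hx hy
  let gL : Z →+* L := g.codRestrict L.toSubfield.toSubring hgL
  have hgL' : ∀ z, algebraMap L R (gL z) = g z := fun _ => rfl
  haveI : FaithfulSMul Z L := (faithfulSMul_iff_algebraMap_injective _ _).2 (algebraMap Z L).injective
  haveI : IsScalarTower Y Z L := IsScalarTower.of_algebraMap_eq fun y => Subtype.ext
    (IsScalarTower.algebraMap_apply Y Z R y)
  haveI : IsScalarTower Y L R := IsScalarTower.of_algebraMap_eq fun y => by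
    rw [IsScalarTower.algebraMap_apply Y Z L, ← IsScalarTower.algebraMap_apply Z L R,
      ← IsScalarTower.algebraMap_apply Y Z R]
  have hβL : IsTranscendenceBasis Y (fun i => algebraMap Z L (algebraMap B Z (β i))) :=
    hβ.algebraMap_comp
  set w' : Valuation L ℤᵐ⁰ := T.comap (algebraMap L R) with hw'
  set θ : L := ⟨θ₀, hθL⟩ with hθ
  have hθY : IsAlgebraic Y (θ₀ : R) := mem_algebraicClosure_iff.1 θ₀.2
  have hD' : ∀ e : Z, w' (algebraMap Z L e) ≤ 1 → w' (pd hβL a (algebraMap Z L e)) ≤ 1 := by
    intro e he
    have h1 : pd hβL a (algebraMap Z L e) = algebraMap Z L (pd hβ a e) :=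
      pd_algebraMap hβ hβL id Function.injective_id (fun _ => rfl) a e
    rw [h1]
    rw [hw', Valuation.comap_apply, ← IsScalarTower.algebraMap_apply Z L R] at he ⊢
    exact hreg a e he
  have hint : IsIntegral (w'.comap (algebraMap Z L)).valuationSubring θ := by
    let f : Y →+* (w'.comap (algebraMap Z L)).valuationSubring :=
      (algebraMap Y Z).codRestrict _ (fun u => by
        show w' (algebraMap Z L (algebraMap Y Z u)) ≤ 1
        rw [hw', Valuation.comap_apply, ← IsScalarTower.algebraMap_apply Z L R,
          ← IsScalarTower.algebraMap_apply Y Z R]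
        by_cases h0 : u = 0
        · rw [h0, map_zero, map_zero]; exact zero_le_one
        · exact (hTY u h0).le)
    letI : Algebra Y (w'.comap (algebraMap Z L)).valuationSubring := f.toAlgebra
    haveI : IsScalarTower Y (w'.comap (algebraMap Z L)).valuationSubring L :=
      IsScalarTower.of_algebraMap_eq fun y => IsScalarTower.algebraMap_apply Y Z L y
    have h1 : IsAlgebraic Y θ := by
      rw [← isAlgebraic_algebraMap_iff (A := R) (algebraMap L R).injective]
      exact hθY
    exact h1.isIntegral.tower_top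
  have hadj : IntermediateField.adjoin Z {θ} = ⊤ := by
    have h1 : (IntermediateField.adjoin Z {θ}).map L.val =
        (⊤ : IntermediateField Z L).map L.val := by
      rw [IntermediateField.adjoin_map, Set.image_singleton, ← AlgHom.fieldRange_eq_map,
        IntermediateField.fieldRange_val]
      rfl
    exact IntermediateField.map_injective _ h1
  have hder : w' (Polynomial.aeval θ (Polynomial.derivative (minpoly Z θ))) = 1 := by
    have h1 : IsAlgebraic Z θ := by
      have h2 : IsAlgebraic Z (θ₀ : R) := hθY.tower_top (L := Z)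
      rw [← isAlgebraic_algebraMap_iff (A := R) (algebraMap L R).injective]
      exact h2
    have hne : Polynomial.aeval θ (Polynomial.derivative (minpoly Z θ)) ≠ 0 := by
      have h1 : (minpoly Z θ).Separable := (minpoly.irreducible h1.isIntegral).separable
      exact h1.aeval_derivative_ne_zero (minpoly.aeval Z θ)
    have h3 : minpoly Z θ = minpoly Z (θ₀ : R) := by
      have h4 := minpoly.algebraMap_eq (A := Z) (algebraMap L R).injective θ
      exact h4.symm
    refine val_eq_one_of_isIntegral (w := T) (B := Y) hTY (a := algebraMap L R (Polynomial.aeval θ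
      (Polynomial.derivative (minpoly Z θ)))) ?_ ?_
    · rwa [map_ne_zero]
    · rw [← Polynomial.aeval_algebraMap_apply, h3]
      exact (alg_der_minpoly hθY).isIntegral
  have hL1 : ∀ z : L, w' z ≤ 1 → w' (pd hβL a z) ≤ 1 := fun z hz =>
    der_le_one_of_etale w' (pd hβL a) hD' θ hadj hint hder hz
  -- the restriction of `g`
  have hpd : pd hβL a (gL z) = gL (pd hβ a z) := by
    have h1 := Tow.der_comp_eq hβ gL ((pd hβL a : L →+ L).comp (gL : Z →+ L)) (fun b c => by
      show pd hβL a (gL (b * c)) = gL b * pd hβL a (gL c) + gL c * pd hβL a (gL b)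
      rw [map_mul, Derivation.leibniz, smul_eq_mul, smul_eq_mul]) (fun y => by
      show pd hβL a (gL (algebraMap Y Z y)) = 0
      refine der_eq_zero_of_isAlgebraic (pd hβL a) ?_
      rw [← isAlgebraic_algebraMap_iff (A := R) (algebraMap L R).injective]
      exact hgY y) z
    have h2 : ∀ b, ((pd hβL a : L →+ L).comp (gL : Z →+ L)) (algebraMap B Z (β b)) =
        if a = b then 1 else 0 := by
      intro b
      show pd hβL a (gL (algebraMap B Z (β b))) = _
      have h3 : gL (algebraMap B Z (β b)) = algebraMap Z L (algebraMap B Z (β b)) := by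
        apply Subtype.ext
        show g (algebraMap B Z (β b)) = algebraMap Z R (algebraMap B Z (β b))
        rw [hgB, IsScalarTower.algebraMap_apply B Z R]
      rw [h3]
      exact pd_self hβL a b
    have h3 : pd hβL a (gL z) = ((pd hβL a : L →+ L).comp (gL : Z →+ L)) z := rfl
    rw [h3, h1, Finset.sum_eq_single a]
    · rw [h2, if_pos rfl, mul_one]
    · intro b _ hb
      rw [h2, if_neg (Ne.symm hb), mul_zero]
    · intro h
      exact absurd (Finset.mem_univ a) h
  have h1 := hL1 (gL z) hz
  rw [hpd] at h1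
  exact h1

end reg

section prime

variable {k B Y Z Q : Type*} [Field k] [CharZero k] [Field B] [Field Y] [Field Z] [Field Q]
  [Algebra k B] [Algebra k Y] [Algebra k Z] [Algebra k Q] [Algebra B Z] [Algebra B Q]
  [Algebra Y Z] [Algebra Y Q] [Algebra Z Q]
  [IsScalarTower k B Z] [IsScalarTower k B Q] [IsScalarTower k Y Z] [IsScalarTower k Y Q]
  [IsScalarTower k Z Q] [IsScalarTower B Z Q] [IsScalarTower Y Z Q]
  [Algebra.EssFiniteType k B] [Algebra.EssFiniteType k Z] [FiniteDimensional Z Q]

/-- the vector fields over `Y` which are dual to a basis of `B` are regular at a branch divisor -/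
theorem reg_of_bad [CharZero Y] (hcomp : Twr.IsCompositum k B Y Z)
    (hdim : dimension k B + dimension k Y = dimension k Z) {M : SmoothModel k Y} {i : M.I}
    {w : Valuation Q ℤᵐ⁰} (h : Bad k M B Z i w) {β : Fin (dimension k B) → B}
    (hβ : IsTranscendenceBasis k β)
    (hβZ : IsTranscendenceBasis Y (fun i => algebraMap B Z (β i))) (a) {z : Z}
    (hz : w (algebraMap Z Q z) ≤ 1) : w (algebraMap Z Q (pd hβZ a z)) ≤ 1 := by
  classical
  refine PF.bad_der hcomp hdim h hβ ((pd hβZ a).restrictScalars k) (fun b => ?_) (fun b => ?_) hz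
  · have h1 : ((pd hβZ a).restrictScalars k) (algebraMap Y Z (M.x i b)) = 0 :=
      (pd hβZ a).map_algebraMap _
    rw [h1, map_zero, map_zero]
    exact zero_le_one
  · have h1 : ((pd hβZ a).restrictScalars k) (algebraMap B Z (β b)) = if a = b then 1 else 0 :=
      pd_self hβZ a b
    rw [h1]
    split_ifs
    · rw [map_one, map_one]
    · rw [map_zero, map_zero]; exact zero_le_one

/-- a valuation which is trivial on `B` and on `Y` is over a prime divisor if the vector fields over `Y` which are dual to a
basis of `B` are regular -/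
theorem primeAt_of_reg [CharZero Y] [Algebra.EssFiniteType k Y] (hcomp : Twr.IsCompositum k B Y Z) {M : SmoothModel k Y}
    {w : Valuation Q ℤᵐ⁰} (hw : IsDivisorial k Q w)
    (hwB : ∀ b : B, b ≠ 0 → w (algebraMap B Q b) = 1)
    (hwY : ∀ y : Y, y ≠ 0 → w (algebraMap Y Q y) = 1) {ι : Type*} [Fintype ι] {β : ι → B}
    (hβ : IsTranscendenceBasis k β)
    (hβZ : IsTranscendenceBasis Y (fun i => algebraMap B Z (β i)))
    (hreg : ∀ a (z : Z), w (algebraMap Z Q z) ≤ 1 → w (algebraMap Z Q (pd hβZ a z)) ≤ 1)
    (i : M.I) : PrimeAt M B Z i w := by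
  have hY1 : ∀ y : Y, w (algebraMap Y Q y) ≤ 1 := fun y => by
    rcases eq_or_ne y 0 with rfl | hy
    · rw [map_zero, map_zero]; exact zero_le_one
    · exact (hwY y hy).le
  have hB1 : ∀ y : B, w (algebraMap B Q y) ≤ 1 := fun y => by
    rcases eq_or_ne y 0 with rfl | hy
    · rw [map_zero, map_zero]; exact zero_le_one
    · exact (hwB y hy).le
  refine ⟨fun f _ => hY1 f, fun d hd z hz => ?_⟩
  haveI : Algebra.EssFiniteType k Q := Algebra.EssFiniteType.comp k Z Q
  haveI : Algebra.EssFiniteType Y Z := Algebra.EssFiniteType.of_comp k Y Z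
  obtain ⟨A, hA⟩ := Fib.exists_chart hβ
  have hch : Chart hβZ (bc Y Z A) :=
    hA.baseChange hβZ (PF.gen_of_comp (PF.IsCompositum.symm hcomp))
  have hle : ∀ a ∈ bc Y Z A, w.comap (algebraMap Z Q) a ≤ 1 := by
    intro a ha
    rw [Valuation.comap_apply]
    induction ha using Algebra.adjoin_induction with
    | mem x hx =>
      obtain ⟨y, hy, rfl⟩ := hx
      rw [← IsScalarTower.algebraMap_apply B Z Q]
      exact hB1 y
    | algebraMap r =>
      rw [← IsScalarTower.algebraMap_apply Y Z Q]
      exact hY1 r
    | add u u' _ _ hu hu' =>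
      rw [map_add]
      exact (Valuation.map_add _ _ _).trans (max_le hu hu')
    | mul u u' hum hum' hu hu' =>
      rw [map_mul, map_mul]
      exact mul_le_one' hu hu'
  have hdiv : IsDivisorial Y Z (w.comap (algebraMap Z Q)) := by
    have h1 : IsDivisorial k Z (w.comap (algebraMap Z Q)) := hw.restrict (FinBadAux.nontriv hw)
    refine Pf72953.Mov.IsDivisorial.over h1 fun b hb => ?_
    rw [Valuation.comap_apply, ← IsScalarTower.algebraMap_apply Y Z Q]
    exact hwY b hb
  have hr : RegBasis Y (w.comap (algebraMap Z Q)) (fun i => algebraMap B Z (β i)) := by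
    refine ⟨hβZ, fun a => ?_, fun a z hz => hreg a z hz⟩
    rw [Valuation.comap_apply, ← IsScalarTower.algebraMap_apply B Z Q]
    exact hB1 _
  refine PF.der_of_chart (v := w.comap (algebraMap Z Q)) hch hdiv hr hle (d.restrictScalars k) ?_ hz
  intro a ha
  have hkey : ∀ a ∈ bc Y Z A, w (algebraMap Z Q a) ≤ 1 := hle
  induction ha using Algebra.adjoin_induction with
  | mem z hz =>
    obtain ⟨f, hf, rfl⟩ := hz
    have h1 : (d.restrictScalars k) (algebraMap B Z f) = 0 := d.map_algebraMap _
    rw [h1, map_zero]
    exact zero_le_one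
  | algebraMap r =>
    rw [PF.der_sum (M.tb i) (d.restrictScalars k) r, Valuation.comap_apply, map_sum]
    refine Valuation.map_sum_le _ fun a _ => ?_
    rw [map_mul, map_mul, ← IsScalarTower.algebraMap_apply Y Z Q]
    exact mul_le_one' (hY1 _) (hd a)
  | add u u' _ _ hu hu' =>
    rw [map_add]
    exact (Valuation.map_add _ _ _).trans (max_le hu hu')
  | mul u u' hum hum' hu hu' =>
    rw [Derivation.leibniz, smul_eq_mul, smul_eq_mul]
    refine (Valuation.map_add _ _ _).trans (max_le ?_ ?_)
    · rw [map_mul]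
      exact mul_le_one' (hle _ hum) hu'
    · rw [map_mul]
      exact mul_le_one' (hle _ hum') hu

end prime

end Pf72953.Osp
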