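import Mathlib
import Pool.Agent.Lib.Pf72953z.RhoA
import Pool.Agent.Lib.Pf72953z.RGa
import Pool.Agent.Lib.Pf72953b.Cover
import Pool.Agent.Lib.Pf72953b.RamOn

/-!
The functions `ρ_l` of the upper bound over `Y`: norms of the sections `∑ a_l s_l`, moved to `R`.
-/

set_option autoImplicit false
set_option linter.style.haveILetI false

open scoped WithZero
open Pf72953 Pf72953.Mov Pf72953.Up Pf72953.Br

namespace Pf72953.Osp

variable {k B Y Z Q R J : Type*} [Field k] [CharZero k] [IsAlgClosed k] [Field B] [Field Y] [Field Z]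
  [Field Q] [Field R] [Algebra k B] [Algebra k Y] [Algebra k Z] [Algebra k Q] [Algebra k R]
  [Algebra B Z] [Algebra B Q] [Algebra B R] [Algebra Y Z] [Algebra Y Q] [Algebra Y R]
  [Algebra Z Q] [Algebra Z R] [IsScalarTower k B Z] [IsScalarTower k B Q] [IsScalarTower k B R]
  [IsScalarTower k Y Z] [IsScalarTower k Y Q] [IsScalarTower k Y R] [IsScalarTower k Z Q]
  [IsScalarTower k Z R] [IsScalarTower B Z Q] [IsScalarTower B Z R] [IsScalarTower Y Z Q]
  [IsScalarTower Y Z R] [Algebra.EssFiniteType k B] [Algebra.EssFiniteType k Y]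
  [Algebra.EssFiniteType k Z] [FiniteDimensional Z Q] [IsGalois Z Q] [FiniteDimensional Z R]
  [IsGalois Z R] [Fintype J] {M : SmoothModel k Y}

/-- a branch divisor of `R`, trivial on `Y`, is moved to a branch divisor of `Q` -/
theorem bad_comap (hcomp : Twr.IsCompositum k B Y Z)
    (hdim : dimension k B + dimension k Y = dimension k Z) {i : M.I} {T : Valuation R ℤᵐ⁰}
    (hT : Bad k M B Z i T) (hTY : ∀ y : Y, y ≠ 0 → T (algebraMap Y R y) = 1)
    {φ : Q →ₐ[k] R} (hB : ∀ b : B, φ (algebraMap B Q b) = algebraMap B R b)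
    (hY : ∀ y : Y, IsAlgebraic Y (φ (algebraMap Y Q y)))
    (hdiv : IsDivisorial k Q (T.comap (φ : Q →+* R))) (hram : ¬ Unr Z (T.comap (φ : Q →+* R))) :
    Bad k M B Z i (T.comap (φ : Q →+* R)) := by
  haveI : CharZero Y := charZero_of_injective_algebraMap (algebraMap k Y).injective
  obtain ⟨β, hβ⟩ := exists_tb k B
  have hβZ : IsTranscendenceBasis Y (fun i => algebraMap B Z (β i)) :=
    tb_over (by omega) (PF.alg_of_compositum (PF.IsCompositum.symm hcomp)) hβ
  have hwB : ∀ b : B, b ≠ 0 → (T.comap (φ : Q →+* R)) (algebraMap B Q b) = 1 := by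
    intro b hb
    have h1 : (φ : Q →+* R) (algebraMap B Q b) = algebraMap B R b := hB b
    rw [Valuation.comap_apply, h1]
    exact hT.triv b hb
  have hwY : ∀ y : Y, y ≠ 0 → (T.comap (φ : Q →+* R)) (algebraMap Y Q y) = 1 := by
    intro y hy
    rw [Valuation.comap_apply]
    refine val_eq_one_of_isIntegral (B := Y) hTY ?_ (hY y).isIntegral
    rw [map_ne_zero, map_ne_zero]
    exact hy
  refine ⟨hdiv, hwB, primeAt_of_reg hcomp hdiv hwB hwY hβ hβZ (fun a z hz => ?_) i, hram⟩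
  have h1 := reg_comp hcomp hβZ hTY (fun a z hz => reg_of_bad hcomp hdim hT hβ hβZ a hz)
    ((φ : Q →+* R).comp (algebraMap Z Q)) (fun b => ?_) (fun y => ?_) a z hz
  · exact h1
  · show φ (algebraMap Z Q (algebraMap B Z b)) = _
    rw [← IsScalarTower.algebraMap_apply B Z Q]
    exact hB b
  · show IsAlgebraic Y (φ (algebraMap Z Q (algebraMap Y Z y)))
    rw [← IsScalarTower.algebraMap_apply Y Z Q]
    exact hY y

/-- a conjugate of the section `∑ a_l s_l` -/
theorem conj_le (D : WDiv M B) {φ : Q →ₐ[k] R}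
    (hB : ∀ b : B, φ (algebraMap B Q b) = algebraMap B R b)
    (hY : ∀ y : Y, IsAlgebraic Y (φ (algebraMap Y Q y))) (τ : R ≃ₐ[Z] R) {w : Valuation R ℤᵐ⁰}
    (hwY : ∀ y : Y, y ≠ 0 → w (algebraMap Y R y) = 1) {c : ℤᵐ⁰}
    (hc : ∀ l, w (algebraMap B R (D.a l)) ≤ c) : w (τ (φ (D.sec Q))) ≤ c := by
  rw [WDiv.sec, map_sum, map_sum]
  refine Valuation.map_sum_le _ fun l _ => ?_
  have h1 : τ (algebraMap B R (D.a l)) = algebraMap B R (D.a l) := by
    rw [IsScalarTower.algebraMap_apply B Z R, AlgEquiv.commutes]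
  rw [map_mul, map_mul, map_mul, hB, h1]
  refine mul_le_of_le_one_right' ?_ |>.trans (hc l)
  by_cases h0 : τ (φ (algebraMap Y Q (D.s l))) = 0
  · rw [h0, map_zero]; exact zero_le_one
  · refine (val_eq_one_of_isIntegral (B := Y) hwY h0 ?_).le
    have h2 : IsAlgebraic Y (τ (φ (algebraMap Y Q (D.s l)))) := by
      have h3 := (hY (D.s l)).algHom ((τ : R →ₐ[Z] R).restrictScalars Y)
      exact h3
    exact h2.isIntegral

theorem exists_rho (hcomp : Twr.IsCompositum k B Y Z)
    (hdim : dimension k B + dimension k Y = dimension k Z) (D : J → WDiv M B)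
    (hcov : ∀ (i : M.I) (w : Valuation Q ℤᵐ⁰), Bad k M B Z i w →
      ∃ j, w ((D j).toMov Q).sec < w (algebraMap Y Q ((D j).S.gen i)))
    (hR : CondY k Y B Z Q R) :
    ∃ (n : ℕ) (ρ : Fin n → Z) (jj : Fin n → J) (N : ℕ),
      Rho k Y Z R M (fun j => (D j).a) ρ jj N := by
  classical
  haveI : CharZero B := charZero_of_injective_algebraMap (algebraMap k B).injective
  haveI : Algebra.EssFiniteType k Q := Algebra.EssFiniteType.comp k Z Q
  haveI : Algebra.EssFiniteType k R := Algebra.EssFiniteType.comp k Z R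
  have hxW : ∀ j, IsTranscendenceBasis B (fun a => algebraMap Y Z (M.x j a)) := fun j =>
    Up.tb_over hdim (PF.alg_of_compositum hcomp) (M.tb j)
  obtain ⟨m, T, I, hT, hfin⟩ := Br.exists_finite_conj (k := k) (B := B) (Y := Y) (Z := Z) (P := R)
    M hxW (PF.gen_of_comp hcomp)
  let G : Type := {l : Fin m // ∀ y : Y, y ≠ 0 → T l (algebraMap Y R y) = 1}
  have hG : ∀ l : G, ∃ (φ : Q →ₐ[k] R) (j : J), (∀ b : B, φ (algebraMap B Q b) = algebraMap B R b) ∧
      (∀ y : Y, IsAlgebraic Y (φ (algebraMap Y Q y))) ∧ T l.1 (φ ((D j).sec Q)) < 1 := by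
    intro l
    obtain ⟨φ, h1, h2, h3, h4⟩ := hR (T l.1) (hT l.1).div l.2 (hT l.1).ram
    have hbad := bad_comap hcomp hdim (hT l.1) l.2 h1 h2 h3 h4
    obtain ⟨j, hj⟩ := hcov _ _ hbad
    refine ⟨φ, j, h1, h2, ?_⟩
    have h5 : (T l.1).comap (φ : Q →+* R) (algebraMap Y Q ((D j).S.gen (I l.1))) = 1 := by
      rw [Valuation.comap_apply]
      refine val_eq_one_of_isIntegral (B := Y) l.2 ?_ (h2 _).isIntegral
      rw [map_ne_zero, map_ne_zero]
      exact (D j).S.ne _
    rw [h5] at hj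
    exact hj
  choose φ jj hB hY hlt using hG
  let e := Fintype.equivFin G
  have hsec : ∀ j, (D j).sec Q ≠ 0 := by
    intro j
    obtain ⟨i, -⟩ := M.cover 1 (fun c hc => Valuation.one_apply_of_ne_zero (by simpa using hc))
    have h1 : IsTranscendenceBasis B (fun a => algebraMap Y Q (M.x i a)) := by
      haveI : FaithfulSMul Z Q := (faithfulSMul_iff_algebraMap_injective _ _).2
        (algebraMap Z Q).injective
      have h2 : IsTranscendenceBasis B (fun a => algebraMap Z Q (algebraMap Y Z (M.x i a))) :=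
        (hxW i).algebraMap_comp
      simpa only [← IsScalarTower.algebraMap_apply Y Z Q] using h2
    exact RamOnAux.sec_ne' (N := Q) ((D j).toMov Q) i h1
  have hnorm : ∀ l : G, algebraMap Z R (Algebra.norm Z (φ l ((D (jj l)).sec Q))) =
      ∏ τ : R ≃ₐ[Z] R, τ (φ l ((D (jj l)).sec Q)) := fun l =>
    Algebra.norm_eq_prod_automorphisms Z _
  refine ⟨Fintype.card G, fun l => Algebra.norm Z (φ (e.symm l) ((D (jj (e.symm l))).sec Q)),
    fun l => jj (e.symm l), Fintype.card (R ≃ₐ[Z] R), ?_, ?_, ?_, ?_⟩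
  · intro l
    rw [Ne, Algebra.norm_eq_zero_iff]
    rw [map_eq_zero]
    exact hsec _
  · intro w hw hwB hwY l
    rw [hnorm, map_prod]
    refine Finset.prod_le_one' fun τ _ => ?_
    refine conj_le _ (hB _) (hY _) τ hwY fun l' => ?_
    by_cases h0 : (D (jj (e.symm l))).a l' = 0
    · rw [h0, map_zero, map_zero]; exact zero_le_one
    · exact (hwB _ h0).le
  · intro i w hw hwY
    obtain ⟨l, hl⟩ := hfin i w hw
    have heq : w.IsEquiv (T l) := Valuation.isEquiv_iff_val_le_one.2 (fun {z} => hl z)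
    have hl' : ∀ y : Y, y ≠ 0 → T l (algebraMap Y R y) = 1 := fun y hy =>
      (Valuation.isEquiv_iff_val_eq_one.1 heq).1 (hwY y hy)
    refine ⟨e ⟨l, hl'⟩, ?_⟩
    rw [Equiv.symm_apply_apply]
    refine (Valuation.isEquiv_iff_val_lt_one.1 heq).2 ?_
    rw [hnorm, map_prod]
    rw [← Finset.mul_prod_erase Finset.univ _ (Finset.mem_univ (1 : R ≃ₐ[Z] R))]
    refine mul_lt_one_of_lt_of_le ?_ (Finset.prod_le_one' fun τ _ => ?_)
    · exact hlt ⟨l, hl'⟩
    · refine conj_le _ (hB _) (hY _) τ hl' fun l' => ?_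
      by_cases h0 : (D (jj ⟨l, hl'⟩)).a l' = 0
      · rw [h0, map_zero, map_zero]; exact zero_le_one
      · exact ((hT l).triv _ h0).le
  · intro w hw hg l l₀ hmax
    rw [hnorm, map_prod]
    refine (Finset.prod_le_pow_card _ _ (w (algebraMap B R ((D (jj (e.symm l))).a l₀)))
      fun τ _ => ?_).trans (le_of_eq ?_)
    · exact conj_le _ (hB _) (hY _) τ (fun y hy => hg.triv_left hw hy) hmax
    · rw [Finset.card_univ]

end Pf72953.Osp
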