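import Mathlib
import Pool.Agent.Lib.Pf72953z.CoreA
import Pool.Agent.Lib.Pf72953z.Gauss
import Pool.Agent.Lib.Pf72953z.Prime

/-!
MODULE Pf72953z.Core: a prime divisor of `M` over `B` is the support of the divisor of a section `∑ a_l s_l` of a line
bundle on `M`, if the charts of `M` are factorial and the prime divisors of the charts over `B` are set-theoretically
principal.
-/

set_option autoImplicit false
set_option linter.style.haveILetI false
set_option linter.unusedSectionVars false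

open scoped WithZero
open Pf72953 Pf72953.Mov Pf72953.Up

namespace Pf72953.Fac

section basic

variable {k B Y Z : Type*} [Field k] [Field B] [Field Y] [Field Z] [Algebra k Y] [Algebra B Z]
  [Algebra Y Z] {M : SmoothModel k Y}

theorem le_bc_of {A : Subalgebra k Y} {W : Valuation Z ℤᵐ⁰}
    (hA : ∀ y ∈ A, W (algebraMap Y Z y) ≤ 1) (hB : ∀ b : B, b ≠ 0 → W (algebraMap B Z b) = 1) :
    ∀ f ∈ bc B Z A, W f ≤ 1 := by
  intro f hf
  induction hf using Algebra.adjoin_induction with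
  | mem x hx =>
    obtain ⟨y, hy, rfl⟩ := hx
    exact hA y hy
  | algebraMap r =>
    rcases eq_or_ne r 0 with rfl | hr
    · simp
    · exact (hB r hr).le
  | add x y _ _ hx hy => exact (Valuation.map_add _ _ _).trans (max_le hx hy)
  | mul x y _ _ hx hy =>
    rw [map_mul]
    exact mul_le_one' hx hy

theorem section_sum {S : LineBundle M} {ι' : Type*} (s : Finset ι') (c : ι' → k) (f : ι' → Y)
    (h : ∀ i ∈ s, f i ∈ S.sections) : ∑ i ∈ s, c i • f i ∈ S.sections := by
  classical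
  intro j
  induction s using Finset.induction_on with
  | empty => exact ⟨0, zero_mem _, by simp⟩
  | insert a s ha ih =>
    obtain ⟨g, hg, hgs⟩ := ih fun i hi => h i (Finset.mem_insert_of_mem hi)
    obtain ⟨g', hg', hg's⟩ := h a (Finset.mem_insert_self _ _) j
    refine ⟨c a • g' + g, add_mem ((M.A j).smul_mem hg' _) hg, ?_⟩
    rw [Finset.sum_insert ha, hgs, hg's, add_mul, smul_mul_assoc]

end basic

variable {k B Y Z : Type*} [Field k] [CharZero k] [IsAlgClosed k] [Field B] [CharZero B] [Field Y]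
  [CharZero Y] [Field Z]
  [Algebra k B] [Algebra k Y] [Algebra k Z] [Algebra B Z] [Algebra Y Z] [IsScalarTower k B Z]
  [IsScalarTower k Y Z] [Algebra.EssFiniteType k B] [Algebra.EssFiniteType k Y]
  [Algebra.EssFiniteType k Z] {M : SmoothModel k Y}

/-- The quotient of the equations on two charts is, on the chart `i`, a unit times an element of `Y`. -/
theorem exists_ratio (hM : Glued M) (hdim : dimension k Y + dimension k B = dimension k Z)
    (hgen : ∀ z : Z, z ∈ IntermediateField.adjoin B (Set.range (algebraMap Y Z)))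
    (hx : ∀ i, IsTranscendenceBasis B (fun a => algebraMap Y Z (M.x i a)))
    (hU : ∀ i, UniqueFactorizationMonoid (M.A i)) {w : Valuation Z ℤᵐ⁰} {c : ℤᵐ⁰} {p : M.I → Z}
    (hp : ∀ i, p i ∈ bc B Z (M.A i) ∧ p i ≠ 0 ∧
      ((∀ f ∈ bc B Z (M.A i), w f ≤ 1) → w (p i) = c) ∧
      ∀ w' : Valuation Z ℤᵐ⁰, PrimeOn (bc B Z (M.A i)) w' → w' (p i) < 1 →
        (∀ f ∈ bc B Z (M.A i), w f ≤ 1) ∧ ∀ z, w' z ≤ 1 ↔ w z ≤ 1) (i i₀ : M.I) :
    ∃ G : Y, G ≠ 0 ∧ ∃ u ∈ bc B Z (M.A i), ∃ u' ∈ bc B Z (M.A i), u * u' = 1 ∧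
      p i = p i₀ * u * algebraMap Y Z G := by
  classical
  have hch : Chart (hx i) (bc B Z (M.A i)) := (chart_of_model M i).baseChange (hx i) hgen
  obtain ⟨d, hd, hd0, hden⟩ := exists_den B Z M i i₀
  have hdZ : algebraMap Y Z d ∈ bc B Z (M.A i) := mem_bc_of hd
  have hdZ0 : algebraMap Y Z d ≠ 0 := by simpa using hd0
  have hcmp : ∀ v : Valuation Z ℤᵐ⁰, PrimeOn (bc B Z (M.A i)) v → v (algebraMap Y Z d) = 1 →
      v (p i) = v (p i₀) := fun v hv hv1 => compare hM hp hv (hden v hv.le hv1)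
  obtain ⟨n, hn⟩ := hartogs_away hch hdZ hdZ0 (f := p i / p i₀) (fun v hv hv1 => by
    rw [map_div₀, hcmp v hv hv1, div_self ((Valuation.ne_zero_iff v).mpr (hp i₀).2.1)])
  obtain ⟨m, hm⟩ := hartogs_away hch hdZ hdZ0 (f := p i₀ / p i) (fun v hv hv1 => by
    rw [map_div₀, hcmp v hv hv1, div_self ((Valuation.ne_zero_iff v).mpr (hp i₀).2.1)])
  have hprod : (algebraMap Y Z d ^ n * (p i / p i₀)) * (algebraMap Y Z d ^ m * (p i₀ / p i)) =
      algebraMap Y Z (d ^ (n + m)) := by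
    rw [map_pow, pow_add]
    have h1 := (hp i).2.1
    have h2 := (hp i₀).2.1
    field_simp
  obtain ⟨g, hg, hg0, u, hu, u', hu', huu, hr⟩ := split_bc (A := M.A i) hdim hgen (M.frac i)
    (hc := pow_mem hd (n + m)) (pow_ne_zero _ hd0) hn hm hprod
  refine ⟨g / d ^ n, div_ne_zero hg0 (pow_ne_zero _ hd0), u, hu, u', hu', huu, ?_⟩
  rw [map_div₀, map_pow]
  have h2 := (hp i₀).2.1
  have h3 : p i / p i₀ = u * algebraMap Y Z g / algebraMap Y Z d ^ n := by
    rw [← hr, mul_div_cancel_left₀ _ (pow_ne_zero _ hdZ0)]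
  rw [mul_assoc, ← mul_div_assoc, ← h3, mul_div_cancel₀ _ h2]

/-- a valuation of `Y` centred on two charts, extended by Gauss, has the same value at the two equations -/
theorem gauss_eq (hM : Glued M)
    (hgen : ∀ z : Z, z ∈ IntermediateField.adjoin B (Set.range (algebraMap Y Z)))
    (hx : ∀ i, IsTranscendenceBasis B (fun a => algebraMap Y Z (M.x i a)))
    {w : Valuation Z ℤᵐ⁰} {c : ℤᵐ⁰} {p : M.I → Z}
    (hp : ∀ i, p i ∈ bc B Z (M.A i) ∧ p i ≠ 0 ∧
      ((∀ f ∈ bc B Z (M.A i), w f ≤ 1) → w (p i) = c) ∧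
      ∀ w' : Valuation Z ℤᵐ⁰, PrimeOn (bc B Z (M.A i)) w' → w' (p i) < 1 →
        (∀ f ∈ bc B Z (M.A i), w f ≤ 1) ∧ ∀ z, w' z ≤ 1 ↔ w z ≤ 1) (i j : M.I)
    {W : Valuation Z ℤᵐ⁰} (hi : ∀ f ∈ bc B Z (M.A i), W f ≤ 1)
    (hj : ∀ f ∈ bc B Z (M.A j), W f ≤ 1) : W (p i) = W (p j) := by
  classical
  have key : ∀ i j : M.I, (∀ f ∈ bc B Z (M.A i), W f ≤ 1) → (∀ f ∈ bc B Z (M.A j), W f ≤ 1) →
      W (p i) ≤ W (p j) := by
    intro i j hi hj
    have hch : Chart (hx j) (bc B Z (M.A j)) := (chart_of_model M j).baseChange (hx j) hgen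
    by_cases h : ∃ a ∈ bc B Z (M.A j), ∃ b ∈ bc B Z (M.A j), W b = 1 ∧ p i / p j = a / b
    · obtain ⟨a, ha, b, hb, hb1, hab⟩ := h
      have h1 : W (p i / p j) ≤ 1 := by
        rw [hab, map_div₀, hb1, div_one]
        exact hj a ha
      rw [map_div₀, div_le_one₀ ((Valuation.pos_iff W).mpr (hp j).2.1)] at h1
      exact h1
    · exfalso
      obtain ⟨v', hv', hv1, hv2⟩ := hartogs_loc hch W hj h
      have hci : ∀ f ∈ bc B Z (M.A i), v' f ≤ 1 := by
        intro f hf
        obtain ⟨a, ha, b, hb, hb1, rfl⟩ := hM.frac hi hj hf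
        rw [map_div₀, hv2 b hb hb1, div_one]
        exact hv'.le a ha
      have h2 := compare hM hp hv' hci
      rw [map_div₀, ← h2, div_self ((Valuation.ne_zero_iff v').mpr (hp j).2.1)] at hv1
      exact lt_irrefl _ hv1
  exact le_antisymm (key i j hi hj) (key j i hj hi)

/-- Every prime divisor of `M` over `B` is the support of the divisor of a section `∑ a_l s_l`. -/
theorem core (hM : Glued M) (hdim : dimension k Y + dimension k B = dimension k Z)
    (hgen : ∀ z : Z, z ∈ IntermediateField.adjoin B (Set.range (algebraMap Y Z)))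
    (hx : ∀ i, IsTranscendenceBasis B (fun a => algebraMap Y Z (M.x i a)))
    (hU : ∀ i, UniqueFactorizationMonoid (M.A i)) (hQ : ∀ i, QF (bc B Z (M.A i)))
    {i₀ : M.I} {w : Valuation Z ℤᵐ⁰} (hw : PrimeOn (bc B Z (M.A i₀)) w) :
    ∃ (S : LineBundle M) (r : ℕ) (s : Fin (r + 1) → Y) (a : Fin (r + 1) → B),
      (∀ l, s l ∈ S.sections) ∧ LinearIndependent k s ∧ LinearIndependent k a ∧
      w (∑ l, algebraMap B Z (a l) * algebraMap Y Z (s l)) < w (algebraMap Y Z (S.gen i₀)) ∧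
      ∀ (i : M.I) (w' : Valuation Z ℤᵐ⁰), PrimeOn (bc B Z (M.A i)) w' →
        w' (∑ l, algebraMap B Z (a l) * algebraMap Y Z (s l)) < w' (algebraMap Y Z (S.gen i)) →
        ∀ z, w' z ≤ 1 ↔ w z ≤ 1 := by
  classical
  obtain ⟨c, p, hc1, hp⟩ := exists_eqns hM hQ hw
  choose G hG0 u hu u' hu' huu hpG using fun i => exists_ratio hM hdim hgen hx hU hp i i₀
  have hmapne : ∀ {y : Y}, y ≠ 0 → algebraMap Y Z y ≠ 0 := fun h => by simpa using h
  have hu1 : ∀ i (W : Valuation Z ℤᵐ⁰), (∀ f ∈ bc B Z (M.A i), W f ≤ 1) → W (u i) = 1 :=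
    fun i W hW => val_unit (hW _ (hu i)) (hW _ (hu' i)) (huu i)
  have hu1' : ∀ i (W : Valuation Z ℤᵐ⁰), (∀ f ∈ bc B Z (M.A i), W f ≤ 1) → W (u' i) = 1 :=
    fun i W hW => val_unit (hW _ (hu' i)) (hW _ (hu i)) (by rw [mul_comm]; exact huu i)
  -- the line bundle
  let S : LineBundle M :=
    { gen := fun i => (G i)⁻¹
      ne := fun i => inv_ne_zero (hG0 i)
      compat := by
        intro i j v hi hj
        have hk : ∀ c : k, c ≠ 0 → v (algebraMap k Y c) = 1 := by
          intro c hc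
          refine val_unit (hi _ ((M.A i).algebraMap_mem c)) (hi _ ((M.A i).algebraMap_mem c⁻¹)) ?_
          rw [← map_mul, mul_inv_cancel₀ hc, map_one]
        obtain ⟨W, hW1, hW2, -⟩ := exists_gaussB hdim hgen hk
        have hi' : ∀ f ∈ bc B Z (M.A i), W f ≤ 1 :=
          le_bc_of (fun y hy => by rw [hW1]; exact hi y hy) hW2
        have hj' : ∀ f ∈ bc B Z (M.A j), W f ≤ 1 :=
          le_bc_of (fun y hy => by rw [hW1]; exact hj y hy) hW2
        have h1 := gauss_eq hM hgen hx hp i j hi' hj'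
        rw [hpG i, hpG j, map_mul, map_mul, map_mul, map_mul, hu1 i W hi', hu1 j W hj', mul_one,
          hW1, hW1] at h1
        have h2 : v (G i) = v (G j) :=
          mul_left_cancel₀ ((Valuation.ne_zero_iff W).mpr (hp i₀).2.1) h1
        rw [map_inv₀, map_inv₀, h2] }
  have hSgen : ∀ i, S.gen i = (G i)⁻¹ := fun _ => rfl
  -- the section
  have hσ : ∀ i, p i₀ = (p i * u' i) * algebraMap Y Z (S.gen i) := by
    intro i
    rw [hSgen, map_inv₀]
    have h1 : p i * u' i = p i₀ * algebraMap Y Z (G i) := by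
      rw [hpG i]
      calc p i₀ * u i * algebraMap Y Z (G i) * u' i
          = p i₀ * algebraMap Y Z (G i) * (u i * u' i) := by ring
        _ = _ := by rw [huu, mul_one]
    rw [h1, mul_assoc, mul_inv_cancel₀ (hmapne (hG0 i)), mul_one]
  let b := Module.Basis.ofVectorSpace k B
  have hlin : LinearIndependent Y (fun g => algebraMap B Z (b g)) :=
    linearIndependent_const (M.tb i₀) (hx i₀) b.linearIndependent
  haveI : Nonempty M.I := ⟨i₀⟩
  obtain ⟨q, hq, hqmem⟩ := descent b hlin M.A S.gen (P := p i₀) fun i =>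
    ⟨p i * u' i, mul_mem (hp i).1 (hu' i), hσ i⟩
  have hq0 : q ≠ 0 := by
    rintro rfl
    rw [Finsupp.sum_zero_index] at hq
    exact (hp i₀).2.1 hq
  obtain ⟨r, s, a, hs, ha, hspan, hsum⟩ := exists_rank (Z := Z) b hq0
  refine ⟨S, r, s, a, fun l => ?_, hs, ha, ?_, fun i w' hw' hlt => ?_⟩
  · have hl := hspan l
    rw [Finsupp.mem_span_range_iff_exists_finsupp] at hl
    obtain ⟨t, ht⟩ := hl
    rw [← ht, Finsupp.sum]
    exact section_sum _ _ _ fun g _ i => hqmem i g
  · rw [← hsum, ← hq]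
    have h1 : w (p i₀) < 1 := by
      rw [(hp i₀).2.2.1 hw.le]
      exact hc1
    have h2 : w (algebraMap Y Z (S.gen i₀)) = 1 := by
      have h3 := hpG i₀
      have h4 : u i₀ * algebraMap Y Z (G i₀) = 1 := by
        have h5 : p i₀ * (u i₀ * algebraMap Y Z (G i₀)) = p i₀ * 1 := by
          rw [mul_one, ← mul_assoc]
          exact h3.symm
        exact mul_left_cancel₀ (hp i₀).2.1 h5
      have h6 : w (u i₀) * w (algebraMap Y Z (G i₀)) = 1 := by
        rw [← map_mul, h4, map_one]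
      rw [hu1 i₀ w hw.le, one_mul] at h6
      rw [hSgen, map_inv₀, map_inv₀, h6, inv_one]
    rw [h2]
    exact h1
  · rw [← hsum, ← hq, hσ i, map_mul] at hlt
    have hne : w' (algebraMap Y Z (S.gen i)) ≠ 0 :=
      (Valuation.ne_zero_iff w').mpr (hmapne (S.ne i))
    have h1 : w' (p i * u' i) < 1 := by
      by_contra hcon
      push Not at hcon
      have h2 : w' (algebraMap Y Z (S.gen i)) ≤
          w' (p i * u' i) * w' (algebraMap Y Z (S.gen i)) := le_mul_of_one_le_left zero_le hcon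
      exact absurd hlt (not_lt.mpr h2)
    rw [map_mul, hu1' i w' hw'.le, mul_one] at h1
    exact ((hp i).2.2.2 w' hw' h1).2

end Pf72953.Fac
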