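import Mathlib

/-!
Algebraically closed fields of infinite transcendence degree are isomorphic to their algebraically closed extensions of finite
transcendence degree, by an isomorphism which is the identity on a given finite set.
-/

set_option autoImplicit false
set_option linter.style.haveILetI false

namespace Pf72953.Fac

/-- algebraically closed extensions of `F` with equipotent transcendence bases are isomorphic over `F` -/
theorem exists_equiv_of_tb {F Ω₁ Ω₂ ι₁ ι₂ : Type*} [Field F] [Field Ω₁] [Field Ω₂] [IsAlgClosed Ω₁]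
    [IsAlgClosed Ω₂] [Algebra F Ω₁] [Algebra F Ω₂] {x : ι₁ → Ω₁} {y : ι₂ → Ω₂}
    (hx : IsTranscendenceBasis F x) (hy : IsTranscendenceBasis F y) (f : ι₁ ≃ ι₂) :
    ∃ e : Ω₁ ≃+* Ω₂, ∀ c : F, e (algebraMap F Ω₁ c) = algebraMap F Ω₂ c := by
  letI := IsAlgClosed.isAlgClosure_of_transcendence_basis x hx
  letI := IsAlgClosed.isAlgClosure_of_transcendence_basis y hy
  let e : Algebra.adjoin F (Set.range x) ≃ₐ[F] Algebra.adjoin F (Set.range y) :=
    hx.1.aevalEquiv.symm.trans ((MvPolynomial.renameEquiv F f).trans hy.1.aevalEquiv)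
  refine ⟨IsAlgClosure.equivOfEquiv Ω₁ Ω₂ e.toRingEquiv, fun c => ?_⟩
  have h1 : algebraMap F Ω₁ c = algebraMap (Algebra.adjoin F (Set.range x)) Ω₁
      (algebraMap F _ c) := rfl
  rw [h1, IsAlgClosure.equivOfEquiv_algebraMap]
  have h2 : e.toRingEquiv (algebraMap F _ c) = algebraMap F _ c := e.commutes c
  rw [h2]
  rfl

theorem exists_equiv_aux {q k K : Type*} [Field q] [Field k] [IsAlgClosed k] [Field K]
    [IsAlgClosed K] [Algebra q k] [Algebra k K] (hk : Cardinal.aleph0 ≤ Algebra.trdeg q k)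
    (hK : Algebra.trdeg k K < Cardinal.aleph0) (S : Set k) (hS : S.Finite) :
    ∃ e : k ≃+* K, ∀ c ∈ S, e c = algebraMap k K c := by
  let k₀ : IntermediateField q k := IntermediateField.adjoin q S
  -- `k₀` has finite transcendence degree
  have h0 : Algebra.trdeg q k₀ < Cardinal.aleph0 := by
    haveI : Algebra.EssFiniteType q k₀ := by
      rw [IntermediateField.essFiniteType_iff]
      exact ⟨hS.toFinset, by rw [hS.coe_toFinset]⟩
    exact trdeg_lt_aleph0 q k₀
  have h1 : Algebra.trdeg q k₀ + Algebra.trdeg k₀ k = Algebra.trdeg q k :=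
    trdeg_add_eq q k₀ (A := k)
  have h2 : Cardinal.aleph0 ≤ Algebra.trdeg k₀ k := by
    by_contra hcon
    rw [not_le] at hcon
    exact absurd (h1 ▸ Cardinal.add_lt_aleph0 h0 hcon) (not_lt.2 hk)
  have h3 := lift_trdeg_add_eq k₀ k K
  obtain ⟨s, hs⟩ := exists_isTranscendenceBasis k₀ k
  obtain ⟨t, ht⟩ := exists_isTranscendenceBasis k₀ K
  rw [← hs.cardinalMk_eq_trdeg, ← ht.cardinalMk_eq_trdeg] at h3
  rw [← hs.cardinalMk_eq_trdeg] at h2
  rw [Cardinal.add_eq_left] at h3
  · obtain ⟨f⟩ := Cardinal.lift_mk_eq'.1 h3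
    obtain ⟨e, he⟩ := exists_equiv_of_tb hs ht f
    refine ⟨e, fun c hc => ?_⟩
    have h4 := he ⟨c, IntermediateField.subset_adjoin q S hc⟩
    rw [IsScalarTower.algebraMap_apply k₀ k K] at h4
    exact h4
  · rwa [Cardinal.aleph0_le_lift]
  · exact (Cardinal.lift_lt_aleph0.2 hK).le.trans (Cardinal.aleph0_le_lift.2 h2)

/-- `k` of infinite transcendence degree over `ℚ`, `K/k` of finite transcendence degree, both algebraically closed: there is an
isomorphism `k ≃ K` which is the inclusion on a given finite set. -/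
theorem exists_equiv {k K : Type*} [Field k] [CharZero k] [IsAlgClosed k] [Field K] [IsAlgClosed K]
    [Algebra k K] (hk : Cardinal.aleph0 ≤ Algebra.trdeg ℚ k)
    (hK : Algebra.trdeg k K < Cardinal.aleph0) (S : Set k) (hS : S.Finite) :
    ∃ e : k ≃+* K, ∀ c ∈ S, e c = algebraMap k K c :=
  exists_equiv_aux hk hK S hS

end Pf72953.Fac
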