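import Mathlib
import Pool.Agent.Lib.Pf72953z.Defs
import Pool.Agent.Lib.Pf72953z.GFa
import Pool.Agent.Lib.Pf72953u.Lin

/-!
MODULE Pf72953z.GF: a factorial chart is geometrically factorial, if `k` has infinite transcendence degree.
-/

set_option autoImplicit false
set_option linter.style.haveILetI false

open scoped WithZero
open Pf72953 Pf72953.Mov Pf72953.Up

namespace Pf72953.Fac

section gf

section ker

variable {k κ Y Ω τ : Type*} [Field k] [CharZero k] [IsAlgClosed k] [Field κ] [CharZero κ]
  [Field Y] [Field Ω] [Algebra k κ] [Algebra k Y] [Algebra k Ω] [Algebra κ Ω]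
  [Algebra Y Ω] [IsScalarTower k κ Ω] [IsScalarTower k Y Ω]

omit [CharZero k] [IsAlgClosed k] [CharZero κ] in
theorem aeval_map_eq (a : τ → Y) (F : MvPolynomial τ k) :
    MvPolynomial.aeval (fun i => algebraMap Y Ω (a i)) (MvPolynomial.map (algebraMap k κ) F) =
      algebraMap Y Ω (MvPolynomial.aeval a F) := by
  rw [MvPolynomial.aeval_map_algebraMap]
  exact MvPolynomial.aeval_algebraMap_apply Ω a F

/-- the relations over `κ` are generated by the relations over `k` -/
theorem mem_ker {ι : Type*} [Fintype ι] {x : ι → Y} (hx : IsTranscendenceBasis k x)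
    (hxK : IsTranscendenceBasis κ (fun i => algebraMap Y Ω (x i))) (a : τ → Y)
    (F : MvPolynomial τ κ) (hF : MvPolynomial.aeval (fun i => algebraMap Y Ω (a i)) F = 0) :
    F ∈ Ideal.map (MvPolynomial.map (algebraMap k κ))
      (RingHom.ker (MvPolynomial.aeval (R := k) a)) := by
  classical
  let b := Module.Basis.ofVectorSpace k κ
  -- the components of `F`
  let G : _ → MvPolynomial τ k := fun g =>
    ∑ m ∈ F.support, MvPolynomial.monomial m (b.repr (MvPolynomial.coeff m F) g)
  have hG : ∀ g m, MvPolynomial.coeff m (G g) = b.repr (MvPolynomial.coeff m F) g := by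
    intro g m
    rw [MvPolynomial.coeff_sum]
    simp only [MvPolynomial.coeff_monomial]
    rw [Finset.sum_ite_eq' F.support m]
    by_cases hm : m ∈ F.support
    · rw [if_pos hm]
    · rw [if_neg hm, MvPolynomial.notMem_support_iff.1 hm]
      simp
  let s : Finset _ := F.support.biUnion fun m => (b.repr (MvPolynomial.coeff m F)).support
  have hFs : F = ∑ g ∈ s, MvPolynomial.C (b g) * MvPolynomial.map (algebraMap k κ) (G g) := by
    ext m
    rw [MvPolynomial.coeff_sum]
    simp only [MvPolynomial.coeff_C_mul, MvPolynomial.coeff_map, hG]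
    by_cases hm : m ∈ F.support
    · conv_lhs => rw [← b.linearCombination_repr (MvPolynomial.coeff m F)]
      rw [Finsupp.linearCombination_apply, Finsupp.sum]
      rw [Finset.sum_subset (Finset.subset_biUnion_of_mem
        (fun m => (b.repr (MvPolynomial.coeff m F)).support) hm)]
      · refine Finset.sum_congr rfl fun g _ => ?_
        rw [Algebra.smul_def, mul_comm]
      · intro g _ hg
        rw [Finsupp.notMem_support_iff.1 hg, zero_smul]
    · rw [MvPolynomial.notMem_support_iff.1 hm]
      simp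
  have h0 : ∑ g ∈ s, MvPolynomial.aeval a (G g) • algebraMap κ Ω (b g) = 0 := by
    rw [hFs, map_sum] at hF
    rw [← hF]
    refine Finset.sum_congr rfl fun g _ => ?_
    rw [map_mul, MvPolynomial.aeval_C, aeval_map_eq, Algebra.smul_def, mul_comm]
  have hli := linearIndependent_const hx hxK b.linearIndependent
  rw [linearIndependent_iff'] at hli
  have h1 := hli s _ h0
  rw [hFs]
  refine Ideal.sum_mem _ fun g hg => Ideal.mul_mem_left _ _ (Ideal.mem_map_of_mem _ ?_)
  exact h1 g hg

end ker

theorem ufd_bc {k κ Y Ω ι : Type*} [Field k] [CharZero k] [IsAlgClosed k] [Field κ] [CharZero κ]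
    [IsAlgClosed κ] [Field Y] [Field Ω] [Algebra k κ] [Algebra k Y] [Algebra k Ω] [Algebra κ Ω]
    [Algebra Y Ω] [IsScalarTower k κ Ω] [IsScalarTower k Y Ω] [Fintype ι] {x : ι → Y}
    (hx : IsTranscendenceBasis k x)
    (hxK : IsTranscendenceBasis κ (fun i => algebraMap Y Ω (x i)))
    (hk : Cardinal.aleph0 ≤ Algebra.trdeg ℚ k) (hκ : Algebra.trdeg k κ < Cardinal.aleph0)
    {A : Subalgebra k Y} (hfg : A.FG) (hU : UniqueFactorizationMonoid A) :
    UniqueFactorizationMonoid (bc κ Ω A) := by
  classical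
  obtain ⟨t, ht⟩ := hfg
  have hrt : Set.range (fun i : t => (i : Y)) = (t : Set Y) := Subtype.range_coe
  have hmemA : ∀ F : MvPolynomial t k, MvPolynomial.aeval (fun i : t => (i : Y)) F ∈ A := by
    intro F
    have h1 : MvPolynomial.aeval (fun i : t => (i : Y)) F ∈
        (MvPolynomial.aeval (R := k) (fun i : t => (i : Y))).range := ⟨F, rfl⟩
    rw [← Algebra.adjoin_range_eq_range_aeval, hrt, ht] at h1
    exact h1
  have hsurA : ∀ y ∈ A, ∃ F : MvPolynomial t k, MvPolynomial.aeval (fun i : t => (i : Y)) F = y := by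
    intro y hy
    have h1 : y ∈ (MvPolynomial.aeval (R := k) (fun i : t => (i : Y))).range := by
      rw [← Algebra.adjoin_range_eq_range_aeval, hrt, ht]
      exact hy
    exact h1
  let ψ₀ : MvPolynomial t κ →ₐ[κ] Ω := MvPolynomial.aeval fun i : t => algebraMap Y Ω i
  have hrange : ψ₀.range = bc κ Ω A := by
    apply le_antisymm
    · rw [← Algebra.adjoin_range_eq_range_aeval, Algebra.adjoin_le_iff]
      rintro _ ⟨i, rfl⟩
      refine Algebra.subset_adjoin ⟨i, ?_, rfl⟩
      rw [← ht]
      exact Algebra.subset_adjoin i.2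
    · refine Algebra.adjoin_le ?_
      rintro _ ⟨y, hy, rfl⟩
      obtain ⟨F, rfl⟩ := hsurA y hy
      exact ⟨MvPolynomial.map (algebraMap k κ) F, aeval_map_eq _ F⟩
  let φ : MvPolynomial t k →ₐ[k] A :=
    (MvPolynomial.aeval (fun i : t => (i : Y))).codRestrict A hmemA
  let ψ : MvPolynomial t κ →ₐ[κ] bc κ Ω A := ψ₀.codRestrict _ fun F => hrange ▸ ⟨F, rfl⟩
  have hφs : Function.Surjective φ := by
    rintro ⟨y, hy⟩
    obtain ⟨F, hF⟩ := hsurA y hy
    exact ⟨F, Subtype.ext hF⟩
  have hψs : Function.Surjective ψ := by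
    rintro ⟨z, hz⟩
    rw [← hrange] at hz
    obtain ⟨F, hF⟩ := hz
    exact ⟨F, Subtype.ext hF⟩
  have hkφ : RingHom.ker φ = RingHom.ker (MvPolynomial.aeval (R := k) (fun i : t => (i : Y))) := by
    ext F
    rw [RingHom.mem_ker, RingHom.mem_ker]
    exact ⟨fun h => congrArg Subtype.val h, fun h => Subtype.ext h⟩
  have hkψ : RingHom.ker ψ = Ideal.map (MvPolynomial.map (algebraMap k κ)) (RingHom.ker φ) := by
    apply le_antisymm
    · intro F hF
      rw [hkφ]
      refine mem_ker hx hxK _ F ?_
      exact congrArg Subtype.val hF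
    · rw [Ideal.map_le_iff_le_comap]
      intro F hF
      rw [Ideal.mem_comap, RingHom.mem_ker]
      apply Subtype.ext
      rw [hkφ, RingHom.mem_ker] at hF
      change MvPolynomial.aeval (fun i : t => algebraMap Y Ω i)
        (MvPolynomial.map (algebraMap k κ) F) = 0
      rw [aeval_map_eq, hF, map_zero]
  -- finitely many relations
  obtain ⟨s, hs⟩ : (RingHom.ker φ).FG := IsNoetherian.noetherian _
  obtain ⟨e, he⟩ := exists_equiv hk hκ (⋃ f ∈ s, (MvPolynomial.coeffs f : Set k))
    (Set.Finite.biUnion s.finite_toSet fun f _ => Finset.finite_toSet _)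
  have hef : ∀ f ∈ s, MvPolynomial.mapEquiv t e f = MvPolynomial.map (algebraMap k κ) f := by
    intro f hf
    ext m
    rw [MvPolynomial.mapEquiv_apply, MvPolynomial.coeff_map, MvPolynomial.coeff_map]
    by_cases h0 : MvPolynomial.coeff m f = 0
    · rw [h0, map_zero, map_zero]
    · refine he _ (Set.mem_biUnion hf ?_)
      exact MvPolynomial.coeff_mem_coeffs m h0
  have hJ : RingHom.ker ψ = Ideal.map (MvPolynomial.mapEquiv t e : _ →+* _) (RingHom.ker φ) := by
    rw [hkψ, ← hs, Ideal.map_span, Ideal.map_span]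
    congr 1
    exact (Set.image_congr fun f hf => hef f hf).symm
  let E : A ≃+* bc κ Ω A :=
    ((Ideal.quotientKerAlgEquivOfSurjective hφs).symm.toRingEquiv).trans
      ((Ideal.quotientEquiv _ _ (MvPolynomial.mapEquiv t e) hJ).trans
        (Ideal.quotientKerAlgEquivOfSurjective hψs).toRingEquiv)
  exact E.toMulEquiv.uniqueFactorizationMonoid hU

end gf

end Pf72953.Fac
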