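import Mathlib
import Pool.Agent.Lib.Pf72953z.Defs
import Pool.Agent.Lib.Pf72953z.Prime
import Pool.Agent.Lib.Pf72953u.Normal

/-!
Prime divisors of a chart whose base change to the algebraic closure of the base field is factorial.
-/

set_option autoImplicit false
set_option linter.style.haveILetI false

open scoped WithZero
open Polynomial
open Pf72953 Pf72953.Mov Pf72953.Up

namespace Pf72953.Fac

section norm

variable {Z Ω : Type*} [Field Z] [CharZero Z] [Field Ω] [Algebra Z Ω]

/-- the norm of a generator and the constant coefficient of the minimal polynomial -/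
theorem norm_eq_coeff {L : Type*} [Field L] [Algebra Z L] [FiniteDimensional Z L] (f : L) :
    ∃ e : ℕ, 1 ≤ e ∧ ∃ n : ℕ,
      Algebra.norm Z f = ((-1) ^ n * (minpoly Z f).coeff 0) ^ e := by
  have hf : IsIntegral Z f := IsIntegral.of_finite Z f
  refine ⟨Module.finrank (IntermediateField.adjoin Z {f}) L, Module.finrank_pos,
    (IntermediateField.adjoin.powerBasis hf).dim, ?_⟩
  rw [Algebra.norm_eq_norm_adjoin]
  congr 1
  have h1 := Algebra.PowerBasis.norm_gen_eq_coeff_zero_minpoly
    (IntermediateField.adjoin.powerBasis hf)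
  rw [IntermediateField.adjoin.powerBasis_gen, IntermediateField.minpoly_gen] at h1
  exact h1

end norm

section core

variable {B Z Ω : Type*} [Field B] [Field Z] [CharZero Z] [Field Ω] [Algebra B Z] [Algebra Z Ω]
  [Algebra.IsAlgebraic Z Ω]

/-- the abstract form -/
theorem qf_core {R : Subalgebra B Z} (hint : ∀ z : Z, IsIntegral R z → z ∈ R)
    (hfrac : ∀ f : Z, ∃ g ∈ R, ∃ h ∈ R, h ≠ 0 ∧ f = g / h)
    {R' : Type*} [CommRing R'] [IsDomain R'] [UniqueFactorizationMonoid R'] [Algebra R R']
    [Algebra R' Ω] [IsScalarTower R R' Ω] (hinj : Function.Injective (algebraMap R' Ω))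
    [Algebra.IsIntegral R R'] : QF R := by
  classical
  haveI : IsFractionRing R Z := IsFractionRing.of_field _ _ fun z => by
    obtain ⟨g, hg, h, hh, -, e⟩ := hfrac z
    exact ⟨⟨g, hg⟩, ⟨h, hh⟩, e⟩
  haveI : IsIntegrallyClosed R := (isIntegrallyClosed_iff Z).2 fun {z} hz => ⟨⟨z, hint z hz⟩, rfl⟩
  have hinjR : Function.Injective (algebraMap R R') := by
    intro a b hab
    have h1 := congrArg (algebraMap R' Ω) hab
    rw [← IsScalarTower.algebraMap_apply R R' Ω, ← IsScalarTower.algebraMap_apply R R' Ω,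
      IsScalarTower.algebraMap_apply R Z Ω, IsScalarTower.algebraMap_apply R Z Ω] at h1
    exact Subtype.ext ((algebraMap Z Ω).injective h1)
  intro w hw
  -- the centre
  let p : Ideal R :=
    { carrier := {a | w (a : Z) < 1}
      add_mem' := fun {a b} ha hb => (w.map_add _ _).trans_lt (max_lt ha hb)
      zero_mem' := by
        change w (0 : Z) < 1
        rw [map_zero]
        exact zero_lt_one
      smul_mem' := fun a b hb => by
        change w ((a : Z) * b) < 1
        rw [map_mul]
        exact (mul_le_of_le_one_left' (hw.le a a.2)).trans_lt hb }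
  have hp : ∀ a : R, a ∈ p ↔ w (a : Z) < 1 := fun a => Iff.rfl
  haveI hpp : p.IsPrime := by
    refine ⟨fun h => ?_, fun {a b} hab => ?_⟩
    · have h1 : (1 : R) ∈ p := h ▸ Submodule.mem_top
      have h2 : w (1 : Z) < 1 := h1
      rw [map_one] at h2
      exact lt_irrefl _ h2
    · by_contra hcon
      rw [not_or, hp, hp, not_lt, not_lt] at hcon
      have h1 : w (a : Z) = 1 := le_antisymm (hw.le a a.2) hcon.1
      have h2 : w (b : Z) = 1 := le_antisymm (hw.le b b.2) hcon.2
      have h3 : w ((a : Z) * b) < 1 := hab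
      rw [map_mul, h1, h2, one_mul] at h3
      exact lt_irrefl _ h3
  obtain ⟨a₀, ha₀, ha₀w⟩ : ∃ a : R, a ≠ 0 ∧ w (a : Z) < 1 := by
    obtain ⟨y, hy0, hyw⟩ : ∃ y : Z, y ≠ 0 ∧ w y < 1 := by
      obtain ⟨y, hy0, hy⟩ := hw.nontriv
      rcases lt_or_gt_of_ne hy with h1 | h1
      · exact ⟨y, hy0, h1⟩
      · refine ⟨y⁻¹, inv_ne_zero hy0, ?_⟩
        rw [map_inv₀]
        exact inv_lt_one_of_one_lt₀ h1
    obtain ⟨a, ha, b, hb, hbw, e⟩ := hw.loc y hyw.le
    refine ⟨⟨a, ha⟩, fun h => hy0 ?_, ?_⟩
    · have h1 : a = 0 := congrArg Subtype.val h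
      rw [e, h1, zero_div]
    · rw [e, map_div₀, hbw, div_one] at hyw
      exact hyw
  obtain ⟨q, hq, hqp⟩ := Ideal.exists_ideal_over_prime_of_isIntegral_of_isDomain (S := R') p
    (by rw [(RingHom.injective_iff_ker_eq_bot _).1 hinjR]; exact bot_le)
  have hq0 : q ≠ ⊥ := by
    intro h0
    have h1 : a₀ ∈ q.comap (algebraMap R R') := hqp ▸ ha₀w
    rw [h0, Ideal.mem_comap, Ideal.mem_bot] at h1
    exact ha₀ (hinjR (by rw [h1, map_zero]))
  obtain ⟨f, hfq, hf⟩ := hq.exists_mem_prime_of_ne_bot hq0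
  have hfi : IsIntegral R f := Algebra.IsIntegral.isIntegral f
  set P := minpoly R f with hP
  have hmin : minpoly Z (algebraMap R' Ω f) = P.map (algebraMap R Z) :=
    minpoly.isIntegrallyClosed_eq_field_fractions Z Ω hfi
  have hP0 : P.coeff 0 ≠ 0 := by
    intro h0
    have h1 := minpoly.coeff_zero_ne_zero
      (Algebra.IsAlgebraic.isAlgebraic (R := Z) (algebraMap R' Ω f)).isIntegral
      (fun h2 => hf.ne_zero (hinj (by rw [h2, map_zero])))
    rw [hmin, coeff_map, h0, map_zero] at h1
    exact h1 rfl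
  have hfP : f ∣ algebraMap R R' (P.coeff 0) := by
    have h1 := congrArg (aeval f) (divX_mul_X_add P)
    rw [map_add, map_mul, aeval_X, aeval_C, hP, minpoly.aeval, ← hP] at h1
    exact ⟨-(aeval f P.divX), by rw [mul_neg, mul_comm]; exact eq_neg_of_add_eq_zero_right h1⟩
  haveI : (Ideal.span {f}).IsPrime := (Ideal.span_singleton_prime hf.ne_zero).2 hf
  have hle : ∀ a ∈ (Ideal.span {f}).comap (algebraMap R R'), w (a : Z) < 1 := by
    intro a ha
    rw [← hp, ← hqp]
    exact (Ideal.span_singleton_le_iff_mem (I := q)).2 hfq ha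
  have hmemP : P.coeff 0 ∈ (Ideal.span {f}).comap (algebraMap R R') :=
    Ideal.mem_span_singleton.2 hfP
  have hdvd : ∀ g : R, w (g : Z) < 1 → f ∣ algebraMap R R' g := fun g hg =>
    Ideal.mem_span_singleton.1 (hw.height (Ideal.IsPrime.comap _)
      (fun h0 => hP0 (by rw [h0] at hmemP; exact hmemP)) hle g hg)
  refine ⟨(P.coeff 0 : R), (P.coeff 0).2, hle _ hmemP, fun w' hw' hw'P z => ?_⟩
  refine (hw.eq_of_le hw' (fun g hg hgw => ?_) z).symm
  obtain ⟨h, hgh⟩ := hdvd ⟨g, hg⟩ hgw
  -- the norm
  set F : Ω := algebraMap R' Ω f with hF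
  set H : Ω := algebraMap R' Ω h with hH
  have hFi : IsIntegral Z F := (Algebra.IsAlgebraic.isAlgebraic F).isIntegral
  have hHi : IsIntegral Z H := (Algebra.IsAlgebraic.isAlgebraic H).isIntegral
  have hgFH : algebraMap Z Ω g = F * H := by
    rw [hF, hH, ← map_mul, ← hgh, ← IsScalarTower.algebraMap_apply R R' Ω]
    rfl
  let L : IntermediateField Z Ω := IntermediateField.adjoin Z {F, H}
  haveI : FiniteDimensional Z L := by
    have : Finite ({F, H} : Set Ω) := Set.toFinite _
    refine IntermediateField.finiteDimensional_adjoin fun y hy => ?_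
    rcases hy with rfl | hy
    · exact hFi
    · rw [Set.mem_singleton_iff] at hy
      exact hy ▸ hHi
  let FL : L := ⟨F, IntermediateField.subset_adjoin Z _ (Or.inl rfl)⟩
  let HL : L := ⟨H, IntermediateField.subset_adjoin Z _ (Or.inr rfl)⟩
  have hgL : algebraMap Z L g = FL * HL := Subtype.ext hgFH
  have hnorm : g ^ Module.finrank Z L = Algebra.norm Z FL * Algebra.norm Z HL := by
    rw [← map_mul, ← hgL, Algebra.norm_algebraMap]
  have hHR : w' (Algebra.norm Z HL) ≤ 1 := by
    refine hw'.le _ (hint _ (Algebra.isIntegral_norm Z ?_))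
    have h1 : IsIntegral R H := (Algebra.IsIntegral.isIntegral (R := R) h).algebraMap
    exact (isIntegral_algebraMap_iff (R := R) (A := L) (B := Ω) (algebraMap L Ω).injective).1 h1
  have hFR : w' (Algebra.norm Z FL) < 1 := by
    obtain ⟨e, he, n, hn⟩ := norm_eq_coeff (Z := Z) FL
    have h1 : minpoly Z FL = minpoly Z F := (minpoly.algebraMap_eq (algebraMap L Ω).injective FL).symm
    rw [hn, h1, hF, hmin, coeff_map, map_pow, map_mul, map_pow, Valuation.map_neg, map_one, one_pow,
      one_mul]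
    exact pow_lt_one₀ zero_le' hw'P (by omega)
  have h3 : w' g ^ Module.finrank Z L < 1 := by
    rw [← map_pow, hnorm, map_mul]
    exact (mul_le_of_le_one_right' hHR).trans_lt hFR
  by_contra hcon
  rw [not_lt] at hcon
  exact absurd h3 (not_lt.2 (one_le_pow₀ hcon))

end core

section qf

variable {k B Y Z Ω ι : Type*} [Field k] [Field B] [CharZero B]
  [Field Y] [Field Z] [Field Ω]
  [Algebra k Y] [Algebra B Z] [Algebra Y Z] [Algebra Z Ω] [Algebra B Ω] [Algebra Y Ω]
  [IsScalarTower B Z Ω] [IsScalarTower Y Z Ω] [Fintype ι]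

/-- `κ` the algebraic closure of `B` in `Ω = cl(Z)`. -/
theorem qf_of_ufd [Algebra.IsAlgebraic Z Ω] {x : ι → Z} {hx : IsTranscendenceBasis B x}
    {A : Subalgebra k Y} (h : Chart hx (bc B Z A))
    (hU : UniqueFactorizationMonoid (bc (algebraicClosure B Ω) Ω A)) : QF (bc B Z A) := by
  haveI : CharZero Z := charZero_of_injective_algebraMap (algebraMap B Z).injective
  have hle : ∀ z ∈ bc B Z A, algebraMap Z Ω z ∈ bc (algebraicClosure B Ω) Ω A := by
    intro z hz
    induction hz using Algebra.adjoin_induction with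
    | mem y hy =>
      obtain ⟨a, ha, rfl⟩ := hy
      rw [← IsScalarTower.algebraMap_apply Y Z Ω]
      exact Algebra.subset_adjoin ⟨a, ha, rfl⟩
    | algebraMap b =>
      rw [← IsScalarTower.algebraMap_apply B Z Ω,
        IsScalarTower.algebraMap_apply B (algebraicClosure B Ω) Ω]
      exact Subalgebra.algebraMap_mem _ _
    | add y z _ _ hy hz => rw [map_add]; exact add_mem hy hz
    | mul y z _ _ hy hz => rw [map_mul]; exact mul_mem hy hz
  let φ : bc B Z A →+* bc (algebraicClosure B Ω) Ω A :=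
    ((algebraMap Z Ω).comp (bc B Z A).val.toRingHom).codRestrict _ fun z => hle z z.2
  letI : Algebra (bc B Z A) (bc (algebraicClosure B Ω) Ω A) := φ.toAlgebra
  haveI : IsScalarTower (bc B Z A) (bc (algebraicClosure B Ω) Ω A) Ω :=
    IsScalarTower.of_algebraMap_eq fun _ => rfl
  haveI : Algebra.IsIntegral (bc B Z A) (bc (algebraicClosure B Ω) Ω A) := by
    refine ⟨fun y => ?_⟩
    rw [← isIntegral_algebraMap_iff (B := Ω) Subtype.val_injective]
    change IsIntegral (bc B Z A) (y : Ω)
    have hy := y.2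
    generalize (y : Ω) = u at hy
    induction hy using Algebra.adjoin_induction with
    | mem u hu =>
      obtain ⟨a, ha, rfl⟩ := hu
      have h1 : algebraMap Y Ω a = algebraMap (bc B Z A) Ω
          ⟨algebraMap Y Z a, Algebra.subset_adjoin ⟨a, ha, rfl⟩⟩ := by
        rw [IsScalarTower.algebraMap_apply Y Z Ω]
        rfl
      rw [h1]
      exact isIntegral_algebraMap
    | algebraMap b =>
      have h1 : IsIntegral B (algebraMap (algebraicClosure B Ω) Ω b) :=
        (mem_algebraicClosure_iff.1 b.2).isIntegral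
      exact h1.tower_top
    | add y z _ _ hy hz => exact hy.add hz
    | mul y z _ _ hy hz => exact hy.mul hz
  exact qf_core (Ω := Ω) (R' := bc (algebraicClosure B Ω) Ω A)
    (fun z hz => h.mem_of_isIntegral hz) h.frac Subtype.val_injective

end qf

end Pf72953.Fac
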