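import Mathlib
import Pool.Agent.Lib.Pf72953z.Core
import Pool.Agent.Lib.Pf72953z.QFac
import Pool.Agent.Lib.Pf72953z.GF

/-!
MODULE Pf72953z.Final: `BranchMoves` for varieties with factorial charts.
-/

set_option autoImplicit false
set_option linter.style.haveILetI false
set_option linter.unusedSectionVars false

open scoped WithZero
open Pf72953 Pf72953.Mov Pf72953.Up Pf72953.Br

namespace Pf72953.Fac

/-- `M` has factorial charts: the charts are open subsets of one variety (`Glued`), and their coordinate rings are unique
factorization domains.  (A smooth projective variety over `ℂ` has such an atlas if and only if `q(M) = 0`.) -/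
structure Factorial {k Y : Type*} [Field k] [Field Y] [Algebra k Y] (M : SmoothModel k Y) : Prop where
  glued : Glued M
  ufd : ∀ i, UniqueFactorizationMonoid (M.A i)

section qf

variable {k B Y Z : Type*} [Field k] [CharZero k] [IsAlgClosed k] [Field B] [CharZero B] [Field Y]
  [Field Z]
  [Algebra k B] [Algebra k Y] [Algebra k Z] [Algebra B Z] [Algebra Y Z] [IsScalarTower k B Z]
  [IsScalarTower k Y Z] {M : SmoothModel k Y}

/-- the prime divisors of the charts over `B` are set-theoretically principal -/
theorem Factorial.qf (hM : Factorial M) (hk : Cardinal.aleph0 ≤ Algebra.trdeg ℚ k)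
    (hB : Algebra.trdeg k B < Cardinal.aleph0)
    (hx : ∀ i, IsTranscendenceBasis B (fun a => algebraMap Y Z (M.x i a)))
    (hgen : ∀ z : Z, z ∈ IntermediateField.adjoin B (Set.range (algebraMap Y Z))) (i : M.I) :
    QF (bc B Z (M.A i)) := by
  classical
  haveI : CharZero Z := charZero_of_injective_algebraMap (algebraMap B Z).injective
  haveI : CharZero Y := charZero_of_injective_algebraMap (algebraMap k Y).injective
  let Ω := AlgebraicClosure Z
  let κ := algebraicClosure B Ω
  haveI : IsAlgClosed κ := IsAlgClosure.isAlgClosed B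
  haveI : Algebra.IsAlgebraic B κ := inferInstance
  haveI : CharZero κ := charZero_of_injective_algebraMap (algebraMap B κ).injective
  haveI : IsScalarTower k κ Ω := IsScalarTower.of_algebraMap_eq fun c => rfl
  haveI : IsScalarTower k B κ := IsScalarTower.of_algebraMap_eq fun c => by
    apply Subtype.ext
    change algebraMap k Ω c = algebraMap B Ω (algebraMap k B c)
    rw [← IsScalarTower.algebraMap_apply k B Ω]
  haveI : IsScalarTower k Y Ω := IsScalarTower.of_algebraMap_eq fun c => by
    rw [IsScalarTower.algebraMap_apply k Z Ω, IsScalarTower.algebraMap_apply k Y Z,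
      ← IsScalarTower.algebraMap_apply Y Z Ω]
  have hκ : Algebra.trdeg k κ < Cardinal.aleph0 := by
    have h1 := lift_trdeg_add_eq k B κ
    rw [trdeg_eq_zero (R := B) (A := κ), Cardinal.lift_zero, add_zero] at h1
    rw [← Cardinal.lift_lt_aleph0, ← h1, Cardinal.lift_lt_aleph0]
    exact hB
  have hxK : IsTranscendenceBasis κ (fun a => algebraMap Y Ω (M.x i a)) := by
    rw [← Algebra.IsAlgebraic.isTranscendenceBasis_iff B]
    have hind : AlgebraicIndependent B (fun a => algebraMap Y Ω (M.x i a)) := by
      have h1 := (hx i).1.map' (f := IsScalarTower.toAlgHom B Z Ω) (algebraMap Z Ω).injective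
      have h2 : (fun a => algebraMap Y Ω (M.x i a)) =
          (IsScalarTower.toAlgHom B Z Ω) ∘ fun a => algebraMap Y Z (M.x i a) := by
        funext a
        exact IsScalarTower.algebraMap_apply Y Z Ω _
      rw [h2]
      exact h1
    refine hind.isTranscendenceBasis_of_lift_trdeg_le_of_finite ?_
    rw [(hx i).lift_cardinalMk_eq_trdeg, ← trdeg_add_eq B Z (A := Ω), trdeg_eq_zero (R := Z), add_zero]
  exact qf_of_ufd ((chart_of_model M i).baseChange (hx i) hgen)
    (ufd_bc (M.tb i) hxK hk hκ (M.fg i) (hM.ufd i))

end qf

section moves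

variable {k B Y Z P : Type*} [Field k] [CharZero k] [IsAlgClosed k] [Field B] [CharZero B]
  [Field Y] [Field Z] [Field P]
  [Algebra k B] [Algebra k Y] [Algebra k Z] [Algebra k P] [Algebra B Z] [Algebra B P]
  [Algebra Y Z] [Algebra Y P] [Algebra Z P]
  [IsScalarTower k B Z] [IsScalarTower k B P] [IsScalarTower k Y Z] [IsScalarTower k Y P]
  [IsScalarTower k Z P] [IsScalarTower B Z P] [IsScalarTower Y Z P]
  [Algebra.EssFiniteType k Z] [FiniteDimensional Z P] {M : SmoothModel k Y}

/-- the restriction to `Z` of a divisorial valuation of `P` over a prime divisor of the chart `i` of `M` over `B` -/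
theorem primeOn_comap (hx : ∀ i, IsTranscendenceBasis B (fun a => algebraMap Y Z (M.x i a)))
    (hgen : ∀ z : Z, z ∈ IntermediateField.adjoin B (Set.range (algebraMap Y Z)))
    {i : M.I} {w : Valuation P ℤᵐ⁰} (hd : IsDivisorial k P w)
    (ht : ∀ b : B, b ≠ 0 → w (algebraMap B P b) = 1) (hp : PrimeAt M B Z i w) :
    PrimeOn (bc B Z (M.A i)) (w.comap (algebraMap Z P)) := by
  classical
  haveI : Algebra.EssFiniteType B Z := Algebra.EssFiniteType.of_comp k B Z
  haveI : Algebra.EssFiniteType k P := Algebra.EssFiniteType.comp k Z P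
  haveI : CharZero Y := charZero_of_injective_algebraMap (algebraMap k Y).injective
  have h1 : IsDivisorial k Z (w.comap (algebraMap Z P)) := hd.restrict (FinBadAux.nontriv hd)
  have h2 : IsDivisorial B Z (w.comap (algebraMap Z P)) := by
    refine Pf72953.Mov.IsDivisorial.over h1 fun b hb => ?_
    rw [Valuation.comap_apply, ← IsScalarTower.algebraMap_apply B Z P]
    exact ht b hb
  refine primeOn_of_reg ((chart_of_model M i).baseChange (hx i) hgen) h2 (hp.regBasis (hx i)) ?_
  refine le_bc_of (fun y hy => ?_) fun b hb => ?_
  · rw [Valuation.comap_apply, ← IsScalarTower.algebraMap_apply Y Z P]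
    exact hp.center y hy
  · rw [Valuation.comap_apply, ← IsScalarTower.algebraMap_apply B Z P]
    exact ht b hb

/-- `BranchMoves` holds if the charts of `M` are glued and factorial, and if the prime divisors of the charts over `B` are
set-theoretically principal. -/
theorem branchMoves_of_qf [Algebra.EssFiniteType k B] [Algebra.EssFiniteType k Y]
    (hM : Factorial M) (hdim : dimension k Y + dimension k B = dimension k Z)
    (hx : ∀ i, IsTranscendenceBasis B (fun a => algebraMap Y Z (M.x i a)))
    (hgen : ∀ z : Z, z ∈ IntermediateField.adjoin B (Set.range (algebraMap Y Z)))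
    (hQ : ∀ i, QF (bc B Z (M.A i))) : BranchMoves k M B Z P := by
  classical
  haveI : CharZero Y := charZero_of_injective_algebraMap (algebraMap k Y).injective
  intro i w hw
  have hpw : PrimeOn (bc B Z (M.A i)) (w.comap (algebraMap Z P)) :=
    primeOn_comap hx hgen hw.div hw.triv hw.prime
  obtain ⟨S, r, s, a, hs, hsi, hai, hlt, huniq⟩ := core hM.glued hdim hgen hx hM.ufd hQ hpw
  have hsec : ∀ w' : Valuation P ℤᵐ⁰,
      (w'.comap (algebraMap Z P)) (∑ l, algebraMap B Z (a l) * algebraMap Y Z (s l)) =
        w' (∑ l, algebraMap B P (a l) * algebraMap Y P (s l)) := by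
    intro w'
    rw [Valuation.comap_apply, map_sum]
    congr 1
    refine Finset.sum_congr rfl fun l _ => ?_
    rw [map_mul, ← IsScalarTower.algebraMap_apply B Z P, ← IsScalarTower.algebraMap_apply Y Z P]
  have hgn : ∀ (w' : Valuation P ℤᵐ⁰) (i : M.I),
      (w'.comap (algebraMap Z P)) (algebraMap Y Z (S.gen i)) = w' (algebraMap Y P (S.gen i)) := by
    intro w' i
    rw [Valuation.comap_apply, ← IsScalarTower.algebraMap_apply Y Z P]
  refine ⟨{ S := S, r := r, s := s, a := fun l => algebraMap B P (a l), s_mem := hs, s_indep := hsi,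
            a_alg := fun l => isAlgebraic_algebraMap _, a_ne := ⟨0, ?_⟩ }, ?_, ?_⟩
  · have h0 := hai.ne_zero (0 : Fin (r + 1))
    simpa using h0
  · rw [hsec, hgn] at hlt
    exact hlt
  · intro w' i' hd' ht' hp' hlt' z
    refine huniq i' (w'.comap (algebraMap Z P)) (primeOn_comap hx hgen hd' ht' hp') ?_ z
    rw [hsec, hgn]
    exact hlt'

/-- **Varieties with factorial charts**: `k` of infinite transcendence degree over `ℚ` (e.g. `k = ℂ`), `M` smooth complete with
factorial charts.  Then every prime divisor of `M` over `B` over which `P` is ramified is the support of a divisor which moves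
in a linear system on `M`. -/
theorem branchMoves_of_factorial [Algebra.EssFiniteType k B] [Algebra.EssFiniteType k Y]
    (hk : Cardinal.aleph0 ≤ Algebra.trdeg ℚ k) (hM : Factorial M)
    (hdim : dimension k Y + dimension k B = dimension k Z)
    (hx : ∀ i, IsTranscendenceBasis B (fun a => algebraMap Y Z (M.x i a)))
    (hgen : ∀ z : Z, z ∈ IntermediateField.adjoin B (Set.range (algebraMap Y Z))) :
    BranchMoves k M B Z P :=
  branchMoves_of_qf hM hdim hx hgen fun i => hM.qf hk (trdeg_lt_aleph0 k B) hx hgen i

end moves

end Pf72953.Fac
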