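import Mathlib
import Pool.Agent.Lib.Pf72953z.DefsO
import Pool.Agent.Lib.Pf72953z.Final
import Pool.Agent.Lib.Pf72953b.RamOn
import Pool.Agent.Lib.Pf72953b.Cover
import Pool.Agent.Lib.Pf72953k.Bad

/-!
Factorial charts imply `WMoves`; `WMoves` implies that finitely many divisors cover all branch divisors.
-/

set_option autoImplicit false
set_option linter.style.haveILetI false

open scoped WithZero
open Pf72953 Pf72953.Mov Pf72953.Up Pf72953.Br

namespace Pf72953.Osp

variable {k B Y Z Q : Type*} [Field k] [CharZero k] [IsAlgClosed k] [Field B] [Field Y]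
  [Field Z] [Field Q] [Algebra k B] [Algebra k Y] [Algebra k Z] [Algebra k Q]
  [Algebra B Z] [Algebra B Q] [Algebra Y Z] [Algebra Y Q] [Algebra Z Q] [IsScalarTower k B Z]
  [IsScalarTower k B Q] [IsScalarTower k Y Z] [IsScalarTower k Y Q] [IsScalarTower k Z Q]
  [IsScalarTower B Z Q] [IsScalarTower Y Z Q] [Algebra.EssFiniteType k B]
  [Algebra.EssFiniteType k Y] [Algebra.EssFiniteType k Z] [FiniteDimensional Z Q]
  {M : SmoothModel k Y}

omit [Algebra.EssFiniteType k Y] in
/-- the divisors over which `Q` is ramified are ramified -/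
theorem ramified_of_branch [IsGalois Z Q] (hcomp : Twr.IsCompositum k B Y Z)
    (hdim : dimension k B + dimension k Y = dimension k Z) {D : MovingDivisor M B Q}
    (hD : IsBranch k Z D) : D.Ramified := by
  haveI : Algebra.EssFiniteType k Q := Algebra.EssFiniteType.comp k Z Q
  have hx : ∀ i, IsTranscendenceBasis B (fun a => algebraMap Y Z (M.x i a)) := fun i =>
    tb_over hdim (PF.alg_of_compositum hcomp) (M.tb i)
  have h := ramifiedOn_of_branch (B := B) (Y := Y) (Z := Z) (P := Q) (L := Q) (G := k) (N := Q) M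
    hx (fun σ g => ⟨g, σ.commutes _⟩) (fun σ _ => by ext z; exact σ.commutes z) hD
  intro w hw htriv i hA hsec d hd
  refine h w hw htriv (fun g hg => hw.const g hg) i hA ?_ d (fun a z hz => hd a z hz)
  rw [mapD_sec]
  exact hsec

/-- finitely many divisors cover all branch divisors -/
theorem exists_wcover [IsGalois Z Q] (hcomp : Twr.IsCompositum k B Y Z)
    (hdim : dimension k B + dimension k Y = dimension k Z) (hmv : WMoves k M B Z Q) :
    ∃ (n : ℕ) (D : Fin n → WDiv M B), (∀ j, IsBranch k Z ((D j).toMov Q)) ∧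
      (∀ j, ((D j).toMov Q).Ramified) ∧
      ∀ (i : M.I) (w : Valuation Q ℤᵐ⁰), Bad k M B Z i w →
        ∃ j, w ((D j).toMov Q).sec < w (algebraMap Y Q ((D j).S.gen i)) := by
  haveI : CharZero B := charZero_of_injective_algebraMap (algebraMap k B).injective
  have hx : ∀ i, IsTranscendenceBasis B (fun a => algebraMap Y Z (M.x i a)) := fun i =>
    tb_over hdim (PF.alg_of_compositum hcomp) (M.tb i)
  obtain ⟨n, T, I, hT, hfin⟩ := exists_finite_conj (P := Q) M hx (PF.gen_of_comp hcomp)
  choose D hD1 hD2 using fun j => hmv (I j) (T j) (hT j)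
  have hbr : ∀ j, IsBranch k Z ((D j).toMov Q) := fun j => ⟨I j, T j, hT j, hD1 j, hD2 j⟩
  refine ⟨n, D, hbr, fun j => ramified_of_branch hcomp hdim (hbr j), ?_⟩
  intro i w hw
  obtain ⟨j, hj⟩ := hfin i w hw
  have heq : w.IsEquiv (T j) := by
    rw [Valuation.isEquiv_iff_val_le_one]
    intro x
    exact hj x
  refine ⟨j, ?_⟩
  have h1 : w (algebraMap Y Q ((D j).S.gen (I j))) = w (algebraMap Y Q ((D j).S.gen i)) := by
    refine (D j).S.compat (I j) i (w.comap (algebraMap Y Q)) ?_ ?_
    · intro f hf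
      exact (hj _).2 ((hT j).prime.center f hf)
    · intro f hf
      exact hw.prime.center f hf
  rw [← h1, ← not_le]
  intro hcon
  exact absurd (hD1 j) (not_lt.2 ((heq _ _).1 hcon))

/-- `WMoves` for factorial charts -/
theorem wMoves_of_factorial (hk : Cardinal.aleph0 ≤ Algebra.trdeg ℚ k) (hM : Fac.Factorial M)
    (hcomp : Twr.IsCompositum k B Y Z)
    (hdim : dimension k B + dimension k Y = dimension k Z) : WMoves k M B Z Q := by
  classical
  haveI : CharZero B := charZero_of_injective_algebraMap (algebraMap k B).injective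
  haveI : CharZero Y := charZero_of_injective_algebraMap (algebraMap k Y).injective
  have hx : ∀ i, IsTranscendenceBasis B (fun a => algebraMap Y Z (M.x i a)) := fun i =>
    tb_over hdim (PF.alg_of_compositum hcomp) (M.tb i)
  have hgen := PF.gen_of_comp hcomp
  intro i w hw
  have hpw : Fac.PrimeOn (bc B Z (M.A i)) (w.comap (algebraMap Z Q)) :=
    Fac.primeOn_comap hx hgen hw.div hw.triv hw.prime
  obtain ⟨S, r, s, a, hs, hsi, hai, hlt, huniq⟩ := Fac.core hM.glued
    (show dimension k Y + dimension k B = dimension k Z by omega) hgen hx hM.ufd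
    (fun i => hM.qf hk (trdeg_lt_aleph0 k B) hx hgen i) hpw
  have hsec : ∀ w' : Valuation Q ℤᵐ⁰,
      (w'.comap (algebraMap Z Q)) (∑ l, algebraMap B Z (a l) * algebraMap Y Z (s l)) =
        w' (∑ l, algebraMap B Q (a l) * algebraMap Y Q (s l)) := by
    intro w'
    rw [Valuation.comap_apply, map_sum]
    congr 1
    refine Finset.sum_congr rfl fun l _ => ?_
    rw [map_mul, ← IsScalarTower.algebraMap_apply B Z Q, ← IsScalarTower.algebraMap_apply Y Z Q]
  have hgn : ∀ (w' : Valuation Q ℤᵐ⁰) (i : M.I),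
      (w'.comap (algebraMap Z Q)) (algebraMap Y Z (S.gen i)) = w' (algebraMap Y Q (S.gen i)) := by
    intro w' i
    rw [Valuation.comap_apply, ← IsScalarTower.algebraMap_apply Y Z Q]
  refine ⟨⟨S, r, s, a, hs, hsi, hai⟩, ?_, ?_⟩
  · rw [hsec, hgn] at hlt
    exact hlt
  · intro w' i' hd' ht' hp' hlt' z
    refine huniq i' (w'.comap (algebraMap Z Q)) (Fac.primeOn_comap hx hgen hd' ht' hp') ?_ z
    rw [hsec, hgn]
    exact hlt'

end Pf72953.Osp
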