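import Mathlib
import Pool.Agent.Lib.Pf72953z.DefsO
import Pool.Agent.Lib.Pf72953.Abhyankar
import Pool.Agent.Lib.Pf72953f.Res

/-!
Gauss valuations and embeddings which change the constants by an algebraic extension.
-/

set_option autoImplicit false
set_option linter.style.haveILetI false

open scoped WithZero
open Pf72953 Pf72953.Mov IsLocalRing

namespace Pf72953.Osp

section res

variable {k Y R : Type*} [Field k] [Field Y] [Field R] [Algebra k Y] [Algebra k R] [Algebra Y R]
  [IsScalarTower k Y R]

/-- residually independent elements `b`, together with a transcendence basis of `Y`, are residually independent together with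
any algebraically independent family of elements algebraic over `Y` -/
theorem resIndep_of_alg {w : Valuation R ℤᵐ⁰} (hw : ∀ y : Y, y ≠ 0 → w (algebraMap Y R y) = 1)
    {ι κ κ' : Type*} {x : κ → Y} (hx : IsTranscendenceBasis k x) {b : ι → R}
    (h : ResIndep k w (Sum.elim b (fun j => algebraMap Y R (x j)))) {z : κ' → R}
    (hz : ∀ j, IsAlgebraic Y (z j)) (hzi : AlgebraicIndependent k z) :
    ResIndep k w (Sum.elim b z) := by
  classical
  set T : IntermediateField Y R := algebraicClosure Y R with hT
  have hwT : ∀ t : T, t ≠ 0 → w (algebraMap T R t) = 1 := by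
    intro t ht
    refine val_eq_one_of_isIntegral (B := Y) hw ?_ ?_
    · rw [Ne, map_eq_zero]
      exact ht
    · exact (mem_algebraicClosure_iff.1 t.2).isIntegral
  have hwT' : ∀ t : T, algebraMap T R t ∈ w.valuationSubring := by
    intro t
    rw [Valuation.mem_valuationSubring_iff]
    by_cases h0 : t = 0
    · rw [h0, map_zero, map_zero]
      exact zero_le_one
    · exact (hwT t h0).le
  haveI : IsScalarTower k T R := IsScalarTower.of_algebraMap_eq fun c => by
    rw [IsScalarTower.algebraMap_apply k Y T c, ← IsScalarTower.algebraMap_apply Y T R,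
      ← IsScalarTower.algebraMap_apply k Y R]
  let f : T →+* w.valuationSubring := (algebraMap T R).codRestrict w.valuationSubring.toSubring hwT'
  letI : Algebra T w.valuationSubring := f.toAlgebra
  letI : Algebra k w.valuationSubring := (f.comp (algebraMap k T)).toAlgebra
  haveI : IsScalarTower k T w.valuationSubring := IsScalarTower.of_algebraMap_eq fun _ => rfl
  haveI : IsScalarTower k w.valuationSubring R := IsScalarTower.of_algebraMap_eq fun c => by
    show algebraMap k R c = ((f (algebraMap k T c) : w.valuationSubring) : R)
    show algebraMap k R c = algebraMap T R (algebraMap k T c)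
    rw [← IsScalarTower.algebraMap_apply]
  let K := ResidueField w.valuationSubring
  haveI : IsScalarTower k T K := IsScalarTower.of_algebraMap_eq fun c => rfl
  have hb1 : ∀ i, w (b i) = 1 := fun i => h.apply (Sum.inl i)
  let b' : ι → w.valuationSubring := fun i => ⟨b i, (Valuation.mem_valuationSubring_iff _ _).2
    (hb1 i).le⟩
  let x' : κ → T := fun j => algebraMap Y T (x j)
  let z' : κ' → T := fun j => ⟨z j, mem_algebraicClosure_iff.2 (hz j)⟩
  have hx' : IsTranscendenceBasis k x' := by
    haveI : FaithfulSMul Y T := (faithfulSMul_iff_algebraMap_injective _ _).2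
      (algebraMap Y T).injective
    exact hx.algebraMap_comp
  have h1 : AlgebraicIndependent k (Sum.elim (fun i => algebraMap T K (x' i))
      (fun i => residue w.valuationSubring (b' i))) := by
    have h2 : ResIndep k w (fun i => ((Sum.elim (fun j => f (x' j)) b' i : w.valuationSubring) : R)) := by
      intro p hp
      have h3 := h (MvPolynomial.rename Sum.swap p) (fun h0 => hp
        (MvPolynomial.rename_injective _ Sum.swap_leftInverse.injective
          (h0.trans (map_zero _).symm)))
      rw [MvPolynomial.aeval_rename] at h3
      rw [← h3]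
      congr 3
      funext i
      rcases i with i | i <;> rfl
    have h3 := (resIndep_iff w _).1 h2
    convert h3 using 1
    funext i
    rcases i with i | i <;> rfl
  have h2 : AlgebraicIndependent T (fun i => residue w.valuationSubring (b' i)) :=
    Fib.ResAux.indep_over hx' h1
  have hz' : AlgebraicIndependent k z' := by
    refine AlgebraicIndependent.of_comp (IsScalarTower.toAlgHom k T R) ?_
    exact hzi
  have h3 := hz'.sumElim_comp h2
  have h4 : ResIndep k w (fun i => ((Sum.elim b' (fun j => f (z' j)) i : w.valuationSubring) : R)) := by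
    refine (resIndep_iff w _).2 ?_
    convert h3 using 1
    funext i
    rcases i with i | i <;> rfl
  intro p hp
  rw [← h4 p hp]
  congr 3
  funext i
  rcases i with i | i <;> rfl

end res

section comap

variable {k Y B Q R : Type*} [Field k] [Field Y] [Field B] [Field Q] [Field R] [Algebra k Y]
  [Algebra k B] [Algebra k Q] [Algebra k R] [Algebra Y Q] [Algebra Y R] [Algebra B Q] [Algebra B R]
  [IsScalarTower k Y Q] [IsScalarTower k Y R]

theorem RG.comap {w : Valuation R ℤᵐ⁰} (hw : ∀ y : Y, y ≠ 0 → w (algebraMap Y R y) = 1)
    (φ : Q →ₐ[k] R) (hB : ∀ b : B, φ (algebraMap B Q b) = algebraMap B R b)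
    (hY : ∀ y : Y, IsAlgebraic Y (φ (algebraMap Y Q y))) (h : RG k Y B w) :
    RG k Y B (w.comap (φ : Q →+* R)) := by
  intro r β hβ x hx
  have h1 : ResIndep k (w.comap (algebraMap B R)) β := by
    intro p hp
    have h2 := hβ p hp
    rw [Valuation.comap_apply, Valuation.comap_apply] at h2
    have h3 : (φ : Q →+* R) (algebraMap B Q (MvPolynomial.aeval β p)) =
        algebraMap B R (MvPolynomial.aeval β p) := hB _
    rw [h3] at h2
    exact h2
  have h2 := h r β h1 x hx
  have h3 : AlgebraicIndependent k (fun j => φ (algebraMap Y Q (x j))) := by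
    have h4 : AlgebraicIndependent k (fun j => (φ.comp (IsScalarTower.toAlgHom k Y Q)) (x j)) :=
      hx.1.map' (φ.comp (IsScalarTower.toAlgHom k Y Q)).toRingHom.injective
    exact h4
  have h4 := resIndep_of_alg hw hx h2 (fun j => hY (x j)) h3
  intro p hp
  have h5 := h4 p hp
  rw [Valuation.comap_apply, ← h5]
  congr 1
  rw [RingHom.coe_coe, MvPolynomial.comp_aeval_apply]
  congr 2
  funext i
  rcases i with i | i
  · exact hB (β i)
  · rfl

end comap

end Pf72953.Osp
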