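import Mathlib
import Pool.Agent.Lib.Pf72953z.RGb
import Pool.Agent.Lib.Pf72953z.RGc
import Pool.Agent.Lib.Pf72953z.DefsP
import Pool.Agent.Lib.Pf72953z.LowA
import Pool.Agent.Lib.Pf72953b.GalConj
import Pool.Agent.Lib.Pf72953k.Main

/-!
MODULE Pf72953z.TransG: forms of `B` tested at the Gauss valuations of `R` and of `Q`.
-/

set_option autoImplicit false
set_option linter.style.haveILetI false
set_option linter.unusedSectionVars false

open scoped WithZero
open Pf72953 Pf72953.Mov Pf72953.Up Pf72953.Br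

namespace Pf72953.Osp

theorem logBasis_of_equiv {k K ι : Type*} [Field k] [CharZero k] [Field K] [Algebra k K]
    {w w' : Valuation K ℤᵐ⁰} {c : ι → K} (h : LogBasis k w c) (he : w.IsEquiv w') :
    LogBasis k w' c := ⟨h.tb, fun i a => (he _ _).1 (h.der i a)⟩

section

variable {k B Y Z Q R J : Type*} [Field k] [CharZero k] [IsAlgClosed k] [Field B] [Field Y] [Field Z]
  [Field Q] [Field R] [Algebra k B] [Algebra k Y] [Algebra k Z] [Algebra k Q] [Algebra k R]
  [Algebra B Z] [Algebra B Q] [Algebra B R] [Algebra Y Z] [Algebra Y Q] [Algebra Y R]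
  [Algebra Z Q] [Algebra Z R] [IsScalarTower k B Z] [IsScalarTower k B Q] [IsScalarTower k B R]
  [IsScalarTower k Y Z] [IsScalarTower k Y Q] [IsScalarTower k Y R] [IsScalarTower k Z Q]
  [IsScalarTower k Z R] [IsScalarTower B Z Q] [IsScalarTower B Z R] [IsScalarTower Y Z Q]
  [IsScalarTower Y Z R] [Algebra.EssFiniteType k B] [Algebra.EssFiniteType k Y]
  [Algebra.EssFiniteType k Z] [FiniteDimensional Z Q] [IsGalois Z Q] [FiniteDimensional Z R]
  [IsGalois Z R] [Fintype J]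

/-- if the Gauss valuation of `Q` is unramified over `Z`, that of `R` is so, too -/
theorem unr_transfer (hcomp : Twr.IsCompositum k B Y Z)
    (hdim : dimension k B + dimension k Y = dimension k Z) (hR : CondY k Y B Z Q R)
    {w₀ : Valuation Q ℤᵐ⁰} {w₁ : Valuation R ℤᵐ⁰} (h₀ : IsDivisorial k Q w₀)
    (h₁ : IsDivisorial k R w₁) (hg₀ : RG k Y B w₀) (hg₁ : RG k Y B w₁)
    (he : ∀ b : B, w₁ (algebraMap B R b) ≤ 1 ↔ w₀ (algebraMap B Q b) ≤ 1) (hU : Unr Z w₀) :
    Unr Z w₁ := by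
  by_contra hcon
  have hY : ∀ y : Y, y ≠ 0 → w₁ (algebraMap Y R y) = 1 := fun y hy => hg₁.triv_left h₁ hy
  obtain ⟨φ, hφB, hφY, hφd, hφU⟩ := hR w₁ h₁ hY hcon
  have hg₂ : RG k Y B (w₁.comap (φ : Q →+* R)) := RG.comap hY φ hφB hφY hg₁
  refine hφU (unr_of_conj (w := w₀) (fun z => ?_) hU)
  refine RG.unique hcomp hdim h₀ hφd hg₀ hg₂ (fun b => ?_) z
  rw [← he b, Valuation.comap_apply]
  have h1 : (φ : Q →+* R) (algebraMap B Q b) = algebraMap B R b := hφB b
  rw [h1]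

/-- the estimate -/
theorem GForm.transfer (hcomp : Twr.IsCompositum k B Y Z)
    (hdim : dimension k B + dimension k Y = dimension k Z) (hR : CondY k Y B Z Q R)
    {r : J → ℕ} {a : ∀ j, Fin (r j + 1) → B} {x : Fin (dimension k B) → B}
    (hx : IsTranscendenceBasis k x) {m : ℕ} {q : J → ℕ} {h : B} (hh : h ∈ GForm k Y R a x m q)
    {s n : ℕ} {η : B} (hη : η ∈ WReg k x n) (hs : m ≤ s * n) :
    η ^ s * h ∈ GForm k Y Q a x (s * n + m) q := by
  classical
  intro w₀ hw₀ hg₀ t₀ ht₀ l hl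
  obtain ⟨u, hu⟩ : ∃ u, u = w₀.comap (algebraMap B Q) := ⟨_, rfl⟩
  have hub : ∀ b : B, w₀ (algebraMap B Q b) = u b := fun b => by rw [hu, Valuation.comap_apply]
  haveI : Algebra.EssFiniteType k Q := Algebra.EssFiniteType.comp k Z Q
  have hud : IsDivisorial k B u := by
    rw [hu]
    exact hw₀.restrict (hg₀.nontriv hcomp hdim hw₀)
  obtain ⟨w₁, hw₁, hg₁, he, -⟩ := RG.exists (R := R) (Z := Z) (Y := Y) hcomp hdim hud
  have heq : (w₁.comap (algebraMap B R)).IsEquiv u :=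
    Valuation.isEquiv_iff_val_le_one.2 (fun {b} => he b)
  obtain ⟨t₁, ht₁⟩ := exists_unif w₁ hw₁.nontrivial
  obtain ⟨c, hc, hest⟩ := hh w₁ hw₁ hg₁ t₁ ht₁ l (fun j l' => by
    have h1 := hl j l'
    rw [hub, hub] at h1
    exact (heq _ _).2 h1)
  have hcu : LogBasis k u c := logBasis_of_equiv hc heq
  have hc0 : LogBasis k (w₀.comap (algebraMap B Q)) c := hu ▸ hcu
  refine ⟨c, hc0, ?_⟩
  -- the form `η`
  obtain ⟨c', hc', t, ht0, ht, hη'⟩ := WReg.log_bound hx hη hud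
  rw [hc'.vol_eq hcu x] at hη'
  -- everything is in `u`
  have hvol : w₀ (algebraMap B Q (jac hc0.tb x)) * ∏ i, w₀ (algebraMap B Q (c i)) =
      u (jac hcu.tb x) * ∏ i, u (c i) := by
    rw [hub]
    congr 1
    exact Finset.prod_congr rfl fun i _ => hub _
  have hprod : ∏ j, w₀ (algebraMap B Q (a j (l j))) ^ q j = ∏ j, u (a j (l j)) ^ q j :=
    Finset.prod_congr rfl fun j _ => by rw [hub]
  rw [hvol, hprod, hub]
  set V := u (jac hcu.tb x) * ∏ i, u (c i) with hV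
  -- the estimate of `h` in `B`
  have hB : ∀ b : B, w₁ t₁ ≤ w₁ (algebraMap B R b) →
      u h * V ^ m ≤ u b ^ m * ∏ j, u (a j (l j)) ^ q j := by
    intro b hb
    have h1 : w₁ (algebraMap B R (h * (jac hc.tb x * ∏ i, c i) ^ m)) ≤
        w₁ (algebraMap B R (b ^ m * ∏ j, a j (l j) ^ q j)) := by
      simp only [map_mul, map_pow, map_prod]
      exact hest.trans (mul_le_mul_left (pow_le_pow_left' hb m) _)
    have h2 := (heq _ _).1 h1
    simpa only [map_mul, map_pow, map_prod] using h2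
  have hut₀ : ∀ b : B, u b < 1 → u b ≤ w₀ t₀ := fun b hb => by
    rw [← hub]
    exact ht₀.le _ (by rw [hub]; exact hb)
  have hηs : (u η * V ^ n) ^ s ≤ u t ^ (n * s) := by
    calc (u η * V ^ n) ^ s ≤ (u t ^ n) ^ s := pow_le_pow_left' hη' s
      _ = u t ^ (n * s) := (pow_mul _ _ _).symm
  have hsplit : u (η ^ s * h) * V ^ (s * n + m) = (u η * V ^ n) ^ s * (u h * V ^ m) := by
    rw [map_mul, map_pow, mul_pow (u η) (V ^ n) s, ← pow_mul V n s, pow_add V (s * n) m,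
      mul_comm s n]
    exact mul_mul_mul_comm _ _ _ _
  rw [hsplit]
  by_cases hU : Unr Z w₀
  · -- unramified
    have hU₁ : Unr Z w₁ := unr_transfer hcomp hdim hR hw₀ hw₁ hg₀ hg₁
      (fun b => by rw [hub]; exact he b) hU
    obtain ⟨z, hz1, hz2⟩ := hU₁ t₁ ht₁.lt_one
    obtain ⟨b, hb1, hb2⟩ := RG.unif hcomp hdim hw₁ hg₁ z hz1
    have hub1 : u b < 1 := by
      have h1 := heq.lt_one_iff_lt_one (x := b)
      exact h1.1 hb1
    calc (u η * V ^ n) ^ s * (u h * V ^ m)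
        ≤ u t ^ (n * s) * (u b ^ m * ∏ j, u (a j (l j)) ^ q j) :=
          mul_le_mul' hηs (hB b (hz2.trans hb2))
      _ ≤ w₀ t₀ ^ (n * s) * (w₀ t₀ ^ m * ∏ j, u (a j (l j)) ^ q j) :=
          mul_le_mul' (pow_le_pow_left' (hut₀ t ht) _)
            (mul_le_mul_left (pow_le_pow_left' (hut₀ b hub1) m) _)
      _ = w₀ t₀ ^ (s * n + m) * ∏ j, u (a j (l j)) ^ q j := by
          rw [← mul_assoc, ← pow_add, mul_comm n s]
  · -- ramified
    have hram : ∀ b : B, u b < 1 → u b ≤ w₀ t₀ ^ 2 := by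
      intro b hb
      unfold Unr at hU
      push Not at hU
      obtain ⟨z, hz1, hz2⟩ := hU
      have h1 := hz2 (algebraMap B Z b) (by
        rw [← IsScalarTower.algebraMap_apply B Z Q, hub]
        exact hb)
      rw [← IsScalarTower.algebraMap_apply B Z Q] at h1
      have h2 : w₀ (algebraMap B Q b) < w₀ t₀ := h1.trans_le (ht₀.le z hz1)
      have h0 : 0 < w₀ t₀ := zero_lt_iff.2 ((Valuation.ne_zero_iff w₀).2 ht₀.ne_zero)
      have h3 : w₀ (algebraMap B Q b / t₀) < 1 := by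
        rw [map_div₀, div_lt_one₀ h0]
        exact h2
      have h4 := ht₀.le _ h3
      rw [map_div₀, div_le_iff₀ h0] at h4
      rw [← hub, sq]
      exact h4
    have h1 : u h * V ^ m ≤ 1 * ∏ j, u (a j (l j)) ^ q j := by
      have h2 := hB 1 (by rw [map_one, map_one]; exact ht₁.lt_one.le)
      rwa [map_one, one_pow] at h2
    calc (u η * V ^ n) ^ s * (u h * V ^ m)
        ≤ u t ^ (n * s) * (1 * ∏ j, u (a j (l j)) ^ q j) := mul_le_mul' hηs h1
      _ ≤ (w₀ t₀ ^ 2) ^ (n * s) * (1 * ∏ j, u (a j (l j)) ^ q j) :=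
          mul_le_mul_left (pow_le_pow_left' (hram t ht) _) _
      _ ≤ w₀ t₀ ^ (s * n + m) * ∏ j, u (a j (l j)) ^ q j := by
          rw [one_mul, ← pow_mul]
          refine mul_le_mul_left (pow_le_pow_right_of_le_one' ht₀.lt_one.le ?_) _
          rw [mul_comm n s]
          omega

theorem GKod.transfer (hcomp : Twr.IsCompositum k B Y Z)
    (hdim : dimension k B + dimension k Y = dimension k Z) (hB : kodairaDim k B ≠ ⊥)
    (hR : CondY k Y B Z Q R) {r : J → ℕ} {a : ∀ j, Fin (r j + 1) → B} {c : ℕ}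
    (h : GKod k Y R a c) : GKod k Y Q a c := by
  obtain ⟨x, hx, m, hm, q, h₀, hh0, hh, f, hf, hfh⟩ := h
  obtain ⟨n, hn, η, hη, hη0, -⟩ := (PF.ge_zero hB).exists_coord hx
  have hs : m ≤ m * n := Nat.le_mul_of_pos_right m hn
  refine ⟨x, hx, m * n + m, by omega, q, η ^ m * h₀, mul_ne_zero (pow_ne_zero _ hη0) hh0,
    GForm.transfer hcomp hdim hR hx hh hη hs, f, hf, fun i => ?_⟩
  have h1 := GForm.transfer hcomp hdim hR hx (hfh i) hη hs
  have h2 : f i * (η ^ m * h₀) = η ^ m * (f i * h₀) := by ring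
  rw [h2]
  exact h1

end

end Pf72953.Osp
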