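import Mathlib
import Pool.Agent.Lib.Pf72953z.UpA
import Pool.Agent.Lib.Pf72953z.UpB
import Pool.Agent.Lib.Pf72953k.Main

/-!
The one-sided product formula: the upper bound over `Y`.
-/

set_option autoImplicit false
set_option linter.style.haveILetI false
set_option linter.unusedSectionVars false

open scoped WithZero
open Pf72953 Pf72953.Mov Pf72953.Up Pf72953.Br

namespace Pf72953.Osp

section OE

variable {k B Y Z R J : Type*} [Field k] [CharZero k] [IsAlgClosed k] [Field B] [Field Y]
  [Field Z] [Field R] [Algebra k B] [Algebra k Y] [Algebra k Z] [Algebra k R]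
  [Algebra B Z] [Algebra B R] [Algebra Y Z] [Algebra Y R] [Algebra Z R] [IsScalarTower k B Z]
  [IsScalarTower k B R] [IsScalarTower k Y Z] [IsScalarTower k Y R] [IsScalarTower k Z R]
  [IsScalarTower B Z R] [IsScalarTower Y Z R] [Algebra.EssFiniteType k B]
  [Algebra.EssFiniteType k Y] [Algebra.EssFiniteType k Z] [FiniteDimensional Z R] [IsGalois Z R]
  [Fintype J]

/-- the upper bound over `Y` -/
theorem upper_osp (hcomp : Twr.IsCompositum k B Y Z)
    (hdim : dimension k B + dimension k Y = dimension k Z) {M : SmoothModel k Y}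
    {r : J → ℕ} {a : ∀ j, Fin (r j + 1) → B} {n : ℕ} {ρ : Fin n → Z} {jj : Fin n → J} {N : ℕ}
    (hρ : Rho k Y Z R M a ρ jj N) {c : ℕ} (hc : KodairaGE Y R c) : GKod k Y R a c := by
  classical
  haveI : CharZero Y := charZero_of_injective_algebraMap (algebraMap k Y).injective
  haveI : Algebra.EssFiniteType k R := Algebra.EssFiniteType.comp k Z R
  haveI : Algebra.EssFiniteType Y R := Algebra.EssFiniteType.of_comp k Y R
  obtain ⟨x, hx⟩ := exists_tb k B
  have hxZ : IsTranscendenceBasis Y (fun i => algebraMap B Z (x i)) :=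
    Up.tb_over (by omega) (PF.alg_of_compositum (PF.IsCompositum.symm hcomp)) hx
  have hxR : IsTranscendenceBasis Y (fun i => algebraMap B R (x i)) := by
    have h1 := hxZ.algebraMap_comp (A := R)
    have h2 : (algebraMap Z R ∘ fun i => algebraMap B Z (x i)) = fun i => algebraMap B R (x i) := by
      funext i
      exact (IsScalarTower.algebraMap_apply B Z R (x i)).symm
    rwa [h2] at h1
  have hcard : Fintype.card (Fin (dimension k B)) = Fintype.card (Fin (dimension Y R)) := by
    rw [card_eq_of_isTranscendenceBasis hxR, Fintype.card_fin]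
  let e : Fin (dimension Y R) ≃ Fin (dimension k B) := (Fintype.equivOfCardEq hcard).symm
  obtain ⟨m, hm, g₀, hg₀', hne, f, hf, hff'⟩ := hc.exists_coord ((isTranscendenceBasis_equiv e).2 hxR)
  have hre : ∀ g : R, g ∈ WReg Y ((fun i => algebraMap B R (x i)) ∘ e) m →
      g ∈ WReg Y (fun i => algebraMap B R (x i)) m := by
    intro g hg
    have h1 := WReg.reindex hg e.symm
    have h2 : ((fun i => algebraMap B R (x i)) ∘ e) ∘ e.symm = fun i => algebraMap B R (x i) := by
      funext i
      simp
    rwa [h2] at h1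
  have hg₀ := hre _ hg₀'
  have hff := fun i => hre _ (hff' i)
  set d := Module.finrank Z R with hd
  have hd1 : 1 ≤ d := Module.finrank_pos
  set q : J → ℕ := fun j => ∑ l, if jj l = j then N * (m * d) else 0 with hq
  -- the space of forms
  set V : Set B := GForm k Y R a x (m * d) q with hV
  have hexp : ∀ g ∈ WReg Y (fun i => algebraMap B R (x i)) m, g ≠ 0 →
      ∃ (p : ℕ) (y : Fin (p + 1) → Y) (h : Fin (p + 1) → B), (∀ l, h l ∈ V) ∧
        nfo ρ m g = ∑ l, algebraMap B Z (h l) * algebraMap Y Z (y l) := by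
    intro g hg hg0
    obtain ⟨p, y, h, hy, -, hsum⟩ := nfo_mem hcomp hdim hρ hx hg hg0
    exact ⟨p, y, h, fun l => nfo_comp hcomp hdim hρ hx hg hy hsum l, hsum⟩
  have hnf0 : ∀ g : R, g ≠ 0 → nfo ρ m g ≠ 0 := by
    intro g hg
    refine mul_ne_zero ?_ (Finset.prod_ne_zero_iff.mpr fun l _ => pow_ne_zero _ (hρ.ne l))
    rwa [Algebra.norm_ne_zero_iff]
  obtain ⟨v₀, hv₀, hv₀ne⟩ : ∃ v₀ ∈ V, v₀ ≠ 0 := by
    obtain ⟨p, y, h, hh, hsum⟩ := hexp g₀ hg₀ hne
    by_contra hcon
    push Not at hcon
    apply hnf0 g₀ hne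
    rw [hsum]
    refine Finset.sum_eq_zero fun l _ => ?_
    rw [hcon _ (hh l), map_zero, zero_mul]
  -- the ratios of forms
  set T : Set R := {θ | ∃ p ∈ V, θ = algebraMap B R (p / v₀)} with hT
  set F₀ := IntermediateField.adjoin Y T with hF₀
  have hmemF : ∀ g ∈ WReg Y (fun i => algebraMap B R (x i)) m,
      algebraMap Z R (nfo ρ m g / algebraMap B Z v₀) ∈ F₀ := by
    intro g hg
    rcases eq_or_ne g 0 with rfl | hg0
    · have h1 : nfo ρ m (0 : R) = 0 := by
        rw [nfo, Algebra.norm_zero, zero_mul]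
      rw [h1, zero_div, map_zero]
      exact F₀.zero_mem
    · obtain ⟨p, y, h, hh, hsum⟩ := hexp g hg hg0
      rw [hsum, Finset.sum_div, map_sum]
      refine F₀.sum_mem fun l _ => ?_
      have h1 : algebraMap Z R (algebraMap B Z (h l) * algebraMap Y Z (y l) / algebraMap B Z v₀) =
          algebraMap Y R (y l) * algebraMap B R (h l / v₀) := by
        rw [map_div₀, map_mul, map_div₀, ← IsScalarTower.algebraMap_apply B Z R,
          ← IsScalarTower.algebraMap_apply Y Z R, ← IsScalarTower.algebraMap_apply B Z R]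
        ring
      rw [h1]
      exact F₀.mul_mem (F₀.algebraMap_mem _) (IntermediateField.subset_adjoin Y T ⟨_, hh l, rfl⟩)
  have hratio : ∀ i, ∀ l : ℕ, algebraMap Z R (Algebra.norm Z
      (f i + algebraMap Y R (l : Y))) ∈ F₀ := by
    intro i l
    have h1 : (f i + algebraMap Y R (l : Y)) * g₀ ∈ WReg Y (fun i => algebraMap B R (x i)) m := by
      rw [add_mul]
      exact WReg.add (hff i) (WReg.smul hg₀ _)
    have h2 := F₀.div_mem (hmemF _ h1) (hmemF _ hg₀)
    have h3 : algebraMap Z R (nfo ρ m ((f i + algebraMap Y R (l : Y)) * g₀) / algebraMap B Z v₀) /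
        algebraMap Z R (nfo ρ m g₀ / algebraMap B Z v₀) =
        algebraMap Z R (Algebra.norm Z (f i + algebraMap Y R (l : Y))) := by
      rw [← map_div₀]
      congr 1
      have h4 : nfo ρ m ((f i + algebraMap Y R (l : Y)) * g₀) =
          Algebra.norm Z (f i + algebraMap Y R (l : Y)) * nfo ρ m g₀ := by
        rw [nfo, nfo, map_mul, mul_assoc]
      have h5 := hnf0 g₀ hne
      have h6 : algebraMap B Z v₀ ≠ 0 := by simpa using hv₀ne
      rw [h4]
      field_simp
    rwa [h3] at h2
  have halg : ∀ i, IsAlgebraic (Algebra.adjoin Y T) (f i) := by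
    intro i
    rw [← IntermediateField.isAlgebraic_adjoin_iff]
    exact isAlgebraic_of_norm F₀.toSubalgebra _ (fun l => by
      have h1 := hratio i l
      rwa [map_natCast] at h1 ⊢)
  obtain ⟨ψ, hψ, hψT⟩ := exists_indep_in_set T f hf halg
  choose p hp hpψ using hψT
  have hp' : AlgebraicIndependent k (fun i => p i / v₀) := by
    have h1 : AlgebraicIndependent k ψ := hψ.restrictScalars (algebraMap k Y).injective
    have h2 : ψ = fun i => (IsScalarTower.toAlgHom k B R) (p i / v₀) := funext hpψ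
    rw [h2] at h1
    exact AlgebraicIndependent.of_comp _ h1
  refine ⟨x, hx, m * d, Nat.one_le_iff_ne_zero.mpr (Nat.mul_ne_zero (by omega) (by omega)), q,
    v₀, hv₀ne, hv₀, fun i => p i / v₀, hp', fun i => ?_⟩
  rw [div_mul_cancel₀ _ hv₀ne]
  exact hp i

end OE

end Pf72953.Osp
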