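import Mathlib
import Pool.Agent.Lib.Pf72953z.WCov
import Pool.Agent.Lib.Pf72953z.LowC
import Pool.Agent.Lib.Pf72953z.UpC
import Pool.Agent.Lib.Pf72953z.RhoE
import Pool.Agent.Lib.Pf72953z.TransG
import Pool.Agent.Lib.Pf72953j.Plus2

/-!
The one-sided product formula (lower bound).
-/

set_option autoImplicit false
set_option linter.style.haveILetI false

open scoped WithZero
open Pf72953 Pf72953.Mov Pf72953.Up Pf72953.Br

namespace Pf72953.Osp

/-- **The one-sided product formula** (lower bound): `M` a smooth complete variety with function field `Y`, `B` any function field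
with `κ(B) ≥ 0`, `Q` a finite Galois extension of `Z = Y·B` whose branch divisors over `B` are set-theoretically divisors of
sections `∑ a_l s_l`; the Kodaira dimension of `Q` over `k` is at least the sum of the Kodaira dimensions over `B` and over `Y`. -/
theorem plus3 {k B Y Z Q R₁ R₂ : Type*} [Field k] [CharZero k] [IsAlgClosed k] [Field B] [Field Y]
    [Field Z] [Field Q] [Field R₁] [Field R₂] [Algebra k B] [Algebra k Y] [Algebra k Z] [Algebra k Q]
    [Algebra k R₁] [Algebra k R₂] [Algebra B Z] [Algebra B Q] [Algebra B R₁] [Algebra B R₂]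
    [Algebra Y Z] [Algebra Y Q] [Algebra Y R₁] [Algebra Y R₂]
    [Algebra Z Q] [Algebra Z R₁] [Algebra Z R₂] [IsScalarTower k B Z] [IsScalarTower k B Q]
    [IsScalarTower k B R₁] [IsScalarTower k B R₂]
    [IsScalarTower k Y Z] [IsScalarTower k Y Q] [IsScalarTower k Y R₁] [IsScalarTower k Y R₂]
    [IsScalarTower k Z Q] [IsScalarTower k Z R₁] [IsScalarTower k Z R₂] [IsScalarTower B Z Q]
    [IsScalarTower B Z R₁] [IsScalarTower B Z R₂] [IsScalarTower Y Z Q]
    [IsScalarTower Y Z R₁] [IsScalarTower Y Z R₂] [Algebra.EssFiniteType k B]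
    [Algebra.EssFiniteType k Y] [Algebra.EssFiniteType k Z] [FiniteDimensional Z Q] [IsGalois Z Q]
    [FiniteDimensional Z R₁] [IsGalois Z R₁] [FiniteDimensional Z R₂] [IsGalois Z R₂]
    (M : SmoothModel k Y)
    (hcomp : Twr.IsCompositum k B Y Z) (hdim : dimension k B + dimension k Y = dimension k Z)
    (hY : kodairaDim k Y ≠ ⊥) (hB : kodairaDim k B ≠ ⊥) (hmv : WMoves k M B Z Q)
    (hC1 : ∀ (i : M.I) (w : Valuation R₁ ℤᵐ⁰), Br.Bad k M B Z i w → ∃ φ : Q →ₐ[k] R₁,
      (∀ y : Y, φ (algebraMap Y Q y) = algebraMap Y R₁ y) ∧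
      (∀ b : B, IsAlgebraic B (φ (algebraMap B Q b))) ∧
      Br.Bad k M B Z i (w.comap (φ : Q →+* R₁)))
    (hC2 : CondY k Y B Z Q R₂) :
    kodairaDim B R₁ + kodairaDim Y R₂ ≤ kodairaDim k Q := by
  classical
  haveI : Algebra.EssFiniteType k R₂ := Algebra.EssFiniteType.comp k Z R₂
  haveI : Algebra.EssFiniteType Y R₂ := Algebra.EssFiniteType.of_comp k Y R₂
  haveI : Algebra.EssFiniteType k Q := Algebra.EssFiniteType.comp k Z Q
  obtain ⟨n, D, hbr, hram, hcov⟩ := exists_wcover hcomp hdim hmv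
  -- over `B`
  have hB' : kodairaDim B R₁ ≤ logKodairaDim M (fun j => (D j).S) := by
    refine Tow.side M hcomp hdim hY (fun j => (D j).S) (σ := fun j => (D j).s 0)
      (fun j => (D j).s_mem 0) (fun j => (D j).s_indep.ne_zero 0) fun i w hw => ?_
    obtain ⟨φ, hφY, hφB, hbad⟩ := hC1 i w hw
    obtain ⟨l, hl⟩ := hcov i _ hbad
    refine ⟨l, ⟨(D l).S, (D l).r, (D l).s, fun i => φ (algebraMap B Q ((D l).a i)), (D l).s_mem,
      (D l).s_indep, fun i => hφB _, ⟨0, ?_⟩⟩, rfl, ?_⟩
    · rw [map_ne_zero, Ne, map_eq_zero]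
      exact (D l).a_indep.ne_zero 0
    · rw [Valuation.comap_apply, Valuation.comap_apply] at hl
      have h1 : (φ : Q →+* R₁) (algebraMap Y Q ((D l).S.gen i)) =
          algebraMap Y R₁ ((D l).S.gen i) := hφY _
      rw [h1] at hl
      refine lt_of_eq_of_lt (congrArg _ ?_) hl
      change ∑ i, φ (algebraMap B Q ((D l).a i)) * algebraMap Y R₁ ((D l).s i) =
        φ (∑ i, algebraMap B Q ((D l).a i) * algebraMap Y Q ((D l).s i))
      rw [map_sum]
      refine Finset.sum_congr rfl fun i _ => ?_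
      rw [map_mul, hφY]
  rcases kodairaDim_eq (k := Y) (K := R₂) with h2 | ⟨b, hb, hb'⟩
  · rw [h2]
    simp
  rcases Twr.logKodairaDim_eq (M := M) (fun j => (D j).S) with h1 | ⟨a, ha, ha'⟩
  · rw [h1] at hB'
    rw [le_bot_iff.mp hB']
    simp
  obtain ⟨p, ρ, jj, N, hρ⟩ := exists_rho hcomp hdim D hcov hC2
  have hG : GKod k Y Q (fun j => (D j).a) b :=
    GKod.transfer hcomp hdim hB hC2 (upper_osp hcomp hdim hρ hb)
  have hab : KodairaGE k Q (a + b) := lower_osp hcomp hdim hY hB D hram ha hG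
  rw [ha'] at hB'
  rw [hb']
  refine (add_le_add hB' le_rfl).trans (le_trans (le_of_eq ?_)
    (le_iSup₂_of_le (a + b) hab le_rfl))
  push_cast
  rfl

end Pf72953.Osp
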