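import Mathlib
import Pool.Agent.Lib.Pf72953n.RigX
import Pool.Agent.Lib.Pf72953z.RGc

/-!
The conditions on the ramification of the Galois hulls, for all divisorial valuations which are trivial on the field of
constants (no model of the base).
-/

set_option autoImplicit false
set_option linter.style.haveILetI false

open scoped WithZero Polynomial
open Pf72953 Pf72953.Mov

namespace Pf72953.Tow

/-- `w` is a divisorial valuation of `R/k`, trivial on `U`, at which `R/Z` is ramified -/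
structure RamD (k : Type*) (U Z : Type*) {R : Type*} [Field k] [Field U] [Field Z] [Field R]
    [Algebra k R] [Algebra U R] [Algebra Z R] (w : Valuation R ℤᵐ⁰) : Prop where
  div : IsDivisorial k R w
  triv : ∀ b : U, b ≠ 0 → w (algebraMap U R b) = 1
  ram : ¬ Br.Unr Z w

variable {k Ω : Type*} [Field k] [Field Ω] [Algebra k Ω]

variable [CharZero k] [IsAlgClosed k] [IsAlgClosed Ω]

theorem ram_comap2 {F U W Z Q R : IntermediateField k Ω} [Fact (U ≤ Z)] [Fact (W ≤ Z)]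
    [Fact (U ≤ Q)] [Fact (W ≤ Q)] [Fact (Z ≤ Q)] [Fact (U ≤ R)] [Fact (W ≤ R)] [Fact (Z ≤ R)]
    [Fact (F ≤ R)] (hR : Fin' R) (hQ : Fin' Q) (hZ : Z ≤ U ⊔ W)
    (hZQ : Gal Z Q) (hF : ∀ x ∈ R, IsAlgebraic F x)
    (ψ : Ω ≃ₐ[k] Ω) (hψQ : ∀ x ∈ Q, ψ x ∈ R) (hψF : ∀ x ∈ F, ψ.symm x ∈ Q)
    (hψU : ∀ x ∈ U, IsAlgebraic U (ψ x)) (hψW : Fixes ψ W)
    {w : Valuation R ℤᵐ⁰} (hw : RamD k U Z w)
    {σ : Ω ≃ₐ[k] Ω} (hσZ : Fixes σ Z) (hσR : Stab σ R)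
    (hσ : ∀ z : R, w z ≤ 1 → w (⟨σ z, hσR z z.2⟩ - z) < 1)
    (hσU : ∀ x ∈ R, IsAlgebraic U x → σ x = x)
    {x : Ω} (hx : x ∈ Q) (hne : σ (ψ x) ≠ ψ x) :
    RamD k U Z (w.comap (resHom ψ hψQ : Q →+* R)) := by
  have hUQ : U ≤ Q := Fact.out
  have hWZ : W ≤ Z := Fact.out
  have hUZ : U ≤ Z := Fact.out
  set φ : Q →+* R := (resHom ψ hψQ : Q →+* R) with hφ
  have hφc : ∀ y : Q, ((φ y : R) : Ω) = ψ y := fun _ => rfl
  have htriv : ∀ b : U, b ≠ 0 → w (φ (algebraMap U Q b)) = 1 := by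
    intro b hb
    have h1 : IsAlgebraic U (φ (algebraMap U Q b)) := by
      rw [← isAlgebraic_algebraMap_iff (A := Ω) (algebraMap R Ω).injective]
      exact hψU b b.2
    refine val_eq_one_of_isIntegral (B := U) hw.triv ?_ (isAlgebraic_iff_isIntegral.1 h1)
    rw [map_ne_zero, map_ne_zero]
    exact hb
  have hdiv : IsDivisorial k Q (w.comap φ) := by
    letI : Algebra Q R := φ.toAlgebra
    haveI : IsScalarTower k Q R := IsScalarTower.of_algebraMap_eq fun c =>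
      ((resHom ψ hψQ).commutes c).symm
    have hnt : ∃ a : Q, a ≠ 0 ∧ w (algebraMap Q R a) ≠ 1 := by
      by_contra hcon
      push Not at hcon
      obtain ⟨r, hr0, hr⟩ := hw.div.nontrivial
      apply hr
      let g : F →+* Q :=
        { toFun := fun y => ⟨ψ.symm y, hψF y y.2⟩
          map_one' := Subtype.ext (map_one ψ.symm)
          map_mul' := fun a b => Subtype.ext (map_mul ψ.symm (a : Ω) b)
          map_zero' := Subtype.ext (map_zero ψ.symm)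
          map_add' := fun a b => Subtype.ext (map_add ψ.symm (a : Ω) b) }
      letI : Algebra F Q := g.toAlgebra
      haveI : IsScalarTower F Q R := IsScalarTower.of_algebraMap_eq fun y => by
        apply Subtype.ext
        exact (ψ.apply_symm_apply (y : Ω)).symm
      have h1 : IsAlgebraic F (r : Ω) := hF r r.2
      have h2 : IsAlgebraic F r := by
        rw [← isAlgebraic_algebraMap_iff (A := Ω) (algebraMap R Ω).injective]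
        exact h1
      have h3 : IsAlgebraic Q r := h2.tower_top (L := Q)
      exact val_eq_one_of_isIntegral (B := Q) hcon hr0 (isAlgebraic_iff_isIntegral.1 h3)
    exact hw.div.restrict hnt
  refine ⟨hdiv, fun b hb => htriv b hb, fun hU => ?_⟩
  -- the inertia group of `Q/Z` at `w ∘ φ` is not trivial
  haveI := (hZQ.finite hQ).1
  set s' : Ω ≃ₐ[k] Ω := (ψ.trans σ).trans ψ.symm with hs'
  have hs'U : Fixes s' U := fun z hz => by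
    show ψ.symm (σ (ψ z)) = z
    rw [hσU _ (hψQ z (hUQ hz)) (hψU z hz), AlgEquiv.symm_apply_apply]
  have hs'W : Fixes s' W := fun z hz => by
    show ψ.symm (σ (ψ z)) = z
    rw [hψW z hz, hσZ z (hWZ hz), AlgEquiv.symm_apply_eq, hψW z hz]
  have hs'Z : Fixes s' Z := (hs'U.sup79 hs'W).mono hZ
  have h1 := inertia_of_unr (k := k) (Z := Z) (Q := Q) (w := w.comap φ) hdiv.const hU
    (resAlg s' (hZQ.stab s' hs'Z) (hZQ.stab s'.symm hs'Z.symm79) hs'Z) (fun z hz => ?_)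
  · have h2 := congrArg (fun e : Q ≃ₐ[Z] Q => ((e ⟨x, hx⟩ : Q) : Ω)) h1
    have h3 : ψ.symm (σ (ψ x)) = x := h2
    rw [AlgEquiv.symm_apply_eq] at h3
    exact hne h3
  · rw [Valuation.comap_apply] at hz ⊢
    have h2 := hσ (φ z) hz
    have h3 : φ (resAlg s' (hZQ.stab s' hs'Z) (hZQ.stab s'.symm hs'Z.symm79) hs'Z z - z) =
        ⟨σ (φ z), hσR (φ z) (φ z).2⟩ - φ z := by
      rw [map_sub]
      congr 1
      apply Subtype.ext
      exact ψ.apply_symm_apply _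
    rw [h3]
    exact h2

omit [IsAlgClosed k] in
/-- the inertia group moves one of the conjugates of `Q` -/
theorem ram_sigma {F U Z Q R₁ R C D : IntermediateField k Ω}
    [Fact (U ≤ R)] [Fact (Z ≤ R)]
    (hR : Fin' R) (hZR : Gal Z R) (hUZ : U ≤ Z) (hFZ : F ≤ Z) (hDZ : D ≤ Z)
    (hmin : ∀ L : IntermediateField k Ω, (∀ τ : Ω ≃ₐ[k] Ω, Fixes τ F → ∀ x ∈ Q, τ x ∈ L) → R₁ ≤ L)
    (hRle : R ≤ D ⊔ (R₁ ⊔ (C ⊔ F))) (hCR : C ≤ R) (hCU : ∀ x ∈ C, IsAlgebraic U x)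
    {w : Valuation R ℤᵐ⁰} (hw : RamD k U Z w) :
    ∃ σ : Ω ≃ₐ[k] Ω, Fixes σ Z ∧ (∀ x ∈ R, IsAlgebraic U x → σ x = x) ∧
      (∃ hσR : Stab σ R, ∀ z : R, w z ≤ 1 → w (⟨σ z, hσR z z.2⟩ - z) < 1) ∧
      ∃ τ : Ω ≃ₐ[k] Ω, Fixes τ F ∧ ∃ x ∈ Q, σ (τ x) ≠ τ x := by
  haveI := (hZR.finite hR).1
  haveI := (hZR.finite hR).2
  obtain ⟨σ₀, hσ₀, hne⟩ : ∃ σ : R ≃ₐ[Z] R, (∀ z, w z ≤ 1 → w (σ z - z) < 1) ∧ σ ≠ 1 := by
    by_contra hcon
    push Not at hcon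
    exact hw.ram (Br.unr_of_inertia hcon)
  obtain ⟨σ, hσZ, hσ⟩ := hZR.exists_ext hR σ₀
  have hσR : Stab σ R := hZR.stab σ hσZ
  have hσ' : ∀ z : R, w z ≤ 1 → w (⟨σ z, hσR z z.2⟩ - z) < 1 := fun z hz => by
    have h1 : (⟨σ z, hσR z z.2⟩ : R) = σ₀ z := Subtype.ext (hσ z)
    rw [h1]
    exact hσ₀ z hz
  have hσU : ∀ x ∈ R, IsAlgebraic U x → σ x = x := fun x hx hxU =>
    fixes_of_inertia hw.triv (hσZ.mono hUZ) hσR hσ' hx hxU
  refine ⟨σ, hσZ, hσU, ⟨hσR, hσ'⟩, ?_⟩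
  by_contra hcon
  push Not at hcon
  apply hne
  have hσC : Fixes σ C := fun x hx => hσU x (hCR hx) (hCU x hx)
  have h1 : R₁ ≤ fixF79 σ := hmin (fixF79 σ) fun τ hτ x hx => hcon τ hτ x hx
  have h2 : R ≤ fixF79 σ := hRle.trans (sup_le (hσZ.mono hDZ)
    (sup_le h1 (sup_le (fixes_iff79.1 hσC) (hσZ.mono hFZ))))
  ext z
  rw [← hσ z]
  exact h2 z.2

/-- the conclusion of the conditions: a valuation `w` of `R`, trivial on `M`, is moved to `Q` by an embedding over `W` -/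
def Moved (k : Type*) {Ω : Type*} [Field k] [Field Ω] [Algebra k Ω]
    (M W Z Q : IntermediateField k Ω) {R : IntermediateField k Ω} [Fact (M ≤ Z)] [Fact (W ≤ Z)]
    [Fact (M ≤ Q)] [Fact (W ≤ Q)] [Fact (Z ≤ Q)] [Fact (M ≤ R)] [Fact (W ≤ R)] [Fact (Z ≤ R)]
    (w : Valuation R ℤᵐ⁰) : Prop :=
  ∃ φ : Q →ₐ[k] R, (∀ b : W, φ (algebraMap W Q b) = algebraMap W R b) ∧
    (∀ y : M, IsAlgebraic M (φ (algebraMap M Q y))) ∧ RamD k M Z (w.comap (φ : Q →+* R)) ∧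
    ∀ (WM : SmoothModel k W) (j : WM.I), Br.PrimeAt WM M Z j w →
      Br.PrimeAt WM M Z j (w.comap (φ : Q →+* R))

omit [CharZero k] [IsAlgClosed k] [IsAlgClosed Ω] in
theorem _root_.Pf72953.Br.Bad.ramD {W' U Z R : Type*} [Field W'] [Field U] [Field Z] [Field R]
    [Algebra k W'] [Algebra k R] [Algebra U R] [Algebra Z R] [Algebra U Z] [Algebra W' Z]
    [Algebra W' R] {WM : SmoothModel k W'} {j : WM.I} {w : Valuation R ℤᵐ⁰}
    (h : Br.Bad k WM U Z j w) : RamD k U Z w := ⟨h.div, h.triv, h.ram⟩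

omit [CharZero k] [IsAlgClosed k] [IsAlgClosed Ω] in
/-- the version for prime divisors of a model of `W` -/
theorem Moved.bad {M W Z Q R : IntermediateField k Ω} [Fact (M ≤ Z)] [Fact (W ≤ Z)]
    [Fact (M ≤ Q)] [Fact (W ≤ Q)] [Fact (Z ≤ Q)] [Fact (M ≤ R)] [Fact (W ≤ R)] [Fact (Z ≤ R)]
    {w : Valuation R ℤᵐ⁰} (hm : Moved k M W Z Q w) {WM : SmoothModel k W} {j : WM.I}
    (hw : Br.Bad k WM M Z j w) : ∃ φ : Q →ₐ[k] R,
      (∀ b : W, φ (algebraMap W Q b) = algebraMap W R b) ∧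
      (∀ y : M, IsAlgebraic M (φ (algebraMap M Q y))) ∧
      Br.Bad k WM M Z j (w.comap (φ : Q →+* R)) := by
  obtain ⟨φ, h1, h2, h3, h4⟩ := hm
  exact ⟨φ, h1, h2, h3.div, h3.triv, h4 WM j hw.prime, h3.ram⟩

omit [CharZero k] [IsAlgClosed k] [IsAlgClosed Ω] in
/-- a valuation which is Gauss over `W` is moved to such a valuation, with the same restriction to `W` -/
theorem Moved.rg {M W Z Q R : IntermediateField k Ω} [Fact (M ≤ Z)] [Fact (W ≤ Z)]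
    [Fact (M ≤ Q)] [Fact (W ≤ Q)] [Fact (Z ≤ Q)] [Fact (M ≤ R)] [Fact (W ≤ R)] [Fact (Z ≤ R)]
    {w : Valuation R ℤᵐ⁰} (hm : Moved k M W Z Q w) (hw : RamD k M Z w) (hg : Osp.RG k M W w) :
    ∃ φ : Q →ₐ[k] R, (∀ b : W, φ (algebraMap W Q b) = algebraMap W R b) ∧
      (∀ y : M, IsAlgebraic M (φ (algebraMap M Q y))) ∧
      RamD k M Z (w.comap (φ : Q →+* R)) ∧ Osp.RG k M W (w.comap (φ : Q →+* R)) := by
  obtain ⟨φ, h1, h2, h3, -⟩ := hm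
  exact ⟨φ, h1, h2, h3, hg.comap hw.triv φ h1 h2⟩

theorem moved {F U W Z Q R : IntermediateField k Ω} [Fact (U ≤ Z)] [Fact (W ≤ Z)]
    [Fact (U ≤ Q)] [Fact (W ≤ Q)] [Fact (Z ≤ Q)] [Fact (U ≤ R)] [Fact (W ≤ R)] [Fact (Z ≤ R)]
    [Fact (F ≤ R)] (hR : Fin' R) (hQ : Fin' Q) (hZ : Z ≤ U ⊔ W) (hUW : Indep U W)
    (hZQ : Gal Z Q) (hF : ∀ x ∈ R, IsAlgebraic F x)
    (ψ : Ω ≃ₐ[k] Ω) (hψQ : ∀ x ∈ Q, ψ x ∈ R) (hψF : ∀ x ∈ F, ψ.symm x ∈ Q)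
    (hψU : ∀ x ∈ U, IsAlgebraic U (ψ x)) (hψW : Fixes ψ W)
    {w : Valuation R ℤᵐ⁰} (hw : RamD k U Z w)
    {σ : Ω ≃ₐ[k] Ω} (hσZ : Fixes σ Z)
    (hσ : ∃ hσR : Stab σ R, ∀ z : R, w z ≤ 1 → w (⟨σ z, hσR z z.2⟩ - z) < 1)
    (hσU : ∀ x ∈ R, IsAlgebraic U x → σ x = x)
    {x : Ω} (hx : x ∈ Q) (hne : σ (ψ x) ≠ ψ x) : Moved k U W Z Q w := by
  obtain ⟨hσR, hσ⟩ := hσ
  refine ⟨resHom ψ hψQ, fun b => Subtype.ext (hψW b b.2), fun y => ?_, ?_, ?_⟩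
  · rw [← isAlgebraic_algebraMap_iff (A := Ω) (algebraMap R Ω).injective]
    exact hψU y y.2
  · exact ram_comap2 (F := F) hR hQ hZ hZQ hF ψ hψQ hψF hψU hψW hw hσZ hσR hσ hσU hx hne
  · exact fun WM j h => primeAt_comap2 hR hZ hUW ψ hψQ hψU hψW hw.triv h

/-- the Galois hull `R` of `Q` over `X·V·Y`, `X = k(x)`, `x` a transcendence basis of `M`: base `M` -/
theorem cond1D {V E M P₀ P Y Q X C : IntermediateField k Ω} (h : Step V E M P₀)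
    (hGP : Gal V P) (hPP : P₀ ≤ P) (hfP : Fin' P) (hY : Fin' Y) (hi : Indep (M ⊔ P) Y)
    (hQ : Fin' Q) (hG : Gal (E ⊔ Y) Q) (hN : M ⊔ P ≤ Q) (hC : Fin' C)
    (hXM : X ≤ M) (hMX : ∀ x ∈ M, IsAlgebraic X x) (hXC : Gal X C)
    [Fact (M ≤ M ⊔ (P ⊔ Y))] [Fact (P ⊔ Y ≤ M ⊔ (P ⊔ Y))] [Fact (M ≤ Q)]
    [Fact (P ⊔ Y ≤ Q)] [Fact (M ⊔ (P ⊔ Y) ≤ Q)] :
    ∃ R : IntermediateField k Ω, Fin' R ∧ Gal (X ⊔ (V ⊔ Y)) R ∧ Q ≤ R ∧ C ≤ R ∧
      ∃ (_ : Fact (M ≤ R)) (_ : Fact (P ⊔ Y ≤ R)) (_ : Fact (M ⊔ (P ⊔ Y) ≤ R)),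
        ∀ w : Valuation R ℤᵐ⁰, RamD k M (M ⊔ (P ⊔ Y) : IntermediateField k Ω) w →
          Moved k M (P ⊔ Y) (M ⊔ (P ⊔ Y)) Q w := by
  set F : IntermediateField k Ω := X ⊔ (V ⊔ Y) with hFdef
  set Z : IntermediateField k Ω := M ⊔ (P ⊔ Y) with hZdef
  have hVP : V ≤ P := hGP.le
  have hPQ : P ≤ Q := le_sup_right.trans hN
  have hMQ : M ≤ Q := le_sup_left.trans hN
  have hYQ : Y ≤ Q := le_sup_right.trans hG.le
  have hXF : X ≤ F := le_sup_left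
  have hVF : V ≤ F := le_sup_left.trans le_sup_right
  have hYF : Y ≤ F := le_sup_right.trans le_sup_right
  have hFQ : F ≤ Q := sup_le (hXM.trans hMQ) (sup_le (hVP.trans hPQ) hYQ)
  have hMZ : M ≤ Z := le_sup_left
  have hPZ : P ≤ Z := le_sup_left.trans le_sup_right
  have hYZ : Y ≤ Z := le_sup_right.trans le_sup_right
  have hFZ : F ≤ Z := sup_le (hXM.trans hMZ) (sup_le (hVP.trans hPZ) hYZ)
  have hZQ' : Z ≤ Q := sup_le hMQ (sup_le hPQ hYQ)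
  have hEZ : E ⊔ Y ≤ Z := sup_le (h.le.trans (sup_le hMZ (hPP.trans hPZ))) hYZ
  have hZQ : Gal Z Q := hG.mono79 hEZ hZQ'
  have hZF : ∀ x ∈ Z, IsAlgebraic F x := alg_iff.2 (sup_le ((alg_iff.1 hMX).trans (cl_mono hXF))
    (sup_le ((alg_iff.1 hGP.alg).trans (cl_mono hVF)) (hYF.trans le_cl)))
  have halg : ∀ x ∈ Q, IsAlgebraic F x := fun x hx => alg_trans79 hFZ hZF (hZQ.alg x hx)
  have hFfin : Fin' F := fin_le hQ hFQ
  obtain ⟨R₁, hR₁, hGR₁, hQR₁, hmin⟩ := exists_hull hFfin hQ hFQ halg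
  have hGC : Gal F (C ⊔ F) := hXC.base F hXF
  set R : IntermediateField k Ω := R₁ ⊔ (C ⊔ F) with hRdef
  have hGR : Gal F R := hGR₁.sup hGC
  have hR : Fin' R := fin_sup hR₁ (fin_sup hC hFfin)
  have hQR : Q ≤ R := hQR₁.trans le_sup_left
  have hR₁R : R₁ ≤ R := le_sup_left
  have hCR : C ≤ R := (le_sup_left.trans le_sup_right : C ≤ R₁ ⊔ (C ⊔ F))
  have hZR' : Z ≤ R := hZQ'.trans hQR
  haveI fMR : Fact (M ≤ R) := ⟨hMQ.trans hQR⟩
  haveI fWR : Fact (P ⊔ Y ≤ R) := ⟨(sup_le hPQ hYQ).trans hQR⟩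
  haveI fZR : Fact (Z ≤ R) := ⟨hZR'⟩
  haveI fFR : Fact (F ≤ R) := ⟨hFZ.trans hZR'⟩
  have hZR : Gal Z R := hGR.mono79 hFZ hZR'
  refine ⟨R, hR, hGR, hQR, hCR, fMR, fWR, fZR, ?_⟩
  intro w hw
  obtain ⟨σ, hσZ, hσM, hσ, τ, hτ, x, hx, hxne⟩ := ram_sigma (F := F) (D := F) hR hZR hMZ hFZ hFZ
    hmin le_sup_right hCR (fun x hx => alg_mono hXM (hXC.alg x hx)) hw
  obtain ⟨γ, hγ, hγP⟩ := h.exists_lift' hGP hfP hY
    (hi.mono_left (fin_sup h.fgM hfP) hY (sup_le_sup_left hPP M)) τ.symm (hτ.symm79.mono hVF)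
  have hγE : Fixes γ E := hγ.mono le_sup_left
  have hγY : Fixes γ Y := hγ.mono le_sup_right
  set ψ : Ω ≃ₐ[k] Ω := γ.trans τ with hψ
  have hψa : ∀ y, ψ y = τ (γ y) := fun _ => rfl
  have hψs : ∀ y, ψ.symm y = γ.symm (τ.symm y) := fun _ => rfl
  have hψQ : ∀ y ∈ Q, ψ y ∈ R := fun y hy =>
    hR₁R (hGR₁.stab τ hτ _ (hQR₁ (hG.stab γ hγ y hy)))
  have hψF : ∀ y ∈ F, ψ.symm y ∈ Q := fun y hy => by
    rw [hψs, hτ.symm79 y hy]
    exact hG.stab γ.symm hγ.symm79 y (hFQ hy)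
  have hψM : ∀ y ∈ M, IsAlgebraic M (ψ y) := fun y hy => by
    have h1 : γ y ∈ M := h.stabM γ hγE y hy
    rw [hψa]
    exact alg_mono hXM ((hτ.mono hXF).isAlgebraic (hMX _ h1))
  have hψP : Fixes ψ P := fun y hy => by
    rw [hψa, hγP y hy, AlgEquiv.apply_symm_apply]
  have hψY : Fixes ψ Y := fun y hy => by
    rw [hψa, hγY y hy, hτ y (hYF hy)]
  have hψW : Fixes ψ (P ⊔ Y) := hψP.sup79 hψY
  have hIMW : Indep M (P ⊔ Y) := by
    have h1 := hi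
    have h2 : Indep M P := (h.indep.symm.up hfP h.fgM hPP
      ((alg_iff.1 hGP.alg).trans (cl_mono h.le_P))).symm
    have h3 : Indep P Y := hi.mono_left (fin_sup h.fgM hfP) hY le_sup_right
    unfold Indep at h1 h2 h3 ⊢
    rw [sup_assoc] at h1
    omega
  refine moved (F := F) hR hQ le_rfl hIMW hZQ hGR.alg ψ hψQ hψF hψM hψW hw hσZ hσ hσM
    (x := γ.symm x) (hG.stab γ.symm hγ.symm79 x hx) ?_
  have h1 : ψ (γ.symm x) = τ x := by rw [hψa, AlgEquiv.apply_symm_apply]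
  rw [h1]
  exact hxne

/-- the Galois hull `R` of `Q` over `T·V·Y`, `T = k(x)`, `x` a transcendence basis of `M`: base `M`, for the pull-backs to
`X` -/
theorem cond1XD {V X E M P₀ P Y Q T C : IntermediateField k Ω} (h : Step V E M P₀)
    (hVX : V ≤ X) (hX : Fin' X) (hP : P = X ⊔ P₀) (hMP : Indep M P)
    (hY : Fin' Y) (hi : Indep (M ⊔ P) Y) (hQ : Fin' Q) (hG : Gal (E ⊔ Y) Q) (hN : M ⊔ P₀ ≤ Q)
    (hC : Fin' C) (hTM : T ≤ M) (hMT : ∀ x ∈ M, IsAlgebraic T x) (hTC : Gal T C)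
    [Fact (M ≤ M ⊔ (P ⊔ Y))] [Fact (P ⊔ Y ≤ M ⊔ (P ⊔ Y))] [Fact (M ≤ X ⊔ Q)]
    [Fact (P ⊔ Y ≤ X ⊔ Q)] [Fact (M ⊔ (P ⊔ Y) ≤ X ⊔ Q)] :
    ∃ R : IntermediateField k Ω, Fin' R ∧ Gal (T ⊔ (V ⊔ Y)) R ∧ Q ≤ R ∧ C ≤ R ∧
      ∃ (_ : Fact (M ≤ X ⊔ R)) (_ : Fact (P ⊔ Y ≤ X ⊔ R)) (_ : Fact (M ⊔ (P ⊔ Y) ≤ X ⊔ R)),
        ∀ w : Valuation (X ⊔ R : IntermediateField k Ω) ℤᵐ⁰,
          RamD k M (M ⊔ (P ⊔ Y) : IntermediateField k Ω) w →
            Moved k M (P ⊔ Y) (M ⊔ (P ⊔ Y)) (X ⊔ Q) w := by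
  set F : IntermediateField k Ω := T ⊔ (V ⊔ Y) with hFdef
  set Z : IntermediateField k Ω := M ⊔ (P ⊔ Y) with hZdef
  have hfP : Fin' P := hP ▸ fin_sup hX h.fgP
  have hXP : X ≤ P := hP ▸ le_sup_left
  have hPP : P₀ ≤ P := hP ▸ le_sup_right
  have hVP : V ≤ P := hVX.trans hXP
  have hP₀Q : P₀ ≤ Q := le_sup_right.trans hN
  have hMQ : M ≤ Q := le_sup_left.trans hN
  have hYQ : Y ≤ Q := le_sup_right.trans hG.le
  have hVQ : V ≤ Q := h.le_P.trans hP₀Q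
  have hTF : T ≤ F := le_sup_left
  have hVF : V ≤ F := le_sup_left.trans le_sup_right
  have hYF : Y ≤ F := le_sup_right.trans le_sup_right
  have hVYF : V ⊔ Y ≤ F := le_sup_right
  have hFQ : F ≤ Q := sup_le (hTM.trans hMQ) (sup_le hVQ hYQ)
  have hMZ : M ≤ Z := le_sup_left
  have hPZ : P ≤ Z := le_sup_left.trans le_sup_right
  have hYZ : Y ≤ Z := le_sup_right.trans le_sup_right
  have hXZ : X ≤ Z := hXP.trans hPZ
  have hFZ : F ≤ Z := sup_le (hTM.trans hMZ) (sup_le (hVP.trans hPZ) hYZ)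
  have hEZ : E ⊔ Y ≤ Z := sup_le (h.le.trans (sup_le hMZ (hPP.trans hPZ))) hYZ
  have hP₀cl : P₀ ≤ cl V := alg_iff.1 h.gal.alg
  have hMcl : M ≤ cl T := alg_iff.1 hMT
  have hQcl : Q ≤ cl F := by
    refine (alg_iff.1 hG.alg).trans (cl_le ?_)
    refine sup_le (h.le.trans (sup_le (hMcl.trans (cl_mono hTF)) (hP₀cl.trans (cl_mono hVF)))) ?_
    exact hYF.trans le_cl
  have halg : ∀ x ∈ Q, IsAlgebraic F x := alg_iff.2 hQcl
  have hFfin : Fin' F := fin_le hQ hFQ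
  obtain ⟨R₁, hR₁, hGR₁, hQR₁, hmin⟩ := exists_hull hFfin hQ hFQ halg
  have hGC : Gal F (C ⊔ F) := hTC.base F hTF
  set R : IntermediateField k Ω := R₁ ⊔ (C ⊔ F) with hRdef
  have hGR : Gal F R := hGR₁.sup hGC
  have hR : Fin' R := fin_sup hR₁ (fin_sup hC hFfin)
  have hQR : Q ≤ R := hQR₁.trans le_sup_left
  have hR₁R : R₁ ≤ R := le_sup_left
  have hCR : C ≤ R := (le_sup_left.trans le_sup_right : C ≤ R₁ ⊔ (C ⊔ F))
  have hZQ' : Z ≤ X ⊔ Q := Fact.out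
  have hZR' : Z ≤ X ⊔ R := hZQ'.trans (sup_le_sup_left hQR X)
  haveI fMR : Fact (M ≤ X ⊔ R) := ⟨hMZ.trans hZR'⟩
  haveI fWR : Fact (P ⊔ Y ≤ X ⊔ R) := ⟨(le_sup_right : P ⊔ Y ≤ Z).trans hZR'⟩
  haveI fZR : Fact (Z ≤ X ⊔ R) := ⟨hZR'⟩
  have hfXR : Fin' (X ⊔ R) := fin_sup hX hR
  have hfXQ : Fin' (X ⊔ Q) := fin_sup hX hQ
  have hZR : Gal Z (X ⊔ R) := by
    have h1 := gal_sup_base hGR hFZ
    have h2 : Z ⊔ R = X ⊔ R := le_antisymm (sup_le hZR' le_sup_right)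
      (sup_le_sup_right hXZ R)
    rwa [h2] at h1
  have hZQ : Gal Z (X ⊔ Q) := by
    have h1 := gal_sup_base hG hEZ
    have h2 : Z ⊔ Q = X ⊔ Q := le_antisymm (sup_le hZQ' le_sup_right)
      (sup_le_sup_right hXZ Q)
    rwa [h2] at h1
  refine ⟨R, hR, hGR, hQR, hCR, fMR, fWR, fZR, ?_⟩
  intro w hw
  obtain ⟨σ, hσZ, hσM, hσ, τ, hτ, x, hx, hxne⟩ := ram_sigma (F := F) (D := X) (C := C) (R₁ := R₁)
    (Q := Q) hfXR hZR hMZ hFZ hXZ hmin (sup_le_sup_left le_rfl X) (hCR.trans le_sup_right)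
    (fun x hx => alg_mono hTM (hTC.alg x hx)) hw
  -- the algebraic closure of `V·Y` in `P·Y` and its Galois hull
  have hVYA : V ⊔ Y ≤ P ⊔ Y := sup_le_sup_right hVP Y
  have hfA : Fin' (P ⊔ Y) := fin_sup hfP hY
  have hfVY : Fin' (V ⊔ Y) := fin_sup h.finV hY
  set D : IntermediateField k Ω := (P ⊔ Y) ⊓ cl (V ⊔ Y) with hD
  have hDA : D ≤ P ⊔ Y := inf_le_left
  have hVYD : V ⊔ Y ≤ D := le_inf hVYA le_cl
  have hfD : Fin' D := fin_le hfA hDA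
  have hDalg : ∀ x ∈ D, IsAlgebraic (V ⊔ Y : IntermediateField k Ω) x := fun x hx =>
    mem_cl.1 hx.2
  obtain ⟨P₁, hP₁, hGP₁, hDP₁, -⟩ := exists_hull hfVY hfD hVYD hDalg
  obtain ⟨γ, hγ, hγP⟩ := h.exists_liftY hGP₁ hP₁ hY
    (hi.mono_left (fin_sup h.fgM hfP) hY (sup_le_sup_left hPP M)) τ.symm (hτ.symm79.mono hVYF)
  have hγE : Fixes γ E := hγ.mono le_sup_left
  have hγY : Fixes γ Y := hγ.mono le_sup_right
  set ρ : Ω ≃ₐ[k] Ω := γ.trans τ with hρ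
  have hρa : ∀ y, ρ y = τ (γ y) := fun _ => rfl
  have hρs : ∀ y, ρ.symm y = γ.symm (τ.symm y) := fun _ => rfl
  have hρD : Fixes ρ D := fun y hy => by
    rw [hρa, hγP y (hDP₁ hy), AlgEquiv.apply_symm_apply]
  have hρR : ∀ y ∈ Q, ρ y ∈ R₁ := fun y hy => hGR₁.stab τ hτ _ (hQR₁ (hG.stab γ hγ y hy))
  -- dimensions
  have hIMW : Indep M (P ⊔ Y) := by
    have h1 := hi
    have h2 := hMP
    have h3 : Indep P Y := hi.mono_left (fin_sup h.fgM hfP) hY le_sup_right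
    unfold Indep at h1 h2 h3 ⊢
    rw [sup_assoc] at h1
    omega
  have e1 : dimension k (M ⊔ (P ⊔ Y) : IntermediateField k Ω) =
      dimension k M + dimension k (P ⊔ Y : IntermediateField k Ω) := hIMW
  have hDd : dimension k D = dimension k (V ⊔ Y : IntermediateField k Ω) := dim_eq hfD hVYD hDalg
  have iMVY : Indep M (V ⊔ Y) := hIMW.mono h.fgM hfA le_rfl hVYA
  have e2 : dimension k (M ⊔ (V ⊔ Y) : IntermediateField k Ω) =
      dimension k M + dimension k (V ⊔ Y : IntermediateField k Ω) := iMVY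
  have hDcl : D ≤ cl F := (inf_le_right : D ≤ cl (V ⊔ Y)).trans (cl_mono hVYF)
  set N : IntermediateField k Ω := Q ⊔ D with hNdef
  set N' : IntermediateField k Ω := N.map (ρ : Ω →ₐ[k] Ω) with hN'def
  have hfN : Fin' N := fin_sup hQ hfD
  have hN'eq : N' = Q.map (ρ : Ω →ₐ[k] Ω) ⊔ D := by
    rw [hN'def, hNdef, IntermediateField.map_sup]
    congr 1
    refine le_antisymm ?_ ?_
    · rintro _ ⟨y, hy, rfl⟩
      show ρ y ∈ D
      rw [hρD y hy]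
      exact hy
    · intro y hy
      exact ⟨y, hy, hρD y hy⟩
  have hN'le : N' ≤ R ⊔ D := by
    rw [hN'eq]
    refine sup_le_sup_right ?_ D
    rintro _ ⟨y, hy, rfl⟩
    exact hR₁R (hρR y hy)
  have hfN' : Fin' N' := fin_le (fin_sup hR hfD) hN'le
  have hMF : M ⊔ (V ⊔ Y) ≤ cl F := sup_le (hMcl.trans (cl_mono hTF)) (hVYF.trans le_cl)
  have hFM : F ≤ M ⊔ (V ⊔ Y) := sup_le_sup_right hTM _
  have dF : dimension k (M ⊔ (V ⊔ Y) : IntermediateField k Ω) = dimension k F :=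
    dim_eq (fin_sup h.fgM hfVY) hFM (alg_iff.2 hMF)
  have dN : dimension k N = dimension k F :=
    dim_eq hfN (hFQ.trans le_sup_left) (alg_iff.2 (sup_le hQcl hDcl))
  have hFN' : F ≤ N' := by
    intro y hy
    -- `y = τ (γ (γ⁻¹ y))`
    refine ⟨γ.symm y, (le_sup_left : Q ≤ N) (hG.stab γ.symm hγ.symm79 y (hFQ hy)), ?_⟩
    show ρ (γ.symm y) = y
    rw [hρa, AlgEquiv.apply_symm_apply, hτ y hy]
  have hRcl : R ≤ cl F := alg_iff.1 hGR.alg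
  have dN' : dimension k N' = dimension k F :=
    dim_eq hfN' hFN' (alg_iff.2 (hN'le.trans (sup_le hRcl hDcl)))
  have hclZ : ∀ K : IntermediateField k Ω, F ≤ K → K ≤ cl F → Fin' K →
      dimension k (K ⊔ (P ⊔ Y) : IntermediateField k Ω) =
        dimension k M + dimension k (P ⊔ Y : IntermediateField k Ω) := by
    intro K hFK hKF hK
    have h1 : dimension k (K ⊔ (P ⊔ Y) : IntermediateField k Ω) =
        dimension k (F ⊔ (P ⊔ Y) : IntermediateField k Ω) :=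
      dim_eq (fin_sup hK hfA) (sup_le_sup_right hFK _)
        (alg_iff.2 (sup_le (hKF.trans (cl_mono le_sup_left)) (le_sup_right.trans le_cl)))
    have h2 : dimension k (M ⊔ (P ⊔ Y) : IntermediateField k Ω) =
        dimension k (F ⊔ (P ⊔ Y) : IntermediateField k Ω) :=
      dim_eq (fin_sup h.fgM hfA) (sup_le hFZ le_sup_right)
        (alg_iff.2 (sup_le (hMcl.trans (cl_mono (hTF.trans le_sup_left)))
          (le_sup_right.trans le_cl)))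
    omega
  obtain ⟨ψ, hψA, hψN⟩ := exists_amalg (D := D) (N := N) (N' := N') (A := P ⊔ Y) hfN hfN' hfA
    le_sup_right hDA (fun x hx hxD => ⟨hx, cl_le (inf_le_right : D ≤ cl (V ⊔ Y)) (mem_cl.2 hxD)⟩)
    ρ hρD (fun x hx => ⟨x, hx, rfl⟩)
    (fun x hx => by
      obtain ⟨y, hy, rfl⟩ := hx
      have h1 : ρ.symm ((ρ : Ω →ₐ[k] Ω) y) = y := ρ.symm_apply_apply y
      rw [RingHom.coe_coe] at *
      rw [h1]
      exact hy)
    (by
      have h1 := hclZ N (hFQ.trans le_sup_left) (sup_le hQcl hDcl) hfN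
      omega)
    (by
      have h1 := hclZ N' hFN' (hN'le.trans (sup_le hRcl hDcl)) hfN'
      omega)
  have hψa : ∀ y ∈ Q, ψ y = τ (γ y) := fun y hy => hψN y ((le_sup_left : Q ≤ N) hy)
  have hψX : Fixes ψ X := hψA.mono (hXP.trans le_sup_left)
  have hψQ : ∀ y ∈ X ⊔ Q, ψ y ∈ X ⊔ R := by
    have h1 : (X ⊔ Q).map (ψ : Ω →ₐ[k] Ω) ≤ X ⊔ R := by
      rw [IntermediateField.map_sup]
      refine sup_le ?_ ?_
      · rintro _ ⟨y, hy, rfl⟩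
        show ψ y ∈ X ⊔ R
        rw [hψX y hy]
        exact (le_sup_left : X ≤ X ⊔ R) hy
      · rintro _ ⟨y, hy, rfl⟩
        show ψ y ∈ X ⊔ R
        rw [hψa y hy]
        exact (le_sup_right : R ≤ X ⊔ R) (hR₁R (hρR y hy))
    exact fun y hy => h1 ⟨y, hy, rfl⟩
  have hψsF : ∀ y ∈ F, ψ.symm y ∈ Q := fun y hy => by
    have h1 : γ.symm y ∈ Q := hG.stab γ.symm hγ.symm79 y (hFQ hy)
    have h2 : ψ (γ.symm y) = y := by
      rw [hψa _ h1, AlgEquiv.apply_symm_apply, hτ y hy]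
    have h3 : ψ.symm y = γ.symm y := by rw [AlgEquiv.symm_apply_eq, h2]
    rw [h3]
    exact h1
  have hψF : ∀ y ∈ X ⊔ F, ψ.symm y ∈ X ⊔ Q := by
    have h1 : (X ⊔ F).map (ψ.symm : Ω →ₐ[k] Ω) ≤ X ⊔ Q := by
      rw [IntermediateField.map_sup]
      refine sup_le ?_ ?_
      · rintro _ ⟨y, hy, rfl⟩
        show ψ.symm y ∈ X ⊔ Q
        rw [hψX.symm79 y hy]
        exact (le_sup_left : X ≤ X ⊔ Q) hy
      · rintro _ ⟨y, hy, rfl⟩
        exact (le_sup_right : Q ≤ X ⊔ Q) (hψsF y hy)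
    exact fun y hy => h1 ⟨y, hy, rfl⟩
  have hψM : ∀ y ∈ M, IsAlgebraic M (ψ y) := fun y hy => by
    have h1 : γ y ∈ M := h.stabM γ hγE y hy
    rw [hψa y (hMQ hy)]
    exact alg_mono hTM ((hτ.mono hTF).isAlgebraic (hMT _ h1))
  haveI fFR : Fact (X ⊔ F ≤ X ⊔ R) := ⟨sup_le_sup_left hGR.le X⟩
  have hXRF : ∀ y ∈ X ⊔ R, IsAlgebraic (X ⊔ F : IntermediateField k Ω) y := alg_iff.2
    (sup_le (le_sup_left.trans le_cl) (hRcl.trans (cl_mono le_sup_right)))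
  refine moved (F := X ⊔ F) hfXR hfXQ le_rfl hIMW hZQ hXRF ψ hψQ hψF hψM hψA hw hσZ hσ hσM
    (x := γ.symm x) ((le_sup_right : Q ≤ X ⊔ Q) (hG.stab γ.symm hγ.symm79 x hx)) ?_
  have h1 : ψ (γ.symm x) = τ x := by
    rw [hψa _ (hG.stab γ.symm hγ.symm79 x hx), AlgEquiv.apply_symm_apply]
  rw [h1]
  exact hxne

/-- the Galois hull `R` of `Q` over `M·X·Y`, `X = k(x)`, `x` a transcendence basis of `P`: base `P·Y`.
Only `Q/M·P·Y` Galois is needed. -/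
theorem cond2D {M P Y Q X C : IntermediateField k Ω} (hM : Fin' M) (hP : Fin' P) (hY : Fin' Y)
    (hMP : Indep M P) (hi : Indep (M ⊔ P) Y) (hQ : Fin' Q) (hG : Gal (M ⊔ (P ⊔ Y)) Q)
    (hC : Fin' C) (hXP : X ≤ P) (hPX : ∀ x ∈ P, IsAlgebraic X x) (hXC : Gal X C)
    [Fact (M ≤ M ⊔ (P ⊔ Y))] [Fact (P ⊔ Y ≤ M ⊔ (P ⊔ Y))] [Fact (M ≤ Q)]
    [Fact (P ⊔ Y ≤ Q)] [Fact (M ⊔ (P ⊔ Y) ≤ Q)] :
    ∃ R : IntermediateField k Ω, Fin' R ∧ Gal (M ⊔ (X ⊔ Y)) R ∧ Q ≤ R ∧ C ≤ R ∧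
      ∃ (_ : Fact (M ≤ R)) (_ : Fact (P ⊔ Y ≤ R)) (_ : Fact (M ⊔ (P ⊔ Y) ≤ R)),
        ∀ w : Valuation R ℤᵐ⁰,
          RamD k (P ⊔ Y : IntermediateField k Ω) (M ⊔ (P ⊔ Y) : IntermediateField k Ω) w →
            Moved k (P ⊔ Y) M (M ⊔ (P ⊔ Y)) Q w := by
  set F : IntermediateField k Ω := M ⊔ (X ⊔ Y) with hFdef
  set U : IntermediateField k Ω := P ⊔ Y with hUdef
  set Z : IntermediateField k Ω := M ⊔ U with hZdef
  have hMZ : M ≤ Z := le_sup_left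
  have hUZ : U ≤ Z := le_sup_right
  have hXU : X ≤ U := hXP.trans le_sup_left
  have hYU : Y ≤ U := le_sup_right
  have hMF : M ≤ F := le_sup_left
  have hXF : X ≤ F := le_sup_left.trans le_sup_right
  have hYF : Y ≤ F := le_sup_right.trans le_sup_right
  have hZQ' : Z ≤ Q := hG.le
  have hFZ : F ≤ Z := sup_le hMZ (sup_le (hXU.trans hUZ) (hYU.trans hUZ))
  have hFQ : F ≤ Q := hFZ.trans hZQ'
  have hUalg : U ≤ cl (X ⊔ Y) := sup_le ((alg_iff.1 hPX).trans (cl_mono le_sup_left))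
    (le_sup_right.trans le_cl)
  have hZF : ∀ x ∈ Z, IsAlgebraic F x := alg_iff.2 (sup_le (hMF.trans le_cl)
    (hUalg.trans (cl_mono le_sup_right)))
  have halg : ∀ x ∈ Q, IsAlgebraic F x := fun x hx => alg_trans79 hFZ hZF (hG.alg x hx)
  have hFfin : Fin' F := fin_le hQ hFQ
  obtain ⟨R₁, hR₁, hGR₁, hQR₁, hmin⟩ := exists_hull hFfin hQ hFQ halg
  have hGC : Gal F (C ⊔ F) := hXC.base F hXF
  set R : IntermediateField k Ω := R₁ ⊔ (C ⊔ F) with hRdef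
  have hGR : Gal F R := hGR₁.sup hGC
  have hR : Fin' R := fin_sup hR₁ (fin_sup hC hFfin)
  have hQR : Q ≤ R := hQR₁.trans le_sup_left
  have hR₁R : R₁ ≤ R := le_sup_left
  have hCR : C ≤ R := (le_sup_left.trans le_sup_right : C ≤ R₁ ⊔ (C ⊔ F))
  have hZR' : Z ≤ R := hZQ'.trans hQR
  haveI fMR : Fact (M ≤ R) := ⟨hMZ.trans hZR'⟩
  haveI fWR : Fact (U ≤ R) := ⟨hUZ.trans hZR'⟩
  haveI fZR : Fact (Z ≤ R) := ⟨hZR'⟩
  haveI fFR : Fact (F ≤ R) := ⟨hFZ.trans hZR'⟩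
  have hZR : Gal Z R := hGR.mono79 hFZ hZR'
  refine ⟨R, hR, hGR, hQR, hCR, fMR, fWR, fZR, ?_⟩
  intro w hw
  obtain ⟨σ, hσZ, hσU, hσ, τ, hτ, x, hx, hxne⟩ := ram_sigma (F := F) (D := F) hR hZR hUZ hFZ hFZ
    hmin le_sup_right hCR (fun x hx => alg_mono hXU (hXC.alg x hx)) hw
  have hτQ : ∀ y ∈ Q, τ y ∈ R := fun y hy => hR₁R (hGR₁.stab τ hτ _ (hQR₁ hy))
  have hτF : ∀ y ∈ F, τ.symm y ∈ Q := fun y hy => by
    rw [hτ.symm79 y hy]
    exact hFQ hy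
  have hτU : ∀ y ∈ U, IsAlgebraic U (τ y) := fun y hy =>
    alg_mono (sup_le hXU hYU : X ⊔ Y ≤ U)
      ((hτ.mono (sup_le hXF hYF)).isAlgebraic (mem_cl.1 (hUalg hy)))
  have hτM : Fixes τ M := hτ.mono hMF
  have hIMW : Indep U M := by
    have h1 := hi
    have h2 := hMP
    have h3 : Indep P Y := hi.mono_left (fin_sup hM hP) hY le_sup_right
    rw [hUdef]
    unfold Indep at h1 h2 h3 ⊢
    rw [sup_assoc, ← sup_comm] at h1
    omega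
  exact moved (F := F) hR hQ (by rw [hZdef, sup_comm]) hIMW hG hGR.alg τ hτQ hτF hτU hτM hw
    hσZ hσ hσU hx hxne

end Pf72953.Tow
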