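import Mathlib
import Pool.Agent.Lib.Pf72953z.Defs
import Pool.Agent.Lib.Pf72953z.Prime

/-!
MODULE Pf72953z.Gcd: line bundles on a smooth complete variety from finitely many prime elements on every chart.
-/

set_option autoImplicit false
set_option linter.style.haveILetI false

open scoped WithZero
open Pf72953 Pf72953.Mov Pf72953.Up

namespace Pf72953.Fac

/-- There are finitely many prime elements of `A` such that every nonzero `f ∈ F` is a unit times a product of powers (with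
exponents in `ℤ`) of them. -/
def FacOn {k Y : Type*} [Field k] [Field Y] [Algebra k Y] (A : Subalgebra k Y) (F : Set Y) : Prop :=
  ∃ S : Finset A, (∀ p ∈ S, Prime p) ∧ (∀ p ∈ S, ∀ q ∈ S, p ∣ q → p = q) ∧
    ∀ f ∈ F, f ≠ 0 → ∃ n : A → ℤ, ∃ u ∈ A, ∃ u' ∈ A, u * u' = 1 ∧ f = u * ∏ p ∈ S, (p : Y) ^ n p

section chart

variable {k Y : Type*} [Field k] [Field Y] [Algebra k Y] {A : Subalgebra k Y} {v : Valuation Y ℤᵐ⁰}

theorem val_unit_on (hv : PrimeOn A v) {u u' : Y} (hu : u ∈ A) (hu' : u' ∈ A) (h : u * u' = 1) :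
    v u = 1 := by
  refine le_antisymm (hv.le u hu) ?_
  by_contra hcon
  rw [not_le] at hcon
  have h1 : v u * v u' < 1 := mul_lt_one_of_lt_of_le hcon (hv.le u' hu')
  rw [← map_mul, h, map_one] at h1
  exact lt_irrefl _ h1

/-- the elements of the centre are divisible by a prime element of the centre -/
theorem dvd_of_lt (hv : PrimeOn A v) {p : A} (hp : Prime p) (hvp : v (p : Y) < 1) {a : A}
    (ha : v (a : Y) < 1) : p ∣ a := by
  have h1 : (Ideal.span {p}).IsPrime := (Ideal.span_singleton_prime hp.ne_zero).2 hp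
  have h2 : Ideal.span {p} ≠ ⊥ := by
    rw [Ne, Ideal.span_singleton_eq_bot]
    exact hp.ne_zero
  have h3 := hv.height h1 h2 (fun b hb => by
    obtain ⟨c, rfl⟩ := Ideal.mem_span_singleton'.1 hb
    change v ((c : Y) * p) < 1
    rw [map_mul, mul_comm]
    exact mul_lt_one_of_lt_of_le hvp (hv.le c c.2)) a ha
  exact Ideal.mem_span_singleton.1 h3

/-- a prime element of the centre is a uniformizer -/
theorem le_unif (hv : PrimeOn A v) {p : A} (hp : Prime p) (hvp : v (p : Y) < 1) {z : Y}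
    (hz : v z < 1) : v z ≤ v (p : Y) := by
  obtain ⟨a, ha, b, hb, hb1, rfl⟩ := hv.loc z hz.le
  rw [map_div₀, hb1, div_one] at hz ⊢
  obtain ⟨c, hc⟩ := dvd_of_lt hv hp hvp (a := ⟨a, ha⟩) hz
  have h1 : a = p * c := congrArg Subtype.val hc
  rw [h1, map_mul]
  exact mul_le_of_le_one_right' (hv.le c c.2)

theorem eq_of_prime (hv : PrimeOn A v) {v' : Valuation Y ℤᵐ⁰} (hv' : PrimeOn A v') {p : A}
    (hp : Prime p) (hvp : v (p : Y) < 1) (hvp' : v' (p : Y) < 1) (z : Y) : v z ≤ 1 ↔ v' z ≤ 1 := by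
  refine hv.eq_of_le hv' (fun a ha ha1 => ?_) z
  obtain ⟨c, hc⟩ := dvd_of_lt hv hp hvp (a := ⟨a, ha⟩) ha1
  have h1 : a = p * c := congrArg Subtype.val hc
  rw [h1, map_mul]
  exact mul_lt_one_of_lt_of_le hvp' (hv'.le c c.2)

/-- at most one of the primes vanishes -/
theorem one_prime (hv : PrimeOn A v) {S : Finset A} (hS : ∀ p ∈ S, Prime p)
    (hS' : ∀ p ∈ S, ∀ q ∈ S, p ∣ q → p = q) :
    (∀ p ∈ S, v (p : Y) = 1) ∨ ∃ p₀ ∈ S, v (p₀ : Y) < 1 ∧ ∀ p ∈ S, p ≠ p₀ → v (p : Y) = 1 := by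
  by_cases h : ∃ p₀ ∈ S, v (p₀ : Y) < 1
  · obtain ⟨p₀, hp₀, h1⟩ := h
    refine Or.inr ⟨p₀, hp₀, h1, fun p hp hne => le_antisymm (hv.le p p.2) ?_⟩
    by_contra hcon
    rw [not_le] at hcon
    exact hne (hS' p₀ hp₀ p hp (dvd_of_lt hv (hS p₀ hp₀) h1 hcon)).symm
  · push Not at h
    exact Or.inl fun p hp => le_antisymm (hv.le p p.2) (h p hp)

theorem val_prod_one {S : Finset A} (h : ∀ p ∈ S, v (p : Y) = 1) (n : A → ℤ) :
    v (∏ p ∈ S, (p : Y) ^ n p) = 1 := by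
  rw [map_prod]
  refine Finset.prod_eq_one fun p hp => ?_
  rw [map_zpow₀, h p hp, one_zpow]

theorem val_prod {S : Finset A} {p₀ : A} (hp₀ : p₀ ∈ S)
    (h : ∀ p ∈ S, p ≠ p₀ → v (p : Y) = 1) (n : A → ℤ) :
    v (∏ p ∈ S, (p : Y) ^ n p) = v (p₀ : Y) ^ n p₀ := by
  rw [map_prod, Finset.prod_eq_single_of_mem p₀ hp₀ fun p hp hne => ?_, map_zpow₀]
  rw [map_zpow₀, h p hp hne, one_zpow]

end chart

section bundle

variable {k Y : Type*} [Field k] [CharZero k] [Field Y] [Algebra k Y] {M : SmoothModel k Y}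

omit [CharZero k] in
theorem glueK (hM : Glued M) {i j : M.I} {v : Valuation Y ℤᵐ⁰} (hi : PrimeOn (M.A i) v)
    (hj : ∀ f ∈ M.A j, v f ≤ 1) : PrimeOn (M.A j) v := by
  refine ⟨hj, hi.nontriv, fun z hz => ?_⟩
  obtain ⟨a, ha, b, hb, hb1, rfl⟩ := hi.loc z hz
  obtain ⟨a₁, ha₁, b₁, hb₁, h1, rfl⟩ := hM i j v hi.le hj a ha
  obtain ⟨a₂, ha₂, b₂, hb₂, h2, rfl⟩ := hM i j v hi.le hj b hb
  rw [map_div₀, h2, div_one] at hb1
  have hne : ∀ y : Y, v y = 1 → y ≠ 0 := by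
    rintro y hy rfl
    rw [map_zero] at hy
    exact zero_ne_one hy
  refine ⟨a₁ * b₂, (M.A j).mul_mem ha₁ hb₂, b₁ * a₂, (M.A j).mul_mem hb₁ ha₂, ?_, ?_⟩
  · rw [map_mul, h1, hb1, one_mul]
  · have := hne _ h1
    have := hne _ h2
    have := hne _ hb1
    field_simp

/-- a line bundle from generators which are compatible at the prime divisors -/
theorem exists_bundle (hM : Glued M) (gen : M.I → Y) (hne : ∀ i, gen i ≠ 0)
    (h : ∀ (i j : M.I) (v : Valuation Y ℤᵐ⁰), PrimeOn (M.A i) v → PrimeOn (M.A j) v →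
      v (gen i) = v (gen j)) : ∃ T : LineBundle M, T.gen = gen := by
  have key : ∀ (i j : M.I) (v : Valuation Y ℤᵐ⁰), (∀ f ∈ M.A i, v f ≤ 1) →
      (∀ f ∈ M.A j, v f ≤ 1) → v (gen i) ≤ v (gen j) := by
    intro i j v hi hj
    have h0 : v (gen j) ≠ 0 := (Valuation.ne_zero_iff v).2 (hne j)
    rw [← div_le_one₀ (zero_lt_iff.2 h0), ← map_div₀]
    by_cases hf : ∃ a ∈ M.A i, ∃ b ∈ M.A i, v b = 1 ∧ gen i / gen j = a / b
    · obtain ⟨a, ha, b, -, hb1, e⟩ := hf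
      rw [e, map_div₀, hb1, div_one]
      exact hi a ha
    · obtain ⟨v', h1, h2, h3⟩ := hartogs_loc (chart_of_model M i) v hi hf
      have hj' : ∀ f ∈ M.A j, v' f ≤ 1 := by
        intro f hf
        obtain ⟨a, ha, b, hb, hb1, rfl⟩ := hM j i v hj hi f hf
        rw [map_div₀, h3 b hb hb1, div_one]
        exact h1.le a ha
      rw [map_div₀, h i j v' h1 (glueK hM h1 hj'),
        div_self ((Valuation.ne_zero_iff v').2 (hne j))] at h2
      exact absurd h2 (lt_irrefl _)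
  exact ⟨⟨gen, hne, fun i j v hi hj => le_antisymm (key i j v hi hj) (key j i v hj hi)⟩, rfl⟩

/-- the line bundle generated in codimension one by a tuple of functions -/
theorem exists_gcd_bundle (hM : Glued M) {F : Set Y} (hF : ∀ j, FacOn (M.A j) F) {r : ℕ}
    (a : Fin (r + 1) → Y) (ha : ∀ l, a l ∈ F) (ha0 : ∀ l, a l ≠ 0) :
    ∃ T : LineBundle M, (∀ l, a l ∈ T.sections) ∧ ∀ (j : M.I) (v : Valuation Y ℤᵐ⁰),
      PrimeOn (M.A j) v → (∀ l, v (a l) ≤ v (T.gen j)) ∧ ∃ l, v (a l) = v (T.gen j) := by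
  classical
  choose S hS hS' hfac using hF
  have hfa : ∀ (j : M.I) (l : Fin (r + 1)), ∃ n : M.A j → ℤ, ∃ u ∈ M.A j, ∃ u' ∈ M.A j,
      u * u' = 1 ∧ a l = u * ∏ p ∈ S j, (p : Y) ^ n p := fun j l => hfac j (a l) (ha l) (ha0 l)
  choose n u hu u' hu' huu hn using hfa
  let m : ∀ j, M.A j → ℤ := fun j p => Finset.univ.inf' Finset.univ_nonempty fun l => n j l p
  have hm : ∀ j p l, m j p ≤ n j l p := fun j p l => Finset.inf'_le _ (Finset.mem_univ l)
  have hm' : ∀ j p, ∃ l, n j l p = m j p := fun j p => by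
    obtain ⟨l, -, hl⟩ := Finset.exists_mem_eq_inf' Finset.univ_nonempty fun l => n j l p
    exact ⟨l, hl.symm⟩
  let gen : M.I → Y := fun j => ∏ p ∈ S j, (p : Y) ^ m j p
  have hp0 : ∀ j, ∀ p ∈ S j, (p : Y) ≠ 0 := fun j p hp h0 => (hS j p hp).ne_zero (Subtype.ext h0)
  have hgen0 : ∀ j, gen j ≠ 0 := fun j =>
    Finset.prod_ne_zero_iff.2 fun p hp => zpow_ne_zero _ (hp0 j p hp)
  have hval : ∀ (j : M.I) (v : Valuation Y ℤᵐ⁰), PrimeOn (M.A j) v →
      (∀ l, v (a l) ≤ v (gen j)) ∧ ∃ l, v (a l) = v (gen j) := by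
    intro j v hv
    have hval : ∀ l, v (a l) = v (∏ p ∈ S j, (p : Y) ^ n j l p) := fun l => by
      conv_lhs => rw [hn j l]
      rw [map_mul, val_unit_on hv (hu j l) (hu' j l) (huu j l), one_mul]
    rcases one_prime hv (hS j) (hS' j) with h1 | ⟨p₀, hp₀, hlt, h1⟩
    · have h2 : ∀ l, v (a l) = v (gen j) := fun l => by
        rw [hval, val_prod_one h1, val_prod_one h1]
      exact ⟨fun l => (h2 l).le, 0, h2 0⟩
    · have hv0 : 0 < v (p₀ : Y) := zero_lt_iff.2 ((Valuation.ne_zero_iff v).2 (hp0 j p₀ hp₀))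
      have h2 : ∀ l, v (a l) = v (p₀ : Y) ^ n j l p₀ := fun l => by rw [hval, val_prod hp₀ h1]
      have h3 : v (gen j) = v (p₀ : Y) ^ m j p₀ := val_prod hp₀ h1 _
      obtain ⟨l, hl⟩ := hm' j p₀
      refine ⟨fun l => ?_, l, by rw [h2, h3, hl]⟩
      rw [h2, h3]
      exact zpow_le_zpow_right_of_le_one₀ hv0 hlt.le (hm j p₀ l)
  obtain ⟨T, hT⟩ := exists_bundle hM gen hgen0 (fun i j v hi hj => by
    obtain ⟨h1, l, hl⟩ := hval i v hi
    obtain ⟨h2, l', hl'⟩ := hval j v hj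
    apply le_antisymm
    · rw [← hl]
      exact h2 l
    · rw [← hl']
      exact h1 l')
  refine ⟨T, fun l j => ?_, fun j v hv => by rw [hT]; exact hval j v hv⟩
  rw [hT]
  refine ⟨u j l * ∏ p ∈ S j, (p : Y) ^ (n j l p - m j p), ?_, ?_⟩
  · refine (M.A j).mul_mem (hu j l) (Subalgebra.prod_mem _ fun p _ => ?_)
    obtain ⟨e, he⟩ := Int.eq_ofNat_of_zero_le (sub_nonneg.2 (hm j p l))
    rw [he, zpow_natCast]
    exact (M.A j).pow_mem p.2 e
  · conv_lhs => rw [hn j l]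
    rw [mul_assoc, ← Finset.prod_mul_distrib]
    congr 1
    refine Finset.prod_congr rfl fun p hp => ?_
    rw [← zpow_add₀ (hp0 j p hp), sub_add_cancel]

/-- the line bundle of a prime divisor -/
theorem exists_prime_bundle (hM : Glued M) {F : Set Y} (hF : ∀ j, FacOn (M.A j) F) {i₀ : M.I}
    {v : Valuation Y ℤᵐ⁰} (hv : PrimeOn (M.A i₀) v) {f : Y} (hfF : f ∈ F) (hf0 : f ≠ 0)
    (hf : v f ≠ 1) :
    ∃ T : LineBundle M, (1 : Y) ∈ T.sections ∧ 1 < v (T.gen i₀) ∧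
      ∀ (j : M.I) (v' : Valuation Y ℤᵐ⁰), PrimeOn (M.A j) v' → 1 < v' (T.gen j) →
        ∀ z, v' z ≤ 1 ↔ v z ≤ 1 := by
  classical
  have hex : ∀ j, ∃ g : Y, g ≠ 0 ∧ (∃ b ∈ M.A j, 1 = b * g) ∧
      ((∀ f ∈ M.A j, v f ≤ 1) → ∃ p : M.A j, Prime p ∧ v (p : Y) < 1 ∧ g = (p : Y)⁻¹) ∧
      (¬ (∀ f ∈ M.A j, v f ≤ 1) → g = 1) := by
    intro j
    by_cases hc : ∀ f ∈ M.A j, v f ≤ 1
    · have hvj := glueK hM hv hc
      obtain ⟨S, hS, hS', hfac⟩ := hF j
      obtain ⟨n, u, hu, u', hu', huu, e⟩ := hfac f hfF hf0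
      rcases one_prime hvj hS hS' with h1 | ⟨p₀, hp₀, hlt, -⟩
      · exfalso
        apply hf
        rw [e, map_mul, val_prod_one h1, val_unit_on hvj hu hu' huu, one_mul]
      · have hp0 : (p₀ : Y) ≠ 0 := fun h0 => (hS p₀ hp₀).ne_zero (Subtype.ext h0)
        exact ⟨(p₀ : Y)⁻¹, inv_ne_zero hp0, ⟨p₀, p₀.2, (mul_inv_cancel₀ hp0).symm⟩,
          fun _ => ⟨p₀, hS p₀ hp₀, hlt, rfl⟩, fun h => absurd hc h⟩
    · exact ⟨1, one_ne_zero, ⟨1, (M.A j).one_mem, by rw [mul_one]⟩, fun h => absurd h hc,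
        fun _ => rfl⟩
  choose gen hgen0 hsec hgen1 hgen2 using hex
  -- the values of the generators at the prime divisors
  have hval : ∀ (j : M.I) (v' : Valuation Y ℤᵐ⁰), PrimeOn (M.A j) v' → v' (gen j) ≠ 1 →
      (∀ f ∈ M.A j, v f ≤ 1) ∧ (∀ z, v' z ≤ 1 ↔ v z ≤ 1) := by
    intro j v' hv' hne
    by_cases hc : ∀ f ∈ M.A j, v f ≤ 1
    · obtain ⟨p, hp, hvp, e⟩ := hgen1 j hc
      refine ⟨hc, fun z => (eq_of_prime (glueK hM hv hc) hv' hp hvp ?_ z).symm⟩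
      refine lt_of_le_of_ne (hv'.le p p.2) fun h1 => hne ?_
      rw [e, map_inv₀, h1, inv_one]
    · rw [hgen2 j hc, map_one] at hne
      exact absurd rfl hne
  have hiff : ∀ v' : Valuation Y ℤᵐ⁰, (∀ z, v' z ≤ 1 ↔ v z ≤ 1) → ∀ z, v' z < 1 ↔ v z < 1 := by
    intro v' h z
    rcases eq_or_ne z 0 with rfl | hz
    · simp
    have h1 := h z⁻¹
    rw [map_inv₀, map_inv₀, inv_le_one₀ (zero_lt_iff.2 ((Valuation.ne_zero_iff v').2 hz)),
      inv_le_one₀ (zero_lt_iff.2 ((Valuation.ne_zero_iff v).2 hz))] at h1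
    rw [← not_le, ← not_le, h1]
  have hcompat : ∀ (i j : M.I) (v' : Valuation Y ℤᵐ⁰), PrimeOn (M.A i) v' → PrimeOn (M.A j) v' →
      v' (gen i) ≤ v' (gen j) := by
    intro i j v' hi hj
    by_cases he : ∀ z, v' z ≤ 1 ↔ v z ≤ 1
    · have hci : ∀ f ∈ M.A i, v f ≤ 1 := fun f hf => (he f).1 (hi.le f hf)
      have hcj : ∀ f ∈ M.A j, v f ≤ 1 := fun f hf => (he f).1 (hj.le f hf)
      obtain ⟨p, hp, hvp, ep⟩ := hgen1 i hci
      obtain ⟨q, hq, hvq, eq⟩ := hgen1 j hcj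
      rw [ep, eq, map_inv₀, map_inv₀]
      have hp' : v' (p : Y) < 1 := (hiff v' he _).2 hvp
      have hq' : v' (q : Y) < 1 := (hiff v' he _).2 hvq
      have hq0 : 0 < v' (q : Y) := zero_lt_iff.2 ((Valuation.ne_zero_iff v').2 fun h0 =>
        hq.ne_zero (Subtype.ext h0))
      exact inv_anti₀ hq0 (le_unif hi hp hp' hq')
    · have h1 : v' (gen i) = 1 := by
        by_contra hcon
        exact he (hval i v' hi hcon).2
      have h2 : v' (gen j) = 1 := by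
        by_contra hcon
        exact he (hval j v' hj hcon).2
      rw [h1, h2]
  obtain ⟨T, hT⟩ := exists_bundle hM gen hgen0 fun i j v' hi hj =>
    le_antisymm (hcompat i j v' hi hj) (hcompat j i v' hj hi)
  refine ⟨T, fun j => ?_, ?_, fun j v' hv' hlt => ?_⟩
  · rw [hT]
    exact hsec j
  · rw [hT]
    obtain ⟨p, hp, hvp, e⟩ := hgen1 i₀ hv.le
    rw [e, map_inv₀]
    exact (one_lt_inv₀ (zero_lt_iff.2 ((Valuation.ne_zero_iff v).2 fun h0 =>
      hp.ne_zero (Subtype.ext h0)))).2 hvp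
  · rw [hT] at hlt
    exact (hval j v' hv' hlt.ne').2

end bundle

end Pf72953.Fac
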