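import Mathlib
import Pool.Agent.Lib.Pf72953b.Main
import Pool.Agent.Lib.Pf72953z.Final

/-!
Iitaka's inequality for isotrivial fibre spaces over a constant variety with factorial charts.
-/

set_option autoImplicit false
set_option linter.style.haveILetI false
set_option linter.unusedSectionVars false

open scoped WithZero
open Pf72953 Pf72953.Var Pf72953.Mov Pf72953.Twr Pf72953.Br

namespace Pf72953.Fac

variable {k B E L Y Z P G N J : Type*} [Field k] [CharZero k] [IsAlgClosed k] [Field B] [Field E]
  [Field L] [Field Y] [Field Z] [Field P] [Field G] [Field N]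
  [Algebra k B] [Algebra k E] [Algebra k L] [Algebra k Y] [Algebra k Z] [Algebra k P] [Algebra k G]
  [Algebra k N]
  [Algebra B E] [Algebra B L] [Algebra B Z] [Algebra B P] [Algebra B N]
  [Algebra E L] [Algebra E N] [Algebra Y Z] [Algebra Y P] [Algebra Y L] [Algebra Y N]
  [Algebra Z P] [Algebra Z L] [Algebra Z N] [Algebra P N] [Algebra L N] [Algebra G N]
  [IsScalarTower k B E] [IsScalarTower k B L] [IsScalarTower k B Z] [IsScalarTower k B P]
  [IsScalarTower k B N] [IsScalarTower k E L] [IsScalarTower k E N]
  [IsScalarTower k Y Z] [IsScalarTower k Y P] [IsScalarTower k Y L] [IsScalarTower k Y N]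
  [IsScalarTower k Z P] [IsScalarTower k Z L] [IsScalarTower k Z N] [IsScalarTower k P N]
  [IsScalarTower k L N] [IsScalarTower k G N]
  [IsScalarTower B E L] [IsScalarTower B E N] [IsScalarTower B Z P] [IsScalarTower B Z L]
  [IsScalarTower B Z N] [IsScalarTower B P N] [IsScalarTower B L N]
  [IsScalarTower Y Z P] [IsScalarTower Y Z L] [IsScalarTower Y Z N] [IsScalarTower Y P N]
  [IsScalarTower Y L N] [IsScalarTower E L N] [IsScalarTower Z P N] [IsScalarTower Z L N]
  {M : SmoothModel k Y}

/-- `BranchMoves` in the situation of the isotrivial fibre spaces, if `M` has factorial charts -/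
theorem branchMoves_main [FiniteDimensional E L] [FiniteDimensional Z P] [IsGalois Z P]
    [Algebra.EssFiniteType k B] [Algebra.EssFiniteType k E] [Algebra.EssFiniteType k Y]
    [Algebra.EssFiniteType k G]
    (hcomp : IsCompositum k B Y Z)
    (hdim : dimension k B + dimension k Y + dimension k G = dimension k E)
    (hP : IntermediateField.adjoin L (Set.range (algebraMap P N)) = ⊤)
    (hN : ∀ z : N, z ∈ IntermediateField.adjoin k
      (Set.range (algebraMap G N) ∪ Set.range (algebraMap P N)))
    (hk : Cardinal.aleph0 ≤ Algebra.trdeg ℚ k) (hF : Factorial M) : BranchMoves k M B Z P := by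
  classical
  obtain ⟨hfin, hgal⟩ := galois_up (Z := Z) hP
  haveI := hfin
  haveI := hgal
  haveI : CharZero B := charZero_of_injective_algebraMap (algebraMap k B).injective
  haveI : Algebra.EssFiniteType k L := Algebra.EssFiniteType.comp k E L
  haveI : Algebra.EssFiniteType k N := Algebra.EssFiniteType.comp k L N
  have hgen : ∀ z : Z, z ∈ IntermediateField.adjoin B (Set.range (algebraMap Y Z)) := by
    intro z
    have h1 : IntermediateField.adjoin k (Set.range (algebraMap B Z) ∪ Set.range (algebraMap Y Z)) ≤
        (IntermediateField.adjoin B (Set.range (algebraMap Y Z))).restrictScalars k := by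
      rw [IntermediateField.adjoin_le_iff]
      rintro _ (⟨b, rfl⟩ | ⟨b, rfl⟩)
      · exact (IntermediateField.adjoin B (Set.range (algebraMap Y Z))).algebraMap_mem b
      · exact IntermediateField.subset_adjoin B _ ⟨b, rfl⟩
    exact h1 (hcomp z)
  haveI : Algebra.EssFiniteType B Z := Up.essFiniteType_of_gen (k := k) (Y := Y) hgen
  haveI : Algebra.EssFiniteType k Z := Algebra.EssFiniteType.comp k B Z
  haveI : Algebra.EssFiniteType k P := Algebra.EssFiniteType.comp k Z P
  -- algebraicity
  have halgZ : ∀ a : Z, IsAlgebraic (Algebra.adjoin k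
      (Set.range (algebraMap B Z) ∪ Set.range (algebraMap Y Z))) a := by
    intro a
    rw [← IntermediateField.isAlgebraic_adjoin_iff]
    exact isAlgebraic_algebraMap (⟨a, hcomp a⟩ : IntermediateField.adjoin k
      (Set.range (algebraMap B Z) ∪ Set.range (algebraMap Y Z)))
  have halgN : ∀ a : N, IsAlgebraic (Algebra.adjoin k
      (Set.range (algebraMap G N) ∪ Set.range (algebraMap P N))) a := by
    intro a
    rw [← IntermediateField.isAlgebraic_adjoin_iff]
    exact isAlgebraic_algebraMap (⟨a, hN a⟩ : IntermediateField.adjoin k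
      (Set.range (algebraMap G N) ∪ Set.range (algebraMap P N)))
  -- the dimensions
  obtain ⟨xB, hxB⟩ := exists_tb k B
  obtain ⟨y, hy⟩ := exists_tb k Y
  obtain ⟨xG, hxG⟩ := exists_tb k G
  obtain ⟨zE, hzE⟩ := exists_tb k E
  obtain ⟨xZ, hxZ⟩ := exists_tb k Z
  have hdimN : dimension k E = dimension k N := by
    haveI : Algebra.IsAlgebraic E N := Algebra.IsAlgebraic.trans E L N
    have h1 : IsTranscendenceBasis k (algebraMap E N ∘ zE) := hzE.algebraMap_comp
    have h2 := card_eq_of_isTranscendenceBasis h1
    rwa [Fintype.card_fin] at h2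
  have hdimZ1 : dimension k Z ≤ dimension k B + dimension k Y := by
    have h := dimension_le_card (k := k) (K := Z)
      (s := Sum.elim (fun i => algebraMap B Z (xB i)) (fun i => algebraMap Y Z (y i))) (fun a => by
        refine (halgZ a).adjoin_of_forall_isAlgebraic ?_
        rintro _ ⟨⟨b, rfl⟩ | ⟨b, rfl⟩, -⟩
        · exact isAlgebraic_transport hxB (Set.range _) (fun i => ⟨Sum.inl i, rfl⟩) b
        · exact isAlgebraic_transport hy (Set.range _) (fun i => ⟨Sum.inr i, rfl⟩) b)
    simpa using h
  have hdimZ2 : dimension k N ≤ dimension k Z + dimension k G := by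
    have h := dimension_le_card (k := k) (K := N)
      (s := Sum.elim (fun i => algebraMap Z N (xZ i)) (fun i => algebraMap G N (xG i))) (fun a => by
        refine (halgN a).adjoin_of_forall_isAlgebraic ?_
        rintro _ ⟨⟨b, rfl⟩ | ⟨b, rfl⟩, -⟩
        · exact isAlgebraic_transport hxG (Set.range _) (fun i => ⟨Sum.inr i, rfl⟩) b
        · have hxP : IsTranscendenceBasis k (algebraMap Z P ∘ xZ) := hxZ.algebraMap_comp
          exact isAlgebraic_transport hxP (Set.range _) (fun i => ⟨Sum.inl i, by
            rw [Sum.elim_inl, IsScalarTower.algebraMap_apply Z P N]; rfl⟩) b)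
    simpa using h
  have hdimZ : dimension k B + dimension k Y = dimension k Z := by omega
  have hx : ∀ i, IsTranscendenceBasis B (fun a => algebraMap Y Z (M.x i a)) := fun i =>
    Up.tb_over hdimZ halgZ (M.tb i)
  exact branchMoves_of_factorial hk hF (by omega) hx hgen

end Pf72953.Fac
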